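import Pool.Agent.H79.HG.Qline

/-!
# Module ACT [H79 HG]: from an action on a hyperbolic space to a length function

PROOF. `len g = ⌈dist x₀ (g • x₀)⌉`. `len 1 = 0`; `len g⁻¹ = len g` (`dist_comm`, isometry);
`len (g g') ≤ len g + len g'` (`dist x₀ (g g' x₀) ≤ dist x₀ (g x₀) + dist (g x₀) (g g' x₀)`,
`dist_smul_smul`...; `Int.ceil_add_le`). Put `D = ⌈|δ|⌉ + 3`... : `gp len x y` differs from
`dist x₀ (x x₀) + dist x₀ (y x₀) - dist (x x₀) (y x₀)` by at most `2` (`Int.le_ceil`,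
`Int.ceil_lt_add_one`; `dist (x x₀) (y x₀) = dist x₀ (x⁻¹ y x₀)`), and the four point condition for
`x₀, x x₀, y x₀, z x₀` gives `hyp` with `d = ⌈|δ|⌉ + 4`. Linear growth: `c n ≤ dist ≤ len` (`c' = 0`),
`exists_qline` gives `Q`. `grow`: `n₀ ≥ B / c`. `wpd ε`: `len u ≤ ε` implies `dist x₀ (u x₀) ≤ ε`, and
`len ((h^N)⁻¹ u h^N) ≤ ε` implies `dist (h^N x₀) (u h^N x₀) ≤ ε`; subset of the finite set given by
the hypothesis for the real number `ε`.
-/

set_option autoImplicit false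

open scoped Classical

namespace Pool.Agent.H79.HG

open HT (gp)

theorem exists_HW {Γ X : Type*} [Group Γ] [PseudoMetricSpace X] [MulAction Γ X]
    [IsIsometricSMul Γ X] (δ : ℝ)
    (hX : ∀ x y z w : X, dist x z + dist y w ≤ max (dist x y + dist z w) (dist x w + dist y z) + δ)
    (h : Γ) (x₀ : X) (c : ℝ) (hc : 0 < c) (hlox : ∀ n : ℕ, c * n ≤ dist x₀ (h ^ n • x₀))
    (hwpd : ∀ ε : ℝ, ∃ N : ℕ,
      {g : Γ | dist x₀ (g • x₀) ≤ ε ∧ dist (h ^ N • x₀) (g • h ^ N • x₀) ≤ ε}.Finite) :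
    ∃ W : HW Γ, W.h = h := by
  obtain ⟨D, hD⟩ : ∃ D : Γ → ℝ, ∀ g, D g = dist x₀ (g • x₀) := ⟨_, fun _ => rfl⟩
  obtain ⟨len, hlen⟩ : ∃ len : Γ → ℤ, ∀ g, len g = ⌈D g⌉ := ⟨_, fun _ => rfl⟩
  have hle : ∀ g, D g ≤ len g := fun g => by
    rw [hlen]
    exact Int.le_ceil _
  have hlt : ∀ g, (len g : ℝ) < D g + 1 := fun g => by
    rw [hlen]
    exact Int.ceil_lt_add_one _
  have Dinv : ∀ g, D g⁻¹ = D g := by
    intro g
    rw [hD, hD, ← dist_smul g x₀ (g⁻¹ • x₀), smul_inv_smul, dist_comm]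
  have Dmul : ∀ g g', D (g * g') ≤ D g + D g' := by
    intro g g'
    rw [hD, hD, hD, mul_smul, ← dist_smul g x₀ (g' • x₀)]
    exact dist_triangle _ _ _
  have Dd : ∀ x y, D (x⁻¹ * y) = dist (x • x₀) (y • x₀) := by
    intro x y
    rw [hD, mul_smul, ← dist_smul x x₀, smul_inv_smul]
  have len_one : len 1 = 0 := by
    rw [hlen, hD, one_smul, dist_self, Int.ceil_zero]
  have len_inv : ∀ x, len x⁻¹ = len x := by
    intro x
    rw [hlen, hlen, Dinv]
  have len_mul : ∀ x y, len (x * y) ≤ len x + len y := by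
    intro x y
    rw [hlen (x * y)]
    apply Int.ceil_le.2
    push_cast
    linarith [Dmul x y, hle x, hle y]
  have hyp : ∀ x y z, gp len x y ≤ gp len x z + (⌈|δ|⌉ + 4) ∨
      gp len y z ≤ gp len x z + (⌈|δ|⌉ + 4) := by
    intro x y z
    have h1 := hX (x • x₀) (y • x₀) (z • x₀) x₀
    have e1 := Dd x y
    have e2 := Dd x z
    have e3 := Dd y z
    have e4 : dist (z • x₀) x₀ = D z := by rw [hD, dist_comm]
    have e5 : dist (y • x₀) x₀ = D y := by rw [hD, dist_comm]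
    have e6 : dist (x • x₀) x₀ = D x := by rw [hD, dist_comm]
    rw [← e1, ← e2, ← e3, e4, e5, e6] at h1
    have hδ : δ ≤ (⌈|δ|⌉ : ℝ) := (le_abs_self δ).trans (Int.le_ceil _)
    have a1 := hle x
    have a2 := hle y
    have a3 := hle z
    have a4 := hle (x⁻¹ * y)
    have a5 := hle (x⁻¹ * z)
    have a6 := hle (y⁻¹ * z)
    have b1 := hlt x
    have b2 := hlt y
    have b3 := hlt z
    have b4 := hlt (x⁻¹ * y)
    have b5 := hlt (x⁻¹ * z)
    have b6 := hlt (y⁻¹ * z)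
    rcases le_total (D (x⁻¹ * y) + D z) (D x + D (y⁻¹ * z)) with hm | hm
    · right
      rw [max_eq_right hm] at h1
      have : ((gp len y z : ℤ) : ℝ) ≤ ((gp len x z + (⌈|δ|⌉ + 4) : ℤ) : ℝ) := by
        unfold gp
        push_cast
        linarith
      exact_mod_cast this
    · left
      rw [max_eq_left hm] at h1
      have : ((gp len x y : ℤ) : ℝ) ≤ ((gp len x z + (⌈|δ|⌉ + 4) : ℤ) : ℝ) := by
        unfold gp
        push_cast
        linarith
      exact_mod_cast this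
  have hd : 0 ≤ ⌈|δ|⌉ + 4 := by
    have := Int.ceil_nonneg (abs_nonneg δ)
    omega
  obtain ⟨Q, hQ0, hQ⟩ := exists_qline len (⌈|δ|⌉ + 4) hd len_one len_inv len_mul hyp h c 0 hc (by
    intro n
    have h1 := hlox n
    have h2 := hle (h ^ n)
    rw [hD] at h2
    linarith)
  refine ⟨⟨len, ⌈|δ|⌉ + 4, h, Q, hd, hQ0, len_one, len_inv, len_mul, hyp, hQ, ?_, ?_⟩, rfl⟩
  · intro B
    obtain ⟨n₀, hn₀⟩ := exists_nat_gt ((B : ℝ) / c)
    refine ⟨n₀, fun n hn => ?_⟩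
    have h1 := hlox n
    have h2 := hle (h ^ n)
    rw [hD] at h2
    rw [div_lt_iff₀ hc] at hn₀
    have h3 : c * (n₀ : ℝ) ≤ c * n := mul_le_mul_of_nonneg_left (by exact_mod_cast hn) hc.le
    have : (B : ℝ) ≤ (len (h ^ n) : ℝ) := by linarith
    exact_mod_cast this
  · intro ε
    obtain ⟨N, hN⟩ := hwpd (ε : ℝ)
    refine ⟨N, hN.subset ?_⟩
    rintro u ⟨h1, h2⟩
    have h1' : ((len u : ℤ) : ℝ) ≤ ε := by exact_mod_cast h1
    have h2' : ((len ((h ^ N)⁻¹ * u * h ^ N) : ℤ) : ℝ) ≤ ε := by exact_mod_cast h2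
    refine ⟨?_, ?_⟩
    · rw [← hD]
      exact (hle u).trans h1'
    · have h3 := hle ((h ^ N)⁻¹ * u * h ^ N)
      rw [mul_assoc, Dd, mul_smul] at h3
      rw [mul_assoc] at h2'
      exact h3.trans h2'

end Pool.Agent.H79.HG
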