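import Pool.Agent.H79.HG.MatchV

/-!
# Module ADJAC [H79 HG]: consecutive vertices are matched with consecutive vertices

PROOF (II.12). Let `0 ≤ C₂`. `c' = B2 + 4 C₂`, `C₂', n₁` from `vertex c'`, `Λ = C₂ + C₂' + 2 C₂ + 1`
(`C₂' ≥ 0` may be assumed), `n₀` = max of `n₁`, the `n₀` of `vert_between`, of `w_large Λ` and of
`len_val_large Λ`. `s₀ = val (l.take j)`, `s₁ = val (l.take (j+1)) = s₀ * w l[j]` (`take_step`),
`V k = g * val (l'.take k)`.
`k = k'`: `len (w l[j]) = ds s₀ s₁ ≤ 2 C₂ < Λ`, contradiction.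
Suppose `k + 2 ≤ k'` or `k' + 2 ≤ k`; let `a = min k k'`, `b = max k k'`, `a + 2 ≤ b ≤ l'.length`. For
`e ∈ {a, a+1, a+2}` the point `V e` is `B2`-between `V a` and `V b` (`vert_between` for the pieces of
`l'.take b`; `Bt.mul g`; if `e = a` or `e = b` it is `0`-between, `ds_self`). Hence `V e` is `c'`-between
`s₀` and `s₁` (the ends of the two segments are `C₂`-close, in one of the two orders; triangle
inequalities; `ds_comm`). Apply `vertex c'` to the word `[l[j]]` (good, not empty), `g := s₀`,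
`y := V (a+1)`, the letters `l'[a]`, `l'[a+1]` (different, `take_step`): `V (a+1)` is `C₂'`-close to
`s₀ * val u`, `[l[j]] = u ++ v`, so `u = []` or `u = [l[j]]`, i.e. to `s₀` or to `s₁`. `s₀, s₁` are `C₂`-close
to `V a` and `V b` in some order. So `ds (V (a+1)) (V a) ≤ C₂ + C₂'` or `ds (V (a+1)) (V b) ≤ C₂ + C₂'`.
But `ds (V a) (V (a+1)) = len (w l'[a]) ≥ Λ` and `ds (V (a+1)) (V b) = len (val ((l'.take b).drop (a+1)))
≥ Λ` (`len_val_large`; the list is good and not empty). Contradiction.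
-/

set_option autoImplicit false

open scoped Classical

namespace Pool.Agent.H79.HG

namespace LD

variable {Γ : Type*} [Group Γ] (L : LD Γ)

private theorem bt_take {n₂ : ℕ} (hvb : ∀ u v t : List (Fin L.q × ℕ), L.Gd n₂ (u ++ v ++ t) →
    L.W.Bt L.B2 (L.val u) (L.val (u ++ v)) (L.val (u ++ v ++ t))) {l' : List (Fin L.q × ℕ)}
    (hG : L.Gd n₂ l') (g : Γ) {a e b : ℕ} (hae : a ≤ e) (heb : e ≤ b) :
    L.W.Bt L.B2 (g * L.val (l'.take a)) (g * L.val (l'.take e)) (g * L.val (l'.take b)) := by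
  have e1 : l'.take a ++ (l'.take e).drop a = l'.take e := by
    have h := List.take_append_drop a (l'.take e)
    rwa [List.take_take, min_eq_left hae] at h
  have e2 : l'.take e ++ (l'.take b).drop e = l'.take b := by
    have h := List.take_append_drop e (l'.take b)
    rwa [List.take_take, min_eq_left heb] at h
  have h := hvb (l'.take a) ((l'.take e).drop a) ((l'.take b).drop e) (by
    rw [e1, e2]
    exact hG.take b)
  rw [e1, e2] at h
  exact h.mul g

private theorem bt_close {c K : ℤ} {p q x y z : Γ} (h : L.W.Bt c x y z) (h1 : L.W.ds p x ≤ K)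
    (h2 : L.W.ds q z ≤ K) : L.W.Bt (c + 4 * K) p y q := by
  unfold HW.Bt at h ⊢
  have t1 := L.W.ds_tri p x y
  have t2 := L.W.ds_tri y z q
  have t3 := L.W.ds_tri x p z
  have t4 := L.W.ds_tri p q z
  have c1 := L.W.ds_comm q z
  have c2 := L.W.ds_comm p x
  omega

/-- the main case: `a + 2 ≤ b` -/
private theorem adj_aux {K : ℤ} {C₂' : ℤ} {n₂ : ℕ} {Λ : ℤ} (hK : 0 ≤ K)
    (hvb : ∀ u v t : List (Fin L.q × ℕ), L.Gd n₂ (u ++ v ++ t) →
      L.W.Bt L.B2 (L.val u) (L.val (u ++ v)) (L.val (u ++ v ++ t)))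
    (hvert : ∀ (l : List (Fin L.q × ℕ)) (i i' : Fin L.q) (m m' : ℕ) (y g : Γ), L.Gd n₂ l → l ≠ [] →
      i ≠ i' → n₂ ≤ m → n₂ ≤ m' → L.V (L.B2 + 4 * K) g (g * L.val l) i i' m m' y →
      ∃ u v : List (Fin L.q × ℕ), l = u ++ v ∧ L.W.ds y (g * L.val u) ≤ C₂')
    (hwl : ∀ i m, n₂ ≤ m → Λ ≤ L.W.len (L.w i m))
    (hlv : ∀ l : List (Fin L.q × ℕ), L.Gd n₂ l → l ≠ [] → Λ ≤ L.W.len (L.val l))
    (hΛ : K + |C₂'| + 2 * K + 1 ≤ Λ) {l l' : List (Fin L.q × ℕ)} {g : Γ} {j a b : ℕ}
    (hG : L.Gd n₂ l) (hG' : L.Gd n₂ l') (hj : j < l.length) (hab : a + 2 ≤ b) (hb : b ≤ l'.length)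
    (hor : (L.W.ds (L.val (l.take j)) (g * L.val (l'.take a)) ≤ K ∧
        L.W.ds (L.val (l.take (j + 1))) (g * L.val (l'.take b)) ≤ K) ∨
      (L.W.ds (L.val (l.take j)) (g * L.val (l'.take b)) ≤ K ∧
        L.W.ds (L.val (l.take (j + 1))) (g * L.val (l'.take a)) ≤ K)) : False := by
  have hbt : ∀ e, a ≤ e → e ≤ b → L.W.Bt (L.B2 + 4 * K) (L.val (l.take j)) (g * L.val (l'.take e))
      (L.val (l.take (j + 1))) := by
    intro e h1 h2
    have h3 := L.bt_take hvb hG' g h1 h2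
    rcases hor with ⟨k1, k2⟩ | ⟨k1, k2⟩
    · exact L.bt_close h3 k1 k2
    · exact (L.bt_close h3 k2 k1).symm
  have ha1 : a < l'.length := by omega
  have ha2 : a + 1 < l'.length := by omega
  have s0 := L.take_step l hj
  have s1 := L.take_step l' ha1
  have s2 := L.take_step l' ha2
  have hne : l'[a].1 ≠ l'[a + 1].1 := (List.isChain_iff_getElem.1 hG'.2) a ha2
  have hone : L.Gd n₂ [l[j]] := by
    refine ⟨?_, by simp⟩
    intro x hx
    rw [List.mem_singleton] at hx
    subst hx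
    exact hG.1 _ (List.getElem_mem hj)
  have hend : L.val (l.take j) * L.val [l[j]] = L.val (l.take (j + 1)) := by
    rw [L.val_singleton, ← s0]
  have hV : L.V (L.B2 + 4 * K) (L.val (l.take j)) (L.val (l.take j) * L.val [l[j]]) l'[a].1 l'[a + 1].1
      l'[a].2 l'[a + 1].2 (g * L.val (l'.take (a + 1))) := by
    rw [hend]
    refine ⟨?_, ?_, ?_⟩
    · have e1 : g * L.val (l'.take (a + 1)) * (L.w l'[a].1 l'[a].2)⁻¹ = g * L.val (l'.take a) := by
        rw [s1]
        group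
      rw [e1]
      exact hbt a le_rfl (by omega)
    · exact hbt (a + 1) (by omega) (by omega)
    · have e1 : g * L.val (l'.take (a + 1)) * L.w l'[a + 1].1 l'[a + 1].2 = g * L.val (l'.take (a + 1 + 1)) := by
        rw [s2]
        group
      rw [e1]
      exact hbt (a + 1 + 1) (by omega) (by omega)
  obtain ⟨u, v, huv, hds⟩ := hvert [l[j]] _ _ _ _ _ _ hone (by simp) hne
    (hG'.1 _ (List.getElem_mem ha1)) (hG'.1 _ (List.getElem_mem ha2)) hV
  have hu : L.val (l.take j) * L.val u = L.val (l.take j) ∨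
      L.val (l.take j) * L.val u = L.val (l.take (j + 1)) := by
    cases u with
    | nil => left; rw [L.val_nil, mul_one]
    | cons x u =>
      right
      rw [List.cons_append] at huv
      obtain ⟨h1, h2⟩ := List.cons.inj huv
      have h3 : u = [] := (List.append_eq_nil_iff.1 h2.symm).1
      rw [← h1, h3]
      exact hend
  have hC := le_abs_self C₂'
  have hC0 := abs_nonneg C₂'
  -- lower bounds
  have low1 : Λ ≤ L.W.ds (g * L.val (l'.take a)) (g * L.val (l'.take (a + 1))) := by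
    rw [L.W.ds_mul_left, s1, L.W.ds_mul_right]
    exact hwl _ _ (hG'.1 _ (List.getElem_mem ha1))
  have low2 : Λ ≤ L.W.ds (g * L.val (l'.take (a + 1))) (g * L.val (l'.take b)) := by
    have e2 : l'.take (a + 1) ++ (l'.take b).drop (a + 1) = l'.take b := by
      have h := List.take_append_drop (a + 1) (l'.take b)
      rwa [List.take_take, min_eq_left (by omega)] at h
    rw [L.W.ds_mul_left, ← e2, L.val_append, L.W.ds_mul_right]
    refine hlv _ ((hG'.take b).drop (a + 1)) ?_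
    intro h
    have h1 := congrArg List.length h
    rw [List.length_drop, List.length_take, List.length_nil] at h1
    omega
  have c1 := L.W.ds_comm (g * L.val (l'.take a)) (g * L.val (l'.take (a + 1)))
  rcases hu with hu | hu <;> rw [hu] at hds <;> rcases hor with ⟨k1, k2⟩ | ⟨k1, k2⟩
  · have t := L.W.ds_tri (g * L.val (l'.take (a + 1))) (L.val (l.take j)) (g * L.val (l'.take a))
    omega
  · have t := L.W.ds_tri (g * L.val (l'.take (a + 1))) (L.val (l.take j)) (g * L.val (l'.take b))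
    omega
  · have t := L.W.ds_tri (g * L.val (l'.take (a + 1))) (L.val (l.take (j + 1))) (g * L.val (l'.take b))
    omega
  · have t := L.W.ds_tri (g * L.val (l'.take (a + 1))) (L.val (l.take (j + 1))) (g * L.val (l'.take a))
    omega

theorem adjacent (C₂ : ℤ) : ∃ n₀ : ℕ, ∀ (l l' : List (Fin L.q × ℕ)) (g : Γ) (j k k' : ℕ),
    L.Gd n₀ l → L.Gd n₀ l' → j + 1 ≤ l.length → k ≤ l'.length → k' ≤ l'.length →
    L.W.ds (L.val (l.take j)) (g * L.val (l'.take k)) ≤ C₂ →
    L.W.ds (L.val (l.take (j + 1))) (g * L.val (l'.take k')) ≤ C₂ →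
    k' = k + 1 ∨ k = k' + 1 := by
  obtain ⟨K, hK, hC₂⟩ : ∃ K : ℤ, 0 ≤ K ∧ C₂ ≤ K := ⟨max C₂ 0, by omega, by omega⟩
  obtain ⟨C₂', n₁, hvert⟩ := L.vertex (L.B2 + 4 * K)
  obtain ⟨n₂, hvb⟩ := L.vert_between
  obtain ⟨n₃, hwl⟩ := L.w_large (K + |C₂'| + 2 * K + 1)
  obtain ⟨n₄, hlv⟩ := L.len_val_large (K + |C₂'| + 2 * K + 1)
  refine ⟨max (max n₁ n₂) (max n₃ n₄), ?_⟩
  intro l l' g j k k' hG hG' hj hk hk' h1 h2
  have main := fun (a b : ℕ) (hab : a + 2 ≤ b) (hb : b ≤ l'.length) hor =>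
    L.adj_aux (K := K) (C₂' := C₂') (n₂ := max (max n₁ n₂) (max n₃ n₄)) (Λ := K + |C₂'| + 2 * K + 1) hK
      (fun u v t h => hvb u v t (h.mono (by omega)))
      (fun l i i' m m' y g h1 h2 h3 h4 h5 h6 => hvert l i i' m m' y g (h1.mono (by omega)) h2 h3
        (by omega) (by omega) h6)
      (fun i m hm => hwl i m (by omega))
      (fun l h1 h2 => hlv l (h1.mono (by omega)) h2) le_rfl (l := l) (l' := l') (g := g) (j := j)
      (a := a) (b := b) hG hG' (by omega) hab hb hor
  rcases lt_trichotomy k k' with h3 | h3 | h3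
  · by_contra hcon
    exact main k k' (by omega) hk' (Or.inl ⟨by omega, by omega⟩)
  · exfalso
    subst h3
    have hj' : j < l.length := by omega
    have s0 := L.take_step l hj'
    have t := L.W.ds_tri (L.val (l.take j)) (g * L.val (l'.take k)) (L.val (l.take (j + 1)))
    have c1 := L.W.ds_comm (g * L.val (l'.take k)) (L.val (l.take (j + 1)))
    have e1 : L.W.ds (L.val (l.take j)) (L.val (l.take (j + 1))) = L.W.len (L.w l[j].1 l[j].2) := by
      rw [s0, L.W.ds_mul_right]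
    have k1 := hwl l[j].1 l[j].2 (by
      have := hG.1 _ (List.getElem_mem hj')
      omega)
    have k2 := abs_nonneg C₂'
    omega
  · by_contra hcon
    exact main k' k (by omega) hk (Or.inr ⟨by omega, by omega⟩)

end LD

end Pool.Agent.H79.HG
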