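import Pool.Agent.H79.HG.Inter

/-!
# Module CORE [H79 HG]: the finite radical and separating conjugates

PROOFS (II.5, end). `K = (Ei h).normalCore` (`Subgroup.normalCore_le`, `Subgroup.normalCore_normal`;
`g ∈ K ↔ ∀ b, b * g * b⁻¹ ∈ Ei h`). `core_finite`: `x ∉ Ei h` exists; `K ⊆` the set of `inter_finite`.
`separators`: start with `x₀ = 1`, `x₁ = x ∉ Ei h`. The set `S = {g : g ∈ Ei h ∧ x⁻¹ g x ∈ Ei h}` is
finite. For every `g ∈ S \ K` choose `y g` with `(y g)⁻¹ g (y g) ∉ Ei h` (from `g ∉ normalCore`).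
Let `Y` be the finite set `{1, x} ∪ {y g : g ∈ S \ K}`. Then `(∀ y ∈ Y, y⁻¹ g y ∈ Ei h) → g ∈ K`.
Among the finite subsets `Y` with this property and with `1, x ∈ Y ...` it is simplest to choose one
of minimal cardinality among all finite `Y` with: `∀ g, (∀ y ∈ Y, y⁻¹ g y ∈ Ei h) → g ∈ K`. Then
different `y, y' ∈ Y` satisfy `y⁻¹ y' ∉ Ei h`: otherwise `y' = y e`, `e ∈ Ei h`, and
`y'⁻¹ g y' = e⁻¹ (y⁻¹ g y) e ∈ Ei h` iff `y⁻¹ g y ∈ Ei h`, so `y'` could be removed. If `|Y| ≤ 1` then a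
conjugate of `Ei h` (or `Γ`, if `Y = ∅`) is contained in `K`, which is finite, but `h^n`, `n ∈ ℕ`, are
different (`pow_ne_one`): contradiction. So `q = |Y| ≥ 2`, and `Y.equivFin.symm` (or
`Y.orderIsoOfFin`...) gives `x : Fin q → Γ`.
-/

set_option autoImplicit false

open scoped Classical

namespace Pool.Agent.H79.HG

namespace HW

variable {Γ : Type*} [Group Γ] (W : HW Γ)

theorem core_conj {g : Γ} (hg : g ∈ (Ei W.h).normalCore) (y : Γ) : y⁻¹ * g * y ∈ Ei W.h := by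
  have h1 : y⁻¹ * g * y⁻¹⁻¹ ∈ (Ei W.h).normalCore :=
    (Subgroup.normalCore_normal _).conj_mem g hg y⁻¹
  rw [inv_inv] at h1
  exact Subgroup.normalCore_le _ h1

theorem core_finite (hv : ¬ (Subgroup.zpowers W.h).FiniteIndex) :
    ((Ei W.h).normalCore : Set Γ).Finite := by
  obtain ⟨x, hx⟩ := W.exists_not_Ei hv
  refine (W.inter_finite hx).subset ?_
  intro g hg
  have hg' : g ∈ (Ei W.h).normalCore := hg
  exact ⟨Subgroup.normalCore_le _ hg', W.core_conj hg' x⟩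

theorem core_pow_inj (y : Γ) : Function.Injective (fun n : ℕ => y * W.h ^ n * y⁻¹) := by
  have key : ∀ n m : ℕ, n < m → y * W.h ^ n * y⁻¹ ≠ y * W.h ^ m * y⁻¹ := by
    intro n m hnm he
    have h1 : W.h ^ n = W.h ^ m := mul_left_cancel (mul_right_cancel he)
    have h2 : W.h ^ m = W.h ^ n * W.h ^ (m - n) := by
      rw [← pow_add]
      congr 1
      omega
    rw [h2] at h1
    exact W.pow_ne_one (n := m - n) (by omega) (left_eq_mul.1 h1)
  intro n m he
  rcases lt_trichotomy n m with h | h | h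
  · exact (key n m h he).elim
  · exact h
  · exact (key m n h he.symm).elim

theorem core_exists (hv : ¬ (Subgroup.zpowers W.h).FiniteIndex) :
    ∃ Y : Finset Γ, ∀ g : Γ, (∀ y ∈ Y, y⁻¹ * g * y ∈ Ei W.h) → g ∈ (Ei W.h).normalCore := by
  obtain ⟨x, hx⟩ := W.exists_not_Ei hv
  have hS := W.inter_finite hx
  have hex : ∀ g : Γ, ∃ y : Γ, g ∉ (Ei W.h).normalCore → y⁻¹ * g * y ∉ Ei W.h := by
    intro g
    by_cases hg : g ∈ (Ei W.h).normalCore
    · exact ⟨1, fun h => absurd hg h⟩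
    · by_contra hcon
      push Not at hcon
      apply hg
      intro b
      have := (hcon b⁻¹).2
      rwa [inv_inv] at this
  choose y hy using hex
  refine ⟨insert 1 (insert x (hS.toFinset.image y)), ?_⟩
  intro g hg
  by_contra hK
  have h1 := hg 1 (by simp)
  have h2 := hg x (by simp)
  rw [inv_one, one_mul, mul_one] at h1
  have h3 : y g ∈ insert 1 (insert x (hS.toFinset.image y)) := by
    rw [Finset.mem_insert, Finset.mem_insert]
    right
    right
    apply Finset.mem_image_of_mem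
    rw [Set.Finite.mem_toFinset]
    exact ⟨h1, h2⟩
  exact hy g hK (hg _ h3)

theorem separators (hv : ¬ (Subgroup.zpowers W.h).FiniteIndex) :
    ∃ (q : ℕ) (x : Fin q → Γ), 2 ≤ q ∧ (∀ i j, i ≠ j → (x i)⁻¹ * x j ∉ Ei W.h) ∧
      ∀ g : Γ, (∀ i, (x i)⁻¹ * g * x i ∈ Ei W.h) → g ∈ (Ei W.h).normalCore := by
  have hex : ∃ n : ℕ, ∃ Y : Finset Γ, Y.card = n ∧
      ∀ g : Γ, (∀ y ∈ Y, y⁻¹ * g * y ∈ Ei W.h) → g ∈ (Ei W.h).normalCore := by
    obtain ⟨Y, hY⟩ := W.core_exists hv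
    exact ⟨_, Y, rfl, hY⟩
  obtain ⟨Y, hYc, hY⟩ := Nat.find_spec hex
  have hmin : ∀ Z : Finset Γ, Z.card < Y.card →
      ¬ ∀ g : Γ, (∀ y ∈ Z, y⁻¹ * g * y ∈ Ei W.h) → g ∈ (Ei W.h).normalCore := by
    intro Z hZ hcon
    have h1 := Nat.find_min' hex ⟨Z, rfl, hcon⟩
    omega
  have hsep : ∀ y ∈ Y, ∀ y' ∈ Y, y ≠ y' → y⁻¹ * y' ∉ Ei W.h := by
    intro y hy y' hy' hne he
    refine hmin (Y.erase y') (Finset.card_erase_lt_of_mem hy') ?_
    intro g hg
    apply hY
    intro z hz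
    by_cases hzy : z = y'
    · subst hzy
      have h1 := hg y (Finset.mem_erase.2 ⟨hne, hy⟩)
      have e : z⁻¹ * g * z = (y⁻¹ * z)⁻¹ * (y⁻¹ * g * y) * (y⁻¹ * z) := by group
      rw [e]
      exact (Ei W.h).mul_mem ((Ei W.h).mul_mem ((Ei W.h).inv_mem he) h1) he
    · exact hg z (Finset.mem_erase.2 ⟨hzy, hz⟩)
  have hcard : 2 ≤ Y.card := by
    by_contra hcon
    have h1 : Y.card ≤ 1 := by omega
    obtain ⟨y, hy⟩ := Finset.card_le_one_iff_subset_singleton.1 h1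
    have hmem : ∀ n : ℕ, y * W.h ^ n * y⁻¹ ∈ (Ei W.h).normalCore := by
      intro n
      apply hY
      intro z hz
      have hz' : z = y := Finset.mem_singleton.1 (hy hz)
      subst hz'
      have e : z⁻¹ * (z * W.h ^ n * z⁻¹) * z = W.h ^ n := by group
      rw [e]
      exact (Ei W.h).pow_mem (h_mem_Ei W.h) n
    have h2 : (Set.range (fun n : ℕ => y * W.h ^ n * y⁻¹)).Finite := by
      refine (W.core_finite hv).subset ?_
      rintro _ ⟨n, rfl⟩
      exact hmem n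
    exact (Set.infinite_range_of_injective (W.core_pow_inj y)) h2
  refine ⟨Y.card, fun i => (Y.equivFin.symm i : Γ), hcard, ?_, ?_⟩
  · intro i j hij
    apply hsep _ (Y.equivFin.symm i).2 _ (Y.equivFin.symm j).2
    intro he
    exact hij (Y.equivFin.symm.injective (Subtype.ext he))
  · intro g hg
    apply hY
    intro y hy
    have h1 := hg (Y.equivFin ⟨y, hy⟩)
    simpa using h1

end HW

end Pool.Agent.H79.HG
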