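import Pool.Agent.H79.HG.Line

/-!
# Module FELLOW [H79 HG]: an element that moves two far points of the quasi-line little moves all
points in between little

PROOF (II.2). `H i` is `h ^ i`, `a = |m'|` (`natAbs`), `s = sg m'`, so `h ^ m' = h ^ (s a)`
(`sg_mul_self`). Let `n₀` be from `grow (2ε + Q + 1)` and
`ε₁ = 3ε + Q + d + 2 (n₀ + 1) len h` (assume `0 ≤ ε`; for `ε < 0` nothing to show, `len_nonneg`).
`|len (h ^ m) - len (h ^ a)| ≤ 2ε`: `ds (h ^ m) (g h ^ m') ≤ ε`, `ds 1 g ≤ ε`,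
`ds g (g h ^ m') = len (h ^ a)` (`len_sg`), triangle inequalities.
(A) `j ≤ a`. Put `y = h ^ j`, `y' = g h ^ (s j)`. Four points `1, y, h ^ m, y'`
(`four 1 y (h^m) y'`): `ds 1 (h^m) + ds y y' ≤ d + ` either `ds 1 y + ds (h^m) y'` or
`ds 1 y' + ds y (h^m)`. Here `ds 1 y = len (h^j)`, `ds y (h^m) = len (h ^ (m - j))`,
`ds 1 y' ≤ ε + len (h^j)`, `ds (h^m) y' ≤ ε + ds (g h^m') y' = ε + len (h ^ (a - j))`. First case:
`len (h^j) + len (h^(a-j)) + ε ≤ len (h^a) + Q + ε ≤ len (h^m) + Q + 3ε` (`len_sub`). Second case: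
`ε + len (h^j) + len (h^(m-j)) ≤ ε + len (h^m) + Q`. So `ds y y' ≤ 3ε + Q + d`, and `ds y y'` is the
length in question.
(B) `a < j ≤ m`: `len (h^a) + len (h^(m-a)) ≤ len (h^m) + Q ≤ len (h^a) + 2ε + Q`, so `m - a < n₀`.
`h^(-j) g h^(s j) = h^(m-j) (h^(-m) g h^(s a)) h^(s (j-a))`, of length at most
`len (h^(m-j)) + ε + len (h^(j-a)) ≤ 2 n₀ len h + ε` (`len_pow_le`, `len_sg`).
-/

set_option autoImplicit false

open scoped Classical

namespace Pool.Agent.H79.HG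

namespace HW

variable {Γ : Type*} [Group Γ] (W : HW Γ)

theorem fellow (ε : ℤ) : ∃ ε₁ : ℤ, ∀ (g : Γ) (m : ℕ) (m' : ℤ), W.len g ≤ ε →
    W.len ((W.h ^ m)⁻¹ * g * W.h ^ m') ≤ ε →
    ∀ j : ℕ, j ≤ m → W.len ((W.h ^ j)⁻¹ * g * W.h ^ (sg m' * j)) ≤ ε₁ := by
  rcases lt_or_ge ε 0 with hε | hε
  · refine ⟨0, fun g m m' hg _ => ?_⟩
    have := W.len_nonneg g
    omega
  obtain ⟨n₀, hn₀⟩ := W.grow (2 * ε + W.Q + 1)
  refine ⟨3 * ε + W.Q + W.d + 2 * (n₀ + 1) * W.len W.h, fun g m m' hg hgm j hj => ?_⟩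
  set a : ℕ := m'.natAbs with ha
  set s : ℤ := sg m' with hs
  have hsc : s = 1 ∨ s = -1 := sg_cases m'
  have hm' : m' = s * a := (sg_mul_self m').symm
  have hlh := W.len_nonneg W.h
  have hQ := W.hQ0
  have hd := W.hd
  have hpos : 0 ≤ 2 * ((n₀ : ℤ) + 1) * W.len W.h := by positivity
  -- distances
  have d1 : W.ds (W.h ^ m) (g * W.h ^ m') ≤ ε := by
    unfold ds
    rwa [← mul_assoc]
  have d2 : W.ds 1 g ≤ ε := by
    rw [W.ds_one]
    exact hg
  have d3 : W.ds g (g * W.h ^ m') = W.len (W.h ^ a) := by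
    rw [W.ds_mul_right, hm', W.len_sg hsc]
  have hlen1 : W.len (W.h ^ m) ≤ W.len (W.h ^ a) + 2 * ε := by
    have t1 := W.ds_tri 1 (g * W.h ^ m') (W.h ^ m)
    have t2 := W.ds_tri 1 g (g * W.h ^ m')
    have c1 := W.ds_comm (g * W.h ^ m') (W.h ^ m)
    rw [W.ds_one (W.h ^ m)] at t1
    omega
  have hlen2 : W.len (W.h ^ a) ≤ W.len (W.h ^ m) + 2 * ε := by
    have t1 := W.ds_tri g 1 (g * W.h ^ m')
    have t2 := W.ds_tri 1 (W.h ^ m) (g * W.h ^ m')
    have c1 := W.ds_comm g 1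
    rw [W.ds_one (W.h ^ m)] at t2
    omega
  rcases Nat.lt_or_ge a j with hja | hja
  · -- `a < j ≤ m`
    have h1 := W.len_sub (hja.le.trans hj)
    have h2 : m - a < n₀ := by
      by_contra hlt
      push Not at hlt
      have := hn₀ (m - a) hlt
      omega
    have e : (W.h ^ j)⁻¹ * g * W.h ^ (s * j) =
        W.h ^ (m - j) * ((W.h ^ m)⁻¹ * g * W.h ^ m') * W.h ^ (s * (j - a : ℕ)) := by
      have e1 : W.h ^ m = W.h ^ j * W.h ^ (m - j) := by
        rw [← pow_add, Nat.add_sub_cancel' hj]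
      have e2 : W.h ^ (s * j) = W.h ^ m' * W.h ^ (s * (j - a : ℕ)) := by
        rw [← zpow_add, hm', ← mul_add]
        congr 2
        omega
      rw [e1, e2]
      group
    rw [e]
    have t1 := W.len_mul (W.h ^ (m - j) * ((W.h ^ m)⁻¹ * g * W.h ^ m')) (W.h ^ (s * (j - a : ℕ)))
    have t2 := W.len_mul (W.h ^ (m - j)) ((W.h ^ m)⁻¹ * g * W.h ^ m')
    rw [W.len_sg hsc] at t1
    have t3 := W.len_pow_le (m - j)
    have t4 := W.len_pow_le (j - a)
    have t5 : ((m - j : ℕ) : ℤ) * W.len W.h ≤ n₀ * W.len W.h :=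
      mul_le_mul_of_nonneg_right (by omega) hlh
    have t6 : ((j - a : ℕ) : ℤ) * W.len W.h ≤ n₀ * W.len W.h :=
      mul_le_mul_of_nonneg_right (by omega) hlh
    nlinarith
  · -- `j ≤ a`
    have key : W.ds (W.h ^ j) (g * W.h ^ (s * j)) ≤ 3 * ε + W.Q + W.d := by
      have f1 : W.ds 1 (W.h ^ j) = W.len (W.h ^ j) := W.ds_one _
      have f2 : W.ds (W.h ^ j) (W.h ^ m) = W.len (W.h ^ (m - j)) := by
        unfold ds
        congr 1
        rw [inv_mul_eq_iff_eq_mul, ← pow_add, Nat.add_sub_cancel' hj]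
      have f3 : W.ds 1 (g * W.h ^ (s * j)) ≤ ε + W.len (W.h ^ j) := by
        have t1 := W.ds_tri 1 g (g * W.h ^ (s * j))
        rw [W.ds_mul_right, W.len_sg hsc] at t1
        omega
      have f4 : W.ds (W.h ^ m) (g * W.h ^ (s * j)) ≤ ε + W.len (W.h ^ (a - j)) := by
        have t1 := W.ds_tri (W.h ^ m) (g * W.h ^ m') (g * W.h ^ (s * j))
        have t2 : W.ds (g * W.h ^ m') (g * W.h ^ (s * j)) = W.len (W.h ^ (a - j)) := by
          rw [W.ds_mul_left]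
          unfold ds
          have e2 : (W.h ^ m')⁻¹ * W.h ^ (s * j) = (W.h ^ (s * (a - j : ℕ)))⁻¹ := by
            rw [← zpow_neg, ← zpow_neg, ← zpow_add, hm']
            congr 1
            have : ((a - j : ℕ) : ℤ) = a - j := by omega
            rw [this]
            ring
          rw [e2, W.len_inv, W.len_sg hsc]
        omega
      have f5 : W.ds 1 (W.h ^ m) = W.len (W.h ^ m) := W.ds_one _
      have g1 := W.len_sub hja
      have g2 := W.len_sub hj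
      rcases W.four 1 (W.h ^ j) (W.h ^ m) (g * W.h ^ (s * j)) with h5 | h5 <;> omega
    have e : W.ds (W.h ^ j) (g * W.h ^ (s * j)) = W.len ((W.h ^ j)⁻¹ * g * W.h ^ (s * j)) := by
      unfold ds
      rw [mul_assoc]
    rw [e] at key
    omega

end HW

end Pool.Agent.H79.HG
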