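import Pool.Agent.H79.HG.NearL
import Pool.Agent.H79.HG.Fellow

/-!
# Module COSETS [H79 HG]: `Ei h` is a finite union of cosets of `⟨h⟩`

PROOF (II.4, second half). `ε₀` from `near_line` (replace it by `max ε₀ 0`), `ε₁` from `fellow ε₀`,
`e₂ = max (2 ε₀) (2 ε₁)`, `N` from `wpd e₂`, `U` the finite set. Let `g ∈ Ei h`, `j` from `near_line`,
`b = h^(-j) g ∈ Ei h` (`zpow_mem_Ei`), `len b ≤ ε₀`, `g = h^j b`. So it is enough that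
`B = {b ∈ Ei h : len b ≤ ε₀}` is finite (then `h^(-j) g ∈ B`). For `b ∈ B`: `b⁻¹ h^n b = h^(s n)`,
`s = ±1`, `n ≥ 1`; for every `k` `(h^(n k))⁻¹ b h^(s n k) = b`, of length `≤ ε₀`. Take `k = N` (`n N ≥ N`):
`fellow` with `m = n N`, `m' = s n N` (`sg m' = s` if `N ≥ 1`; if `N = 0` use `k = 1`: take `k = N + 1`),
`j = N`: `len ((h^N)⁻¹ b h^(s N)) ≤ ε₁`. Let `B = B₊ ∪ B₋` according to the sign. For each sign, if
`b, b₀ ∈ B_s`: `u = b b₀⁻¹` has `len u ≤ 2ε₀` and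
`(h^N)⁻¹ u h^N = ((h^N)⁻¹ b h^(s N)) ((h^N)⁻¹ b₀ h^(s N))⁻¹`, of length `≤ 2ε₁`; so `u ∈ U`,
`b ∈ U b₀`: `B_s` is finite (empty or contained in the image of `U` under `· * b₀`).
-/

set_option autoImplicit false

open scoped Classical

namespace Pool.Agent.H79.HG

namespace HW

variable {Γ : Type*} [Group Γ] (W : HW Γ)

/-- The key estimate: an element of bounded length which normalises some power of `h` moves the
point `h ^ N` little. -/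
theorem cosets_key {ε₀ ε₁ : ℤ}
    (hf : ∀ (g : Γ) (m : ℕ) (m' : ℤ), W.len g ≤ ε₀ →
      W.len ((W.h ^ m)⁻¹ * g * W.h ^ m') ≤ ε₀ →
      ∀ j : ℕ, j ≤ m → W.len ((W.h ^ j)⁻¹ * g * W.h ^ (sg m' * j)) ≤ ε₁)
    (N : ℕ) {s : ℤ} (hs : s = 1 ∨ s = -1) {b : Γ} (hb : W.len b ≤ ε₀) {n : ℕ} (hn : 1 ≤ n)
    (he : b⁻¹ * W.h ^ n * b = W.h ^ (s * n)) :
    W.len ((W.h ^ N)⁻¹ * b * W.h ^ (s * N)) ≤ ε₁ := by
  have h1 : b⁻¹ * W.h ^ (n * (N + 1)) * b = W.h ^ (s * (n * (N + 1) : ℕ)) := by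
    have e := conj_pow (a := b⁻¹) (b := W.h ^ n) (i := N + 1)
    rw [inv_inv] at e
    rw [pow_mul, ← e, he, ← zpow_natCast, ← zpow_mul]
    congr 1
    push_cast
    ring
  have h2 : (W.h ^ (n * (N + 1)))⁻¹ * b * W.h ^ (s * (n * (N + 1) : ℕ)) = b := by
    rw [← h1]
    group
  have hpos : 1 ≤ n * (N + 1) := Nat.mul_pos hn (Nat.succ_pos N)
  have hle : N ≤ n * (N + 1) := (Nat.le_succ N).trans (Nat.le_mul_of_pos_left _ hn)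
  have h3 := hf b (n * (N + 1)) (s * (n * (N + 1) : ℕ)) hb (by rw [h2]; exact hb) N hle
  have hsg : sg (s * (n * (N + 1) : ℕ)) = s := by
    unfold sg
    rcases hs with rfl | rfl
    · rw [if_pos (by omega)]
    · rw [if_neg (by omega)]
  rw [hsg] at h3
  exact h3

theorem cosets_sign {ε₀ ε₁ : ℤ} {N : ℕ}
    (hf : ∀ (g : Γ) (m : ℕ) (m' : ℤ), W.len g ≤ ε₀ →
      W.len ((W.h ^ m)⁻¹ * g * W.h ^ m') ≤ ε₀ →
      ∀ j : ℕ, j ≤ m → W.len ((W.h ^ j)⁻¹ * g * W.h ^ (sg m' * j)) ≤ ε₁)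
    (hN : {u : Γ | W.len u ≤ 2 * max ε₀ ε₁ ∧
      W.len ((W.h ^ N)⁻¹ * u * W.h ^ N) ≤ 2 * max ε₀ ε₁}.Finite)
    {s : ℤ} (hs : s = 1 ∨ s = -1) :
    {b : Γ | W.len b ≤ ε₀ ∧ ∃ n : ℕ, 1 ≤ n ∧ b⁻¹ * W.h ^ n * b = W.h ^ (s * n)}.Finite := by
  rcases Set.eq_empty_or_nonempty {b : Γ | W.len b ≤ ε₀ ∧
    ∃ n : ℕ, 1 ≤ n ∧ b⁻¹ * W.h ^ n * b = W.h ^ (s * n)} with h0 | ⟨b₀, hb₀, n₀, hn₀, he₀⟩
  · rw [h0]
    exact Set.finite_empty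
  refine (hN.image (fun u => u * b₀)).subset ?_
  rintro b ⟨hb, n, hn, he⟩
  refine ⟨b * b₀⁻¹, ?_, by group⟩
  have k1 := W.cosets_key hf N hs hb hn he
  have k2 := W.cosets_key hf N hs hb₀ hn₀ he₀
  have m1 := le_max_left ε₀ ε₁
  have m2 := le_max_right ε₀ ε₁
  rw [Set.mem_ofPred_eq]
  constructor
  · have h1 := W.len_mul b b₀⁻¹
    rw [W.len_inv] at h1
    omega
  · have h1 := W.len_mul ((W.h ^ N)⁻¹ * b * W.h ^ (s * N))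
      ((W.h ^ N)⁻¹ * b₀ * W.h ^ (s * N))⁻¹
    rw [W.len_inv] at h1
    have e : ((W.h ^ N)⁻¹ * b * W.h ^ (s * N)) * ((W.h ^ N)⁻¹ * b₀ * W.h ^ (s * N))⁻¹ =
        (W.h ^ N)⁻¹ * (b * b₀⁻¹) * W.h ^ N := by group
    rw [e] at h1
    omega

theorem cosets : ∃ B : Finset Γ, ∀ g ∈ Ei W.h, ∃ j : ℤ, ∃ b ∈ B, g = W.h ^ j * b := by
  obtain ⟨ε₀, hn⟩ := W.near_line
  obtain ⟨ε₁, hf⟩ := W.fellow ε₀
  obtain ⟨N, hN⟩ := W.wpd (2 * max ε₀ ε₁)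
  have f1 := W.cosets_sign hf hN (s := 1) (Or.inl rfl)
  have f2 := W.cosets_sign hf hN (s := -1) (Or.inr rfl)
  refine ⟨f1.toFinset ∪ f2.toFinset, ?_⟩
  intro g hg
  obtain ⟨j, hj⟩ := hn g hg
  refine ⟨j, W.h ^ (-j) * g, ?_, by group⟩
  have hmem : W.h ^ (-j) * g ∈ Ei W.h := (Ei W.h).mul_mem (zpow_mem_Ei W.h (-j)) hg
  obtain ⟨n, hn1, hcase⟩ := mem_Ei.1 hmem
  rw [Finset.mem_union, Set.Finite.mem_toFinset, Set.Finite.mem_toFinset]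
  rcases hcase with h | h
  · left
    refine ⟨hj, n, hn1, ?_⟩
    rw [h, one_mul, zpow_natCast]
  · right
    refine ⟨hj, n, hn1, ?_⟩
    rw [h, neg_one_mul, zpow_neg, zpow_natCast]

end HW

end Pool.Agent.H79.HG
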