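import Pool.Agent.H79.HG.Fellow

/-!
# Module WPD [H79 HG]: consequences of the condition WPD

PROOF (II.3). `ε₁` from `fellow ε`, `N` from `wpd (2 ε₁)`, `U` the finite set, `w = U.ncard` (or the
card of `toFinset`), `D = N + w + 1`, `M = w !` (factorial, `≥ 1`). Let `m ≥ D`, `s = sg m'`,
`b j = (h^j)⁻¹ g h^(s j)` for `j : ℕ`, so `len (b j) ≤ ε₁` for `j ≤ m`. Put `u j = b j * (b 0)⁻¹`,
`b 0 = g`. `len (u j) ≤ 2ε₁`. `(h^N)⁻¹ (b j) h^(s N) = b (j + N)` and `(b N)⁻¹ = (h^(s N))⁻¹ g⁻¹ h^N`, so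
`(h^N)⁻¹ (u j) h^N = (h^N)⁻¹ (b j) g⁻¹ h^N = (h^N)⁻¹ (b j) h^(s N) (b N)⁻¹ = b (j + N) (b N)⁻¹`, of
length `≤ 2 ε₁` for `j ≤ w` (`j + N ≤ m`). So `u j ∈ U` for `0 ≤ j ≤ w`: `w + 1` elements in a set of
`w` elements (`Finset.exists_ne_map_eq_of_card_lt_of_maps_to`): `u i = u j`, `i < j ≤ w`, `b i = b j`:
`(h^i)⁻¹ g h^(s i) = (h^j)⁻¹ g h^(s j)`, i.e. `g⁻¹ h^(j-i) g = h^(s (j-i))`. `n = j - i` satisfies
`1 ≤ n ≤ w`, so `n ∣ M` (`Nat.dvd_factorial`), `M = n k`: `g⁻¹ h^M g = (g⁻¹ h^n g)^k = h^(s n k)`.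
-/

set_option autoImplicit false

open scoped Classical

namespace Pool.Agent.H79.HG

namespace HW

variable {Γ : Type*} [Group Γ] (W : HW Γ)

theorem wpdM (ε : ℤ) : ∃ D M : ℕ, 1 ≤ M ∧ ∀ (g : Γ) (m : ℕ) (m' : ℤ), D ≤ m → W.len g ≤ ε →
    W.len ((W.h ^ m)⁻¹ * g * W.h ^ m') ≤ ε → g⁻¹ * W.h ^ M * g = W.h ^ (sg m' * M) := by
  obtain ⟨ε₁, hε⟩ := W.fellow ε
  obtain ⟨N, hN⟩ := W.wpd (2 * ε₁)
  set w := hN.toFinset.card with hw
  refine ⟨N + w + 1, w.factorial, Nat.factorial_pos w, ?_⟩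
  intro g m m' hm h1 h2
  have hb := hε g m m' h1 h2
  have hg : W.len g ≤ ε₁ := by
    have := hb 0 (Nat.zero_le _)
    simpa using this
  have hu : ∀ j ∈ Finset.range (w + 1),
      (W.h ^ j)⁻¹ * g * W.h ^ (sg m' * j) * g⁻¹ ∈ hN.toFinset := by
    intro j hj
    rw [Finset.mem_range] at hj
    rw [Set.Finite.mem_toFinset]
    constructor
    · have h3 := W.len_mul ((W.h ^ j)⁻¹ * g * W.h ^ (sg m' * j)) g⁻¹
      have h4 := hb j (by omega)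
      rw [W.len_inv] at h3
      omega
    · have e : (W.h ^ N)⁻¹ * ((W.h ^ j)⁻¹ * g * W.h ^ (sg m' * j) * g⁻¹) * W.h ^ N =
          ((W.h ^ (j + N))⁻¹ * g * W.h ^ (sg m' * ((j + N : ℕ) : ℤ))) *
            ((W.h ^ N)⁻¹ * g * W.h ^ (sg m' * (N : ℤ)))⁻¹ := by
        have e1 : (W.h ^ (j + N))⁻¹ = (W.h ^ N)⁻¹ * (W.h ^ j)⁻¹ := by
          rw [pow_add, mul_inv_rev]
        have e2 : W.h ^ (sg m' * ((j + N : ℕ) : ℤ)) =
            W.h ^ (sg m' * (j : ℤ)) * W.h ^ (sg m' * (N : ℤ)) := by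
          rw [← zpow_add]
          push_cast
          ring_nf
        rw [e1, e2]
        group
      rw [e]
      have h3 := W.len_mul ((W.h ^ (j + N))⁻¹ * g * W.h ^ (sg m' * ((j + N : ℕ) : ℤ)))
        ((W.h ^ N)⁻¹ * g * W.h ^ (sg m' * (N : ℤ)))⁻¹
      rw [W.len_inv] at h3
      have h4 := hb (j + N) (by omega)
      have h5 := hb N (by omega)
      omega
  obtain ⟨i, hi, j, hj, hij, he⟩ := Finset.exists_ne_map_eq_of_card_lt_of_maps_to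
    (s := Finset.range (w + 1)) (t := hN.toFinset)
    (f := fun j : ℕ => (W.h ^ j)⁻¹ * g * W.h ^ (sg m' * j) * g⁻¹)
    (by rw [Finset.card_range]; omega) hu
  have main : ∀ i j : ℕ, i < j → j ≤ w →
      (W.h ^ i)⁻¹ * g * W.h ^ (sg m' * (i : ℤ)) * g⁻¹ =
        (W.h ^ j)⁻¹ * g * W.h ^ (sg m' * (j : ℤ)) * g⁻¹ →
      g⁻¹ * W.h ^ w.factorial * g = W.h ^ (sg m' * (w.factorial : ℕ)) := by
    intro i j hij hjw he
    have e1 : (W.h ^ i)⁻¹ * g * W.h ^ (sg m' * (i : ℤ)) =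
        (W.h ^ j)⁻¹ * g * W.h ^ (sg m' * (j : ℤ)) := mul_right_cancel he
    have e2 : g⁻¹ * W.h ^ (j - i) * g = W.h ^ (sg m' * ((j - i : ℕ) : ℤ)) := by
      have e3 : W.h ^ (j - i) = W.h ^ j * (W.h ^ i)⁻¹ := by
        rw [eq_mul_inv_iff_mul_eq, ← pow_add, Nat.sub_add_cancel hij.le]
      have e4 : W.h ^ (sg m' * ((j - i : ℕ) : ℤ)) =
          W.h ^ (sg m' * (j : ℤ)) * (W.h ^ (sg m' * (i : ℤ)))⁻¹ := by
        rw [← zpow_neg, ← zpow_add]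
        congr 1
        push_cast [Nat.cast_sub hij.le]
        ring
      have e5 : g * W.h ^ (sg m' * (j : ℤ)) =
          W.h ^ j * ((W.h ^ i)⁻¹ * g * W.h ^ (sg m' * (i : ℤ))) := by
        rw [e1]
        group
      rw [e3, e4, eq_mul_inv_iff_mul_eq]
      calc g⁻¹ * (W.h ^ j * (W.h ^ i)⁻¹) * g * W.h ^ (sg m' * (i : ℤ))
          = g⁻¹ * (W.h ^ j * ((W.h ^ i)⁻¹ * g * W.h ^ (sg m' * (i : ℤ)))) := by
            simp only [mul_assoc]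
        _ = g⁻¹ * (g * W.h ^ (sg m' * (j : ℤ))) := by rw [e5]
        _ = W.h ^ (sg m' * (j : ℤ)) := by group
    obtain ⟨k, hk⟩ := Nat.dvd_factorial (by omega : 0 < j - i) (by omega : j - i ≤ w)
    have e6 : g⁻¹ * W.h ^ w.factorial * g = (g⁻¹ * W.h ^ (j - i) * g) ^ k := by
      rw [hk, pow_mul]
      have := conj_pow (a := g⁻¹) (b := W.h ^ (j - i)) (i := k)
      rw [inv_inv] at this
      exact this.symm
    rw [e6, e2, ← zpow_natCast, ← zpow_mul, hk]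
    congr 1
    push_cast
    ring
  rw [Finset.mem_range] at hi hj
  rcases lt_or_gt_of_ne hij with h3 | h3
  · exact main i j h3 (by omega) he
  · exact main j i h3 (by omega) he.symm

theorem fellow_Ei (ε : ℤ) : ∃ D : ℕ, ∀ (g : Γ) (m : ℕ) (m' : ℤ), D ≤ m → W.len g ≤ ε →
    W.len ((W.h ^ m)⁻¹ * g * W.h ^ m') ≤ ε → g ∈ Ei W.h := by
  obtain ⟨D, M, hM, h⟩ := W.wpdM ε
  refine ⟨D, fun g m m' h1 h2 h3 => ⟨M, hM, ?_⟩⟩
  have h4 := h g m m' h1 h2 h3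
  rcases sg_cases m' with h5 | h5
  · left
    rw [h4, h5, one_mul, zpow_natCast]
  · right
    rw [h4, h5, neg_one_mul, zpow_neg, zpow_natCast]

end HW

end Pool.Agent.H79.HG
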