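import Pool.Agent.H79.HG.Words
import Pool.Agent.H79.HG.Wpd

/-!
# Module DEEP [H79 HG]: a point near two different axes

PROOF (II.11, last step). `ε = c + C` (`C = L.C`; `0 ≤ ε` may be assumed, otherwise `len_nonneg`),
`D` from `fellow_Ei ε`, `D₁ ≥ D`. Let `e = ±1`.
(1) `g₁ = (x i')⁻¹ u`, `len g₁ ≤ c + C`, `(h^D₁)⁻¹ g₁ h^(e D₁) = (x i' h^D₁)⁻¹ (u h^(e D₁))`, of length
`≤ c`: `g₁ ∈ Ei h` (`fellow_Ei` with `m = D₁`, `m' = e D₁`).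
(2) `g₂ = (x i)⁻¹ u`; `g₂' = h^D₁ g₂ h^(-e D₁) = (x i h^(-D₁))⁻¹ (u h^(-e D₁))`, `len g₂' ≤ c`, and
`(h^D₁)⁻¹ g₂' h^(e D₁) = g₂`, of length `≤ c + C`: `g₂' ∈ Ei h`, so `g₂ ∈ Ei h` (`zpow_mem_Ei`).
So `(x i)⁻¹ x i' = g₂ g₁⁻¹ ∈ Ei h`, against `sep`.
-/

set_option autoImplicit false

open scoped Classical

namespace Pool.Agent.H79.HG

namespace LD

variable {Γ : Type*} [Group Γ] (L : LD Γ)

theorem deep (c : ℤ) : ∃ D : ℕ, ∀ D₁ : ℕ, D ≤ D₁ → ∀ (i i' : Fin L.q) (u : Γ) (e : ℤ), i ≠ i' →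
    (e = 1 ∨ e = -1) → L.W.len u ≤ c →
    L.W.len ((L.x i' * L.W.h ^ D₁)⁻¹ * (u * L.W.h ^ (e * D₁))) ≤ c →
    L.W.len ((L.x i * (L.W.h ^ D₁)⁻¹)⁻¹ * (u * L.W.h ^ (-(e * D₁)))) ≤ c → False := by
  obtain ⟨D, hD⟩ := L.W.fellow_Ei (c + L.C)
  have hC0 := L.hC0
  refine ⟨D, ?_⟩
  intro D₁ hD₁ i i' u e hii _ hu h1 h2
  have hCi := L.hC i
  have hCi' := L.hC i'
  have g1 : (L.x i')⁻¹ * u ∈ Ei L.W.h := by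
    refine hD _ D₁ (e * D₁) hD₁ ?_ ?_
    · have k1 := L.W.len_mul (L.x i')⁻¹ u
      rw [L.W.len_inv] at k1
      omega
    · have e1 : (L.W.h ^ D₁)⁻¹ * ((L.x i')⁻¹ * u) * L.W.h ^ (e * (D₁ : ℤ)) =
          (L.x i' * L.W.h ^ D₁)⁻¹ * (u * L.W.h ^ (e * (D₁ : ℤ))) := by group
      rw [e1]
      omega
  have g2 : L.W.h ^ D₁ * ((L.x i)⁻¹ * u) * L.W.h ^ (-(e * (D₁ : ℤ))) ∈ Ei L.W.h := by
    refine hD _ D₁ (e * D₁) hD₁ ?_ ?_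
    · have e1 : L.W.h ^ D₁ * ((L.x i)⁻¹ * u) * L.W.h ^ (-(e * (D₁ : ℤ))) =
          (L.x i * (L.W.h ^ D₁)⁻¹)⁻¹ * (u * L.W.h ^ (-(e * (D₁ : ℤ)))) := by group
      rw [e1]
      omega
    · have e1 : (L.W.h ^ D₁)⁻¹ * (L.W.h ^ D₁ * ((L.x i)⁻¹ * u) * L.W.h ^ (-(e * (D₁ : ℤ)))) *
          L.W.h ^ (e * (D₁ : ℤ)) = (L.x i)⁻¹ * u := by
        rw [zpow_neg]
        simp only [mul_assoc, inv_mul_cancel_left, inv_mul_cancel, mul_one]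
      rw [e1]
      have k1 := L.W.len_mul (L.x i)⁻¹ u
      rw [L.W.len_inv] at k1
      omega
  have g3 : (L.x i)⁻¹ * u ∈ Ei L.W.h := by
    have k1 := (Ei L.W.h).mul_mem ((Ei L.W.h).mul_mem ((Ei L.W.h).inv_mem
      ((Ei L.W.h).pow_mem (h_mem_Ei L.W.h) D₁)) g2) (zpow_mem_Ei L.W.h (e * D₁))
    have e1 : (L.W.h ^ D₁)⁻¹ * (L.W.h ^ D₁ * ((L.x i)⁻¹ * u) * L.W.h ^ (-(e * (D₁ : ℤ)))) *
        L.W.h ^ (e * (D₁ : ℤ)) = (L.x i)⁻¹ * u := by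
      rw [zpow_neg]
      simp only [mul_assoc, inv_mul_cancel_left, inv_mul_cancel, mul_one]
    rw [e1] at k1
    exact k1
  refine L.sep i i' hii ?_
  have e1 : (L.x i)⁻¹ * L.x i' = (L.x i)⁻¹ * u * ((L.x i')⁻¹ * u)⁻¹ := by group
  rw [e1]
  exact (Ei L.W.h).mul_mem g3 ((Ei L.W.h).inv_mem g1)

end LD

end Pool.Agent.H79.HG
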