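import Pool.Agent.H79.HT.Defs

/-!
# Module DEFS [H79 HG]: hyperbolic length functions with a loxodromic WPD element

Everything in this file is complete.  `HW` is a length function (integer valued) on a group whose
doubled Gromov product `p` satisfies the four point inequality with the error `d`, with an element
`h` whose powers form a quasi-line (`qline`), are unbounded (`grow`) and which satisfies the
condition `WPD`.  `ds x y = len (x⁻¹ y)` is the left-invariant distance, `Bt c x y z` says that `y`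
is `c`-between `x` and `z`.  `Ei h` is the group of all `g` which normalise some `⟨h ^ n⟩`, `n ≥ 1`.
-/

set_option autoImplicit false

open scoped Classical

namespace Pool.Agent.H79.HG

open HT (gp)

/-- `1` for `m ≥ 0` and `-1` for `m < 0`. -/
def sg (m : ℤ) : ℤ := if 0 ≤ m then 1 else -1

/-- The group of all `g` with `g⁻¹ h ^ n g = h ^ n` or `h ^ (-n)` for some `n ≥ 1`. -/
def Ei {Γ : Type*} [Group Γ] (h : Γ) : Subgroup Γ where
  carrier := {g | ∃ n : ℕ, 1 ≤ n ∧ (g⁻¹ * h ^ n * g = h ^ n ∨ g⁻¹ * h ^ n * g = (h ^ n)⁻¹)}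
  mul_mem' := by
    rintro a b ⟨n, hn, ha⟩ ⟨m, hm, hb⟩
    have ha' : a⁻¹ * h ^ (n * m) * a = h ^ (n * m) ∨
        a⁻¹ * h ^ (n * m) * a = (h ^ (n * m))⁻¹ := by
      have e : a⁻¹ * h ^ (n * m) * a = (a⁻¹ * h ^ n * a) ^ m := by
        rw [pow_mul]
        have := conj_pow (a := a⁻¹) (b := h ^ n) (i := m)
        rw [inv_inv] at this
        exact this.symm
      rw [e]
      rcases ha with h1 | h1
      · left
        rw [h1, ← pow_mul]
      · right
        rw [h1, inv_pow, ← pow_mul]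
    have hb' : b⁻¹ * h ^ (n * m) * b = h ^ (n * m) ∨
        b⁻¹ * h ^ (n * m) * b = (h ^ (n * m))⁻¹ := by
      have e : b⁻¹ * h ^ (n * m) * b = (b⁻¹ * h ^ m * b) ^ n := by
        rw [mul_comm n m, pow_mul]
        have := conj_pow (a := b⁻¹) (b := h ^ m) (i := n)
        rw [inv_inv] at this
        exact this.symm
      rw [e]
      rcases hb with h1 | h1
      · left
        rw [h1, ← pow_mul, mul_comm]
      · right
        rw [h1, inv_pow, ← pow_mul, mul_comm]
    refine ⟨n * m, Nat.mul_pos hn hm, ?_⟩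
    have e : (a * b)⁻¹ * h ^ (n * m) * (a * b) = b⁻¹ * (a⁻¹ * h ^ (n * m) * a) * b := by group
    rw [e]
    have hi : b⁻¹ * (h ^ (n * m))⁻¹ * b = (b⁻¹ * h ^ (n * m) * b)⁻¹ := by group
    rcases ha' with h1 | h1 <;> rw [h1]
    · exact hb'
    · rw [hi]
      rcases hb' with h2 | h2 <;> rw [h2]
      · exact Or.inr rfl
      · exact Or.inl (inv_inv _)
  one_mem' := ⟨1, le_refl _, Or.inl (by simp)⟩
  inv_mem' := by
    rintro a ⟨n, hn, ha⟩
    refine ⟨n, hn, ?_⟩
    rw [inv_inv]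
    rcases ha with h1 | h1
    · left
      have h2 : a * (a⁻¹ * h ^ n * a) * a⁻¹ = a * h ^ n * a⁻¹ := by rw [h1]
      rw [← h2]
      group
    · right
      have h2 : a * (a⁻¹ * h ^ n * a)⁻¹ * a⁻¹ = a * h ^ n * a⁻¹ := by rw [h1, inv_inv]
      rw [← h2]
      group

theorem mem_Ei {Γ : Type*} [Group Γ] {h g : Γ} : g ∈ Ei h ↔
    ∃ n : ℕ, 1 ≤ n ∧ (g⁻¹ * h ^ n * g = h ^ n ∨ g⁻¹ * h ^ n * g = (h ^ n)⁻¹) := Iff.rfl

theorem h_mem_Ei {Γ : Type*} [Group Γ] (h : Γ) : h ∈ Ei h :=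
  ⟨1, le_refl _, Or.inl (by simp)⟩

theorem zpow_mem_Ei {Γ : Type*} [Group Γ] (h : Γ) (j : ℤ) : h ^ j ∈ Ei h :=
  (Ei h).zpow_mem (h_mem_Ei h) j

/-- A hyperbolic length function with a loxodromic WPD element `h`. -/
structure HW (Γ : Type*) [Group Γ] where
  len : Γ → ℤ
  d : ℤ
  h : Γ
  Q : ℤ
  hd : 0 ≤ d
  hQ0 : 0 ≤ Q
  len_one : len 1 = 0
  len_inv : ∀ x, len x⁻¹ = len x
  len_mul : ∀ x y, len (x * y) ≤ len x + len y
  hyp : ∀ x y z, gp len x y ≤ gp len x z + d ∨ gp len y z ≤ gp len x z + d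
  qline : ∀ i j : ℕ, len (h ^ i) + len (h ^ j) ≤ len (h ^ (i + j)) + Q
  grow : ∀ B : ℤ, ∃ n₀ : ℕ, ∀ n : ℕ, n₀ ≤ n → B ≤ len (h ^ n)
  wpd : ∀ ε : ℤ, ∃ N : ℕ, {u : Γ | len u ≤ ε ∧ len ((h ^ N)⁻¹ * u * h ^ N) ≤ ε}.Finite

namespace HW

variable {Γ : Type*} [Group Γ] (W : HW Γ)

/-- Twice the Gromov product. -/
def p (x y : Γ) : ℤ := gp W.len x y

/-- The left-invariant distance. -/
def ds (x y : Γ) : ℤ := W.len (x⁻¹ * y)

/-- `y` is `c`-between `x` and `z`. -/
def Bt (c : ℤ) (x y z : Γ) : Prop := W.ds x y + W.ds y z ≤ W.ds x z + c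

theorem pe (x y : Γ) : W.ds x y = W.len x + W.len y - W.p x y := by
  unfold p ds gp
  ring

theorem len_nonneg (x : Γ) : 0 ≤ W.len x := by
  have h := W.len_mul x x⁻¹
  rw [mul_inv_cancel, W.len_one, W.len_inv] at h
  omega

theorem ds_nonneg (x y : Γ) : 0 ≤ W.ds x y := W.len_nonneg _

theorem ds_comm (x y : Γ) : W.ds x y = W.ds y x := by
  unfold ds
  rw [← W.len_inv (x⁻¹ * y)]
  congr 1
  group

theorem ds_self (x : Γ) : W.ds x x = 0 := by
  unfold ds
  rw [inv_mul_cancel, W.len_one]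

theorem ds_one (x : Γ) : W.ds 1 x = W.len x := by
  unfold ds
  rw [inv_one, one_mul]

theorem ds_mul_left (g x y : Γ) : W.ds (g * x) (g * y) = W.ds x y := by
  unfold ds
  congr 1
  group

theorem ds_mul_right (x a : Γ) : W.ds x (x * a) = W.len a := by
  unfold ds
  rw [inv_mul_cancel_left]

theorem ds_tri (x y z : Γ) : W.ds x z ≤ W.ds x y + W.ds y z := by
  unfold ds
  have h := W.len_mul (x⁻¹ * y) (y⁻¹ * z)
  have e : x⁻¹ * y * (y⁻¹ * z) = x⁻¹ * z := by group
  rwa [e] at h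

theorem p_comm (x y : Γ) : W.p x y = W.p y x := by
  have h1 := W.pe x y
  have h2 := W.pe y x
  have h3 := W.ds_comm x y
  omega

theorem p_nonneg (x y : Γ) : 0 ≤ W.p x y := by
  have h1 := W.pe x y
  have h2 := W.ds_tri x 1 y
  rw [W.ds_comm x 1, W.ds_one, W.ds_one] at h2
  omega

theorem p_le_left (x y : Γ) : W.p x y ≤ 2 * W.len x := by
  have h1 := W.pe x y
  have h2 := W.ds_tri 1 x y
  rw [W.ds_one, W.ds_one] at h2
  omega

theorem p_le_right (x y : Γ) : W.p x y ≤ 2 * W.len y := by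
  rw [W.p_comm]
  exact W.p_le_left y x

theorem p_self (x : Γ) : W.p x x = 2 * W.len x := by
  have h1 := W.pe x x
  rw [W.ds_self] at h1
  omega

theorem p_one_left (y : Γ) : W.p 1 y = 0 := by
  have h1 := W.pe 1 y
  rw [W.ds_one, W.len_one] at h1
  omega

theorem p_hyp {m : ℤ} {x y z : Γ} (h1 : m ≤ W.p x y) (h2 : m ≤ W.p y z) :
    m ≤ W.p x z + W.d := by
  rcases W.hyp x y z with h | h
  · exact h1.trans h
  · exact h2.trans h

/-- Changing the arguments of `p` by bounded amounts. -/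
theorem p_near (x x' y : Γ) : W.p x y ≤ W.p x' y + 2 * W.ds x x' := by
  have h1 := W.pe x y
  have h2 := W.pe x' y
  have h3 := W.ds_tri 1 x' x
  have h4 := W.ds_tri x' x y
  rw [W.ds_one, W.ds_one, W.ds_comm x' x] at h3
  rw [W.ds_comm x' x] at h4
  omega

/-- The four point inequality for the distance. -/
theorem four (x y z w : Γ) :
    W.ds x z + W.ds y w ≤ W.ds x y + W.ds z w + W.d ∨
      W.ds x z + W.ds y w ≤ W.ds x w + W.ds y z + W.d := by
  have key : ∀ a b : Γ, W.p (y⁻¹ * a) (y⁻¹ * b) = W.ds y a + W.ds y b - W.ds a b := by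
    intro a b
    have h1 := W.pe (y⁻¹ * a) (y⁻¹ * b)
    rw [W.ds_mul_left] at h1
    show W.p (y⁻¹ * a) (y⁻¹ * b) = W.len (y⁻¹ * a) + W.len (y⁻¹ * b) - W.ds a b
    omega
  have h := W.hyp (y⁻¹ * x) (y⁻¹ * w) (y⁻¹ * z)
  change W.p _ _ ≤ W.p _ _ + W.d ∨ W.p _ _ ≤ W.p _ _ + W.d at h
  rw [key, key, key] at h
  have h1 := W.ds_comm y x
  have h2 := W.ds_comm w z
  rcases h with h | h
  · right
    omega
  · left
    omega

theorem Bt.symm {W : HW Γ} {c : ℤ} {x y z : Γ} (h : W.Bt c x y z) : W.Bt c z y x := by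
  unfold Bt at h ⊢
  rw [W.ds_comm z y, W.ds_comm y x, W.ds_comm z x]
  omega

theorem Bt.mono {W : HW Γ} {c c' : ℤ} {x y z : Γ} (h : W.Bt c x y z) (hc : c ≤ c') :
    W.Bt c' x y z := by
  unfold Bt at h ⊢
  omega

theorem Bt.mul {W : HW Γ} {c : ℤ} {x y z : Γ} (h : W.Bt c x y z) (g : Γ) :
    W.Bt c (g * x) (g * y) (g * z) := by
  unfold Bt at h ⊢
  rw [W.ds_mul_left, W.ds_mul_left, W.ds_mul_left]
  exact h

/-- (L1) two points between `x` and `z` at about the same distance from `x` are close. -/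
theorem near {c e : ℤ} {x y y' z : Γ} (h : W.Bt c x y z) (h' : W.Bt c x y' z)
    (h1 : W.ds x y ≤ W.ds x y' + e) (h2 : W.ds x y' ≤ W.ds x y + e) :
    W.ds y y' ≤ e + c + W.d := by
  unfold Bt at h h'
  have h3 := W.ds_comm z y'
  have h4 := W.ds_comm y' z
  rcases W.four x y z y' with h5 | h5 <;> omega

/-- The same without a bound: the distance of the two points is at most the difference. -/
theorem near' {c : ℤ} {x y y' z : Γ} (h : W.Bt c x y z) (h' : W.Bt c x y' z) :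
    W.ds y y' ≤ W.ds x y - W.ds x y' + c + W.d ∨ W.ds y y' ≤ W.ds x y' - W.ds x y + c + W.d := by
  unfold Bt at h h'
  have h3 := W.ds_comm z y'
  rcases W.four x y z y' with h5 | h5 <;> omega

/-- (L7) a point between two points between `x` and `z` is between `x` and `z`. -/
theorem between {c c' : ℤ} {x y y' z w : Γ} (h : W.Bt c x y z) (h' : W.Bt c x y' z)
    (hw : W.Bt c' y w y') : W.Bt (2 * c + c' + W.d) x w z := by
  have h1 := W.ds_tri x y w
  have h2 := W.ds_tri x y' w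
  have h3 := W.ds_tri w y z
  have h4 := W.ds_tri w y' z
  have h5 := W.ds_comm w y
  have h6 := W.ds_comm w y'
  have h7 := W.ds_comm y' y
  rcases W.near' h h' with h8 | h8 <;> unfold Bt at h h' hw ⊢ <;> omega

end HW

end Pool.Agent.H79.HG
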