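import Pool.Agent.H79.HG.Fam

/-!
# Module FW [H79 HG]: explicit families of words with different exponents and equal sums

`ex n k a j`, `a < n`, `j < 2k`: for even `j` it is `2nk + (a k + j/2)`, for odd `j` it is
`4nk - (a k + j/2)`. The word `Fw n k M a` has the letters `j mod q` and the exponents `M * ex n k a j`.
PROOFS. `a k + j/2 < n k`. `ex_inj`: even values are in `[2nk, 3nk)`, odd values in `(3nk, 4nk]`; within one
parity `a k + j/2` determines `a` and `j/2 < k` (Euclidean division: `Nat.div`/`Nat.mod` of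
`a * k + j / 2` by `k`). `ex_sum`: the pair `2i, 2i+1` contributes `6nk` (induction on the number of
pairs, or `Finset.sum_range`), in all `6 n k²`.
`fam_Fw`: `gd`: exponents are `≥ M * (2nk) ≥ M ≥ n₀`; the letters `j mod q` and `(j+1) mod q` differ as
`q ≥ 2` (`List.isChain_iff_getElem`, `List.getElem_ofFn`). `gap`: multiples `M e`, `M e'` with `e < e'`
differ by at least `M`. `inj`: cancel `M`, `ex_inj`. `cover`: the residues of `j, ..., j + q - 1` are all
residues: take `k = j + ((i + q - j % q) % q)`. `div` clear.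
-/

set_option autoImplicit false

open scoped Classical

namespace Pool.Agent.H79.HG

/-- The exponents. -/
def ex (n k a j : ℕ) : ℕ := if j % 2 = 0 then 2 * n * k + (a * k + j / 2)
  else 4 * n * k - (a * k + j / 2)

private theorem lt_nk {n k a j : ℕ} (ha : a < n) (hj : j < 2 * k) : a * k + j / 2 < n * k := by
  have h1 : (a + 1) * k ≤ n * k := Nat.mul_le_mul_right k ha
  rw [add_mul, one_mul] at h1
  omega

theorem ex_inj {n k a b j j' : ℕ} (ha : a < n) (hb : b < n) (hj : j < 2 * k) (hj' : j' < 2 * k)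
    (h : ex n k a j = ex n k b j') : a = b ∧ j = j' := by
  have h1 := lt_nk ha hj
  have h2 := lt_nk hb hj'
  unfold ex at h
  rw [mul_assoc 2 n k, mul_assoc 4 n k] at h
  have key : a * k + j / 2 = b * k + j' / 2 → a = b ∧ j / 2 = j' / 2 := by
    intro h3
    have hk : 0 < k := by omega
    have h4 : j / 2 < k := by omega
    have h5 : j' / 2 < k := by omega
    have h6 : (a * k + j / 2) / k = a := by
      rw [add_comm, Nat.add_mul_div_right _ _ hk, Nat.div_eq_of_lt h4, zero_add]
    have h7 : (b * k + j' / 2) / k = b := by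
      rw [add_comm, Nat.add_mul_div_right _ _ hk, Nat.div_eq_of_lt h5, zero_add]
    have h8 : a = b := by rw [← h6, ← h7, h3]
    subst h8
    exact ⟨rfl, by omega⟩
  split_ifs at h with c1 c2 c2
  · obtain ⟨h3, h4⟩ := key (by omega)
    exact ⟨h3, by omega⟩
  · omega
  · omega
  · obtain ⟨h3, h4⟩ := key (by omega)
    exact ⟨h3, by omega⟩

theorem ex_bounds {n k a j : ℕ} (ha : a < n) (hj : j < 2 * k) :
    2 * n * k ≤ ex n k a j ∧ ex n k a j ≤ 4 * n * k := by
  have h1 := lt_nk ha hj
  unfold ex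
  rw [mul_assoc 2 n k, mul_assoc 4 n k]
  split_ifs with c1
  · omega
  · omega

theorem ex_sum {n k a : ℕ} (ha : a < n) :
    ∑ j ∈ Finset.range (2 * k), ex n k a j = 6 * n * k ^ 2 := by
  have key : ∀ m, m ≤ k → ∑ j ∈ Finset.range (2 * m), ex n k a j = 6 * (n * k) * m := by
    intro m
    induction m with
    | zero => intro _; simp
    | succ m ih =>
      intro hm
      have h1 := ih (by omega)
      have h2 : a * k + m < n * k := by
        have := lt_nk (k := k) (j := 2 * m) ha (by omega)
        have e : 2 * m / 2 = m := by omega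
        rwa [e] at this
      have e1 : ex n k a (2 * m) = 2 * (n * k) + (a * k + m) := by
        unfold ex
        rw [if_pos (by omega), mul_assoc 2 n k]
        congr 2
        omega
      have e2 : ex n k a (2 * m + 1) = 4 * (n * k) - (a * k + m) := by
        unfold ex
        rw [if_neg (by omega), mul_assoc 4 n k]
        congr 2
        omega
      have e3 : 2 * (m + 1) = 2 * m + 1 + 1 := by ring
      rw [e3, Finset.sum_range_succ, Finset.sum_range_succ, h1, e1, e2]
      have e4 : 6 * (n * k) * (m + 1) = 6 * (n * k) * m + 6 * (n * k) := by ring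
      rw [e4]
      omega
  rw [key k (le_refl _)]
  ring

namespace LD

variable {Γ : Type*} [Group Γ] (L : LD Γ)

/-- The words. -/
def Fw (n k M : ℕ) (a : Fin n) : List (Fin L.q × ℕ) :=
  List.ofFn (fun j : Fin (2 * k) =>
    ((⟨(j : ℕ) % L.q, Nat.mod_lt _ (by have := L.hq; omega)⟩ : Fin L.q), M * ex n k a j))

theorem length_Fw (n k M : ℕ) (a : Fin n) : (L.Fw n k M a).length = 2 * k := by
  unfold Fw
  rw [List.length_ofFn]

private theorem mem_Fw {n k M : ℕ} {a : Fin n} {x : Fin L.q × ℕ} (h : x ∈ L.Fw n k M a) :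
    ∃ j : ℕ, j < 2 * k ∧ x.2 = M * ex n k a j := by
  unfold Fw at h
  rw [List.mem_ofFn] at h
  obtain ⟨j, rfl⟩ := h
  exact ⟨j, j.2, rfl⟩

private theorem get_Fw {n k M : ℕ} {a : Fin n} {j : ℕ} (h : j < (L.Fw n k M a).length) :
    (L.Fw n k M a)[j] = ((⟨j % L.q, Nat.mod_lt _ (by have := L.hq; omega)⟩ : Fin L.q),
      M * ex n k a j) :=
  List.getElem_ofFn h

theorem Fw_le {n k M : ℕ} (a : Fin n) : ∀ x ∈ L.Fw n k M a, x.2 ≤ M * (4 * n * k) := by
  intro x hx
  obtain ⟨j, hj, h⟩ := L.mem_Fw hx
  rw [h]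
  exact Nat.mul_le_mul_left M (ex_bounds a.2 hj).2

theorem Fw_sum {n k M : ℕ} (a : Fin n) :
    ((L.Fw n k M a).map Prod.snd).sum = M * (6 * n * k ^ 2) := by
  unfold Fw
  rw [List.map_ofFn, List.sum_ofFn]
  simp only [Function.comp_apply]
  rw [← Finset.mul_sum, Fin.sum_univ_eq_sum_range (fun j => ex n k a j) (2 * k), ex_sum a.2]

theorem fam_Fw {n₀ n k M : ℕ} (hn : 1 ≤ n) (hk : 1 ≤ k) (hM : 1 ≤ M) (h : n₀ ≤ M) :
    L.Fam n₀ M (L.Fw n k M) := by
  have hq := L.hq
  have h1 : 1 ≤ 2 * n * k := by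
    have : 0 < 2 * n * k := by positivity
    exact this
  refine ⟨?_, ?_, ?_, ?_, ?_⟩
  · intro a
    refine ⟨?_, ?_⟩
    · intro x hx
      obtain ⟨j, hj, he⟩ := L.mem_Fw hx
      rw [he]
      have h2 := (ex_bounds a.2 hj).1
      have h3 : M * 1 ≤ M * ex n k a j := Nat.mul_le_mul_left M (h1.trans h2)
      omega
    · rw [List.isChain_iff_getElem]
      intro j hj
      rw [L.get_Fw, L.get_Fw]
      intro hc
      have h2 : j % L.q = (j + 1) % L.q := congrArg (fun z : Fin L.q => (z : ℕ)) hc
      have h3 := Nat.mod_lt j (show 0 < L.q by omega)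
      rw [Nat.add_mod, Nat.mod_eq_of_lt (show 1 < L.q by omega)] at h2
      rcases Nat.lt_or_ge (j % L.q + 1) L.q with h4 | h4
      · rw [Nat.mod_eq_of_lt h4] at h2
        omega
      · have h5 : j % L.q + 1 = L.q := by omega
        rw [h5, Nat.mod_self] at h2
        omega
  · intro a b x hx y hy
    obtain ⟨j, hj, he⟩ := L.mem_Fw hx
    obtain ⟨j', hj', he'⟩ := L.mem_Fw hy
    rw [he, he']
    rcases Nat.lt_trichotomy (ex n k a j) (ex n k b j') with h2 | h2 | h2
    · right
      left
      have := Nat.mul_le_mul_left M h2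
      rw [Nat.mul_succ] at this
      exact this
    · left
      rw [h2]
    · right
      right
      have := Nat.mul_le_mul_left M h2
      rw [Nat.mul_succ] at this
      exact this
  · intro a b j j' hj hj' he
    rw [L.get_Fw, L.get_Fw] at he
    have h2 : ex n k a j = ex n k b j' := Nat.eq_of_mul_eq_mul_left (by omega) he
    rw [L.length_Fw] at hj hj'
    obtain ⟨h3, h4⟩ := ex_inj a.2 b.2 hj hj' h2
    exact ⟨Fin.ext h3, h4⟩
  · intro a j hj i
    have hi := i.2
    have hm := Nat.mod_lt j (show 0 < L.q by omega)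
    have ht := Nat.mod_lt ((i : ℕ) + L.q - j % L.q) (show 0 < L.q by omega)
    refine ⟨j + ((i : ℕ) + L.q - j % L.q) % L.q, by omega, by omega, by omega, ?_⟩
    rw [L.get_Fw]
    apply Fin.ext
    show (j + ((i : ℕ) + L.q - j % L.q) % L.q) % L.q = i
    rw [Nat.add_mod_mod]
    have e : j + ((i : ℕ) + L.q - j % L.q) = i + L.q * (j / L.q + 1) := by
      have := Nat.div_add_mod j L.q
      rw [mul_add, mul_one]
      omega
    rw [e, Nat.add_mul_mod_self_left, Nat.mod_eq_of_lt hi]
  · intro a x hx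
    obtain ⟨j, hj, he⟩ := L.mem_Fw hx
    rw [he]
    exact Dvd.intro _ rfl

end LD

end Pool.Agent.H79.HG
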