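import Pool.Agent.H79.HG.Vert

/-!
# Module LENV [H79 HG]: the length of a word in terms of the sum of its exponents

PROOF. `n₀` from `vert`. `T = len (h^M)`. For `e : ℕ`: `len (h^(M e)) ≤ e T` (induction, `pow_mul`,
`len_mul`) and `e T ≤ len (h^(M e)) + e Q` (induction, `qline (M e) M`). Induction on the list from the
right (`List.reverseRecOn`, with the statement for all `S`; good words are closed under taking
prefixes, `Gd.left`): for `l = u ++ [(i, m)]`, `m = M e`, `S = S' + e`:
`len (val l) ≤ len (val u) + len (w i m)`, `len (val l) = len (val u) + len (w i m) - p (val u)⁻¹ (w i m)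
≥ len (val u) + len (w i m) - B2` (`val_append`, `val_singleton`, `vert`, `pe` with `(val u)⁻¹`), and
`|len (w i m) - len (h^m)| ≤ 2C` (`len_w`).
-/

set_option autoImplicit false

open scoped Classical

namespace Pool.Agent.H79.HG

namespace LD

variable {Γ : Type*} [Group Γ] (L : LD Γ)

private theorem lenV_pow (M e : ℕ) : L.W.len (L.W.h ^ (M * e)) ≤ e * L.W.len (L.W.h ^ M) ∧
    e * L.W.len (L.W.h ^ M) ≤ L.W.len (L.W.h ^ (M * e)) + e * L.W.Q := by
  induction e with
  | zero =>
    rw [mul_zero, pow_zero, L.W.len_one]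
    simp
  | succ e ih =>
    have h1 := L.W.len_mul (L.W.h ^ (M * e)) (L.W.h ^ M)
    have h2 := L.W.qline (M * e) M
    rw [← pow_add] at h1
    rw [mul_add, mul_one]
    push_cast
    rw [add_mul, add_mul, one_mul, one_mul]
    constructor
    · omega
    · omega

theorem len_val_sum : ∃ n₀ : ℕ, ∀ (M : ℕ) (l : List (Fin L.q × ℕ)) (S : ℕ), 1 ≤ M →
    L.Gd n₀ l → (∀ x ∈ l, M ∣ x.2) → (l.map Prod.snd).sum = M * S →
    L.W.len (L.val l) ≤ S * L.W.len (L.W.h ^ M) + 2 * L.C * l.length ∧
      S * L.W.len (L.W.h ^ M) ≤ L.W.len (L.val l) + S * L.W.Q +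
        (2 * L.C + L.B2) * l.length := by
  obtain ⟨n₀, hv⟩ := L.vert
  refine ⟨n₀, fun M l => ?_⟩
  induction l using List.reverseRecOn with
  | nil =>
    intro S hM _ _ hs
    have hS : S = 0 := by
      rw [List.map_nil, List.sum_nil] at hs
      rcases Nat.mul_eq_zero.1 hs.symm with h | h
      · omega
      · exact h
    subst hS
    rw [L.val_nil, L.W.len_one]
    simp
  | append_singleton u a ih =>
    intro S hM hg hd hs
    obtain ⟨i, m⟩ := a
    obtain ⟨e, he⟩ := hd (i, m) (List.mem_append_right _ (List.mem_singleton.2 rfl))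
    have he' : m = M * e := he
    rw [List.map_append, List.sum_append] at hs
    have hs' : (u.map Prod.snd).sum + M * e = M * S := by
      rw [← he']
      simpa using hs
    have hle : e ≤ S := by
      have h1 : M * e ≤ M * S := by omega
      exact Nat.le_of_mul_le_mul_left h1 hM
    obtain ⟨S', rfl⟩ := Nat.exists_eq_add_of_le hle
    have hsu : (u.map Prod.snd).sum = M * S' := by
      rw [mul_add] at hs'
      omega
    obtain ⟨h1, h2⟩ := ih S' hM hg.left (fun x hx => hd x (List.mem_append_left _ hx)) hsu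
    obtain ⟨h3, h4⟩ := L.lenV_pow M e
    obtain ⟨h5, h6⟩ := L.len_w i m
    have h7 := hv u [(i, m)] hg
    rw [L.val_singleton] at h7
    have h8 := L.W.pe (L.val u)⁻¹ (L.w i m)
    have h9 := L.W.p_nonneg (L.val u)⁻¹ (L.w i m)
    rw [L.W.len_inv] at h8
    unfold HW.ds at h8
    rw [inv_inv] at h8
    rw [L.val_append, L.val_singleton, List.length_append, List.length_singleton]
    rw [← he'] at h3 h4
    have h7' : L.W.p (L.val u)⁻¹ (L.w i m) ≤ L.B2 := h7
    push_cast
    rw [add_mul, mul_add, mul_add, add_mul, mul_one, mul_one]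
    constructor
    · show L.W.len (L.val u * L.w i m) ≤ _
      omega
    · show _ ≤ L.W.len (L.val u * L.w i m) + _ + _
      omega

end LD

end Pool.Agent.H79.HG
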