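import Pool.Agent.H79.HG.SC
import Pool.Agent.H79.HG.LenV
import Pool.Agent.H79.HG.Fw

/-!
# Module EXTH [H79 HG]: the set `Th` of the tile theorem

PROOF (II.13). `n₀, M₀, M₁` from `sc_fam`, `n₁` from `len_val_sum`. `q = L.q`, `k = 2000 * (q + 6)`,
`P = 2 n k` (as integers; `n ≥ 1`). `Z = 2 (B2 + 2d + 1) + |R| + d + 1 + 4 C (q + 5) + 6nk² Q +
(4C + B2) 2k` and choose (`grow`) `M` a multiple of `M₁ * M₂`, `M ≥ max (n₀, n₁, M₀, 1)`, such that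
`T = len (h^M)` satisfies `T ≥ 1001 * Z` (take `M = M₁ * M₂ * m` with `m` large).
`F = Fw n k M`, `Fam n₀' M F` for `n₀' = max n₀ n₁` (`fam_Fw`), `Λ = 2 P T + 2 C`: for `x ∈ F a`, `x.2 = M e`,
`e ≤ 4nk = 2P`, `len (w x) ≤ len (h^(M e)) + 2C ≤ e T + 2C` (`len_w`; `len (h^(M e)) ≤ e T` by induction as
in LENV; state a small lemma). `S = 6nk²` (`Fw_sum`): `len (val (F a))` is between
`Lm := S T - S Q - (2C + B2) 2k` and `S T + 4 C k`. `κ := 2Λ(q+5) + Z`. Then `R ≤ κ`, `1 ≤ κ`, `d ≤ κ`,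
`S T + 4Ck ≤ Lm + κ` and `1000 κ ≤ Lm`: `1000 κ = 4000 P T (q+5) + 4000 C (q+5) + 1000 Z` and
`Lm ≥ S T - Z = 3 k P T - Z = 6000 (q+6) P T - Z`, so it is enough that `2000 (q + 6) P T ≥
4000 C (q+5) + 1001 Z`; `4000 C (q+5) ≤ 1000 Z` and `2000 (q+6) P T ≥ 12000 T`.
`Th = Finset.univ.image (fun a : Fin n => val (F a))`, injective by the last part of `sc_fam`, so
`Th.card = n`. `val_mem`: `w i m = x i (h^M₂)^e (x i)⁻¹` is in the normal closure of `h^M₂`.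
-/

set_option autoImplicit false

open scoped Classical

namespace Pool.Agent.H79.HG

namespace LD

variable {Γ : Type*} [Group Γ] (L : LD Γ)

/-- Products of blocks whose exponents are multiples of `M` are in the normal closure of `h ^ M`. -/
theorem val_mem (M : ℕ) (l : List (Fin L.q × ℕ)) (hl : ∀ x ∈ l, M ∣ x.2) :
    L.val l ∈ Subgroup.normalClosure {L.W.h ^ M} := by
  induction l with
  | nil =>
    rw [val_nil]
    exact Subgroup.one_mem _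
  | cons a l ih =>
    rw [val_cons]
    refine Subgroup.mul_mem _ ?_ (ih fun x hx => hl x (List.mem_cons_of_mem _ hx))
    obtain ⟨e, he⟩ := hl a List.mem_cons_self
    unfold w
    refine Subgroup.normalClosure_normal.conj_mem _ ?_ _
    rw [he, pow_mul]
    exact Subgroup.pow_mem _ (Subgroup.subset_normalClosure (Set.mem_singleton _)) _

private theorem exTh_pow (M e : ℕ) :
    L.W.len (L.W.h ^ (M * e)) ≤ e * L.W.len (L.W.h ^ M) := by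
  induction e with
  | zero =>
    rw [mul_zero, pow_zero, L.W.len_one]
    simp
  | succ e ih =>
    have h1 := L.W.len_mul (L.W.h ^ (M * e)) (L.W.h ^ M)
    rw [← pow_add] at h1
    rw [mul_add, mul_one]
    push_cast
    rw [add_mul, one_mul]
    omega

private theorem exTh_num {q k n S : ℕ} {C B2 d Q R T PT Z κ Lm : ℤ} (hk : k = 2000 * (q + 6))
    (hn : 1 ≤ n) (hS : S = 6 * n * k ^ 2) (hC : 0 ≤ C) (hB2 : 0 ≤ B2) (hd : 0 ≤ d) (hQ : 0 ≤ Q)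
    (hPT : PT = 2 * n * k * T)
    (hZ : Z = 2 * (B2 + 2 * d + 1) + |R| + d + 1 + 4 * C * (q + 5) + S * Q +
      (4 * C + B2) * (2 * k))
    (hT : 1001 * Z ≤ T) (hκ : κ = 2 * (2 * PT + 2 * C) * (q + 5) + Z)
    (hLm : Lm = S * T - S * Q - (2 * C + B2) * (2 * k)) :
    R ≤ κ ∧ 1 ≤ κ ∧ d ≤ κ ∧ 1000 * κ ≤ Lm ∧ S * T + 2 * C * (2 * k : ℕ) ≤ Lm + κ ∧
      0 ≤ 2 * PT + 2 * C ∧ 2 * (2 * PT + 2 * C) * (q + 5) + 2 * (B2 + 2 * d + 1) ≤ κ := by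
  have hR := abs_nonneg R
  have hR' := le_abs_self R
  have x1 : 0 ≤ C * (q + 5) := mul_nonneg hC (by positivity)
  have x2 : 0 ≤ (S : ℤ) * Q := by positivity
  have x3 : 0 ≤ (4 * C + B2) * (2 * k) := by positivity
  have x4 : 0 ≤ 2 * C * (2 * k) := by positivity
  have x5 : (4 * C + B2) * (2 * (k : ℤ)) = (2 * C + B2) * (2 * k) + 2 * C * (2 * k) := by ring
  have hZ0 : 0 ≤ Z := by rw [hZ]; positivity
  have hT0 : 0 ≤ T := by linarith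
  have hnz : (1 : ℤ) ≤ n := by exact_mod_cast hn
  have hkz : (k : ℤ) = 2000 * (q + 6) := by rw [hk]; push_cast; ring
  have hq0 : (0 : ℤ) ≤ q := by positivity
  have hPT1 : T ≤ PT := by
    rw [hPT]
    have h1 : (1 : ℤ) ≤ 2 * n * k := by
      rw [hkz]
      nlinarith
    nlinarith
  have hPT0 : 0 ≤ PT := hT0.trans hPT1
  have hST : (S : ℤ) * T = 6000 * (PT * (q + 6)) := by
    rw [hS, hPT]
    push_cast
    rw [hkz]
    ring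
  have y1 : PT * (q + 6) = PT * (q + 5) + PT := by ring
  have y2 : 0 ≤ PT * (q + 5) := mul_nonneg hPT0 (by positivity)
  have hκ' : κ = 4 * (PT * (q + 5)) + 4 * (C * (q + 5)) + Z := by rw [hκ]; ring
  have hZ' : Z = 2 * (B2 + 2 * d + 1) + |R| + d + 1 + 4 * (C * (q + 5)) + S * Q +
      (4 * C + B2) * (2 * k) := by rw [hZ]; ring
  refine ⟨by linarith, by linarith, by linarith, ?_, ?_, by linarith, ?_⟩
  · rw [hLm, hST, y1, hκ']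
    have z1 : (2 * C + B2) * (2 * (k : ℤ)) + S * Q + 4 * (C * (q + 5)) ≤ Z := by linarith
    linarith
  · rw [hLm]
    push_cast
    linarith
  · rw [hκ]
    linarith

theorem exists_Th (R : ℤ) (n : ℕ) (hn : 1 ≤ n) (M₂ : ℕ) (hM₂ : 1 ≤ M₂) :
    ∃ (κ Lm : ℤ) (Th : Finset Γ), R ≤ κ ∧ 1 ≤ κ ∧
    L.W.d ≤ κ ∧ 1000 * κ ≤ Lm ∧ n ≤ Th.card ∧
    (∀ t ∈ Th, Lm ≤ L.W.len t ∧ L.W.len t ≤ Lm + κ) ∧
    (∀ t ∈ Th, t ∈ Subgroup.normalClosure {L.W.h ^ M₂}) ∧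
    (∀ g, ∀ t ∈ Th, ∀ s ∈ Th, (g ∈ L.K → s ≠ t) →
      L.W.p (g * t) s ≤ L.W.p g s + κ ∧ L.W.p g s ≤ L.W.p (g * t) s + κ) ∧
    (∀ g, ∀ t ∈ Th, ∀ s ∈ Th, (s * g ∈ L.K → s ≠ t) →
      L.W.p (g * t) s⁻¹ ≤ L.W.p g s⁻¹ + κ ∧ L.W.p g s⁻¹ ≤ L.W.p (g * t) s⁻¹ + κ) := by
  obtain ⟨n₀, M₀, M₁, hM₁, hsc⟩ := L.sc_fam
  obtain ⟨n₁, hlen⟩ := L.len_val_sum
  obtain ⟨k, hk⟩ : ∃ k : ℕ, k = 2000 * (L.q + 6) := ⟨_, rfl⟩
  obtain ⟨S, hS⟩ : ∃ S : ℕ, S = 6 * n * k ^ 2 := ⟨_, rfl⟩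
  obtain ⟨Z, hZ⟩ : ∃ Z : ℤ, Z = 2 * (L.B2 + 2 * L.W.d + 1) + |R| + L.W.d + 1 +
      4 * L.C * (L.q + 5) + S * L.W.Q + (4 * L.C + L.B2) * (2 * k) := ⟨_, rfl⟩
  obtain ⟨n₂, hn₂⟩ := L.W.grow (1001 * Z)
  obtain ⟨M, hM⟩ : ∃ M : ℕ, M = M₁ * M₂ * (n₀ + n₁ + M₀ + n₂ + 1) := ⟨_, rfl⟩
  have hMge : n₀ + n₁ + M₀ + n₂ + 1 ≤ M := by
    rw [hM]
    exact Nat.le_mul_of_pos_left _ (Nat.mul_pos hM₁ hM₂)
  have hM1 : M₁ ∣ M := by
    rw [hM, mul_assoc]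
    exact dvd_mul_right _ _
  have hM2 : M₂ ∣ M := by
    rw [hM, mul_comm M₁ M₂, mul_assoc]
    exact dvd_mul_right _ _
  obtain ⟨T, hT⟩ : ∃ T : ℤ, T = L.W.len (L.W.h ^ M) := ⟨_, rfl⟩
  have hTZ : 1001 * Z ≤ T := by
    rw [hT]
    exact hn₂ M (by omega)
  obtain ⟨PT, hPT⟩ : ∃ PT : ℤ, PT = 2 * n * k * T := ⟨_, rfl⟩
  obtain ⟨κ, hκ⟩ : ∃ κ : ℤ, κ = 2 * (2 * PT + 2 * L.C) * (L.q + 5) + Z := ⟨_, rfl⟩
  obtain ⟨Lm, hLm⟩ : ∃ Lm : ℤ, Lm = S * T - S * L.W.Q - (2 * L.C + L.B2) * (2 * k) := ⟨_, rfl⟩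
  obtain ⟨c1, c2, c3, c4, c5, c6, c7⟩ := exTh_num hk hn hS L.hC0 L.B2_nonneg L.W.hd L.W.hQ0 hPT hZ
    hTZ hκ hLm
  have hk1 : 1 ≤ k := by omega
  have hfam : L.Fam (max n₀ n₁) M (L.Fw n k M) := L.fam_Fw hn hk1 (by omega) (by omega)
  have hT0 : 0 ≤ T := by
    rw [hT]
    exact L.W.len_nonneg _
  have hΛ : ∀ a, ∀ x ∈ L.Fw n k M a, L.W.len (L.w x.1 x.2) ≤ 2 * PT + 2 * L.C := by
    intro a x hx
    obtain ⟨e, he⟩ := hfam.div a x hx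
    have h1 := L.Fw_le a x hx
    rw [he] at h1
    have h2 : e ≤ 4 * n * k := Nat.le_of_mul_le_mul_left h1 (by omega)
    have h3 := (L.len_w x.1 x.2).1
    have h4 := L.exTh_pow M e
    rw [← he, ← hT] at h4
    have h5 : (e : ℤ) * T ≤ 2 * PT := by
      rw [hPT]
      have h6 : (e : ℤ) ≤ 4 * n * k := by exact_mod_cast h2
      calc (e : ℤ) * T ≤ 4 * n * k * T := mul_le_mul_of_nonneg_right h6 hT0
        _ = 2 * (2 * n * k * T) := by ring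
    linarith
  obtain ⟨s1, s2, s3⟩ := hsc (max n₀ n₁) M (Fin n) (L.Fw n k M) (le_max_left _ _) (by omega) hM1
    hfam (fun a => by rw [L.length_Fw]; omega) (2 * PT + 2 * L.C) κ hΛ c6 c7
  refine ⟨κ, Lm, Finset.univ.image (fun a : Fin n => L.val (L.Fw n k M a)), c1, c2, c3, c4, ?_, ?_,
    ?_, ?_, ?_⟩
  · rw [Finset.card_image_of_injective _ fun a b hab => s3 a b hab, Finset.card_univ,
      Fintype.card_fin]
  · intro t ht
    obtain ⟨a, -, rfl⟩ := Finset.mem_image.1 ht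
    have h1 := hlen M (L.Fw n k M a) S (by omega) ((hfam.gd a).mono (le_max_right _ _))
      (hfam.div a) (by rw [L.Fw_sum, hS])
    rw [L.length_Fw, ← hT] at h1
    obtain ⟨h2, h3⟩ := h1
    constructor
    · rw [hLm]
      push_cast at h3
      linarith
    · linarith
  · intro t ht
    obtain ⟨a, -, rfl⟩ := Finset.mem_image.1 ht
    exact L.val_mem M₂ _ fun x hx => hM2.trans (hfam.div a x hx)
  · intro g t ht s hs hg
    obtain ⟨b, -, rfl⟩ := Finset.mem_image.1 ht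
    obtain ⟨a, -, rfl⟩ := Finset.mem_image.1 hs
    exact s1 a b g fun hK hab => hg hK (by rw [hab])
  · intro g t ht s hs hg
    obtain ⟨b, -, rfl⟩ := Finset.mem_image.1 ht
    obtain ⟨a, -, rfl⟩ := Finset.mem_image.1 hs
    exact s2 a b g fun hK hab => hg hK (by rw [hab])

end LD

end Pool.Agent.H79.HG
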