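import Pool.Agent.H79.HG.MatchV

/-!
# Module FAM [H79 HG]: families of words with different exponents

PROOFS. `same_block`: `M₀` from `grow (2 C₂ + 4 C + Q + 1)`. In both cases
`|ds s_j s_(j+1) - ds (V k) (V (k+1))| ≤ 2 C₂`, i.e. (`take_step`, `ds_mul_right`, `ds_mul_left`)
`|len (w x) - len (w y)| ≤ 2 C₂` for `x = (F a)[j]`, `y = (F b)[k]`, so by `len_w`
`|len (h ^ x.2) - len (h ^ y.2)| ≤ 2 C₂ + 4 C`. If `x.2 + M ≤ y.2`: `len_sub` gives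
`len (h ^ y.2) ≥ len (h ^ x.2) + len (h ^ (y.2 - x.2)) - Q ≥ len (h ^ x.2) + 2 C₂ + 4 C + 1`, contradiction;
the same if `y.2 + M ≤ x.2`. So `x.2 = y.2` and `inj` applies.
`commute`: `D, M₁` from `wpdM (c + 2 C)`, `n₀ = D`. `b' = (x i)⁻¹ b (x i)`, `len b' ≤ c + 2C`,
`(h^m)⁻¹ b' h^m = (x i)⁻¹ ((w i m)⁻¹ b (w i m)) (x i)`, of length `≤ c + 2C`; `wpdM` with `m' = m`
(`sg m = 1`): `b'⁻¹ h^M₁ b' = h^M₁`. So `b' ∈ Ei h` and `b'` commutes with `h^M₁`, hence with `h^m`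
(`m = M₁ t`); so `w i m = x i h^m (x i)⁻¹` commutes with `b = x i b' (x i)⁻¹`.
-/

set_option autoImplicit false

open scoped Classical

namespace Pool.Agent.H79.HG

namespace LD

variable {Γ : Type*} [Group Γ] (L : LD Γ)

/-- A family of good words with different exponents. -/
structure Fam (n₀ M : ℕ) {ι : Type} (F : ι → List (Fin L.q × ℕ)) : Prop where
  gd : ∀ a, L.Gd n₀ (F a)
  gap : ∀ a b, ∀ x ∈ F a, ∀ y ∈ F b, x.2 = y.2 ∨ x.2 + M ≤ y.2 ∨ y.2 + M ≤ x.2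
  inj : ∀ a b (j k : ℕ) (hj : j < (F a).length) (hk : k < (F b).length),
    ((F a)[j]).2 = ((F b)[k]).2 → a = b ∧ j = k
  cover : ∀ a (j : ℕ), j + L.q ≤ (F a).length → ∀ i : Fin L.q,
    ∃ k, ∃ hk : k < (F a).length, j ≤ k ∧ k < j + L.q ∧ ((F a)[k]).1 = i
  div : ∀ a, ∀ x ∈ F a, M ∣ x.2

theorem same_block (C₂ : ℤ) : ∃ M₀ : ℕ, ∀ (n₀ M : ℕ) (ι : Type)
    (F : ι → List (Fin L.q × ℕ)), M₀ ≤ M → L.Fam n₀ M F → ∀ (a b : ι) (g : Γ) (j k : ℕ),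
    j + 1 ≤ (F a).length → k + 1 ≤ (F b).length →
    ((L.W.ds (L.val ((F a).take j)) (g * L.val ((F b).take k)) ≤ C₂ ∧
        L.W.ds (L.val ((F a).take (j + 1))) (g * L.val ((F b).take (k + 1))) ≤ C₂) ∨
      (L.W.ds (L.val ((F a).take j)) (g * L.val ((F b).take (k + 1))) ≤ C₂ ∧
        L.W.ds (L.val ((F a).take (j + 1))) (g * L.val ((F b).take k)) ≤ C₂)) →
    a = b ∧ j = k := by
  obtain ⟨K, hK, hC₂⟩ : ∃ K : ℤ, 0 ≤ K ∧ C₂ ≤ K := ⟨max C₂ 0, by omega, by omega⟩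
  obtain ⟨M₀, hM₀⟩ := L.W.grow (2 * K + 4 * L.C + L.W.Q + 1)
  refine ⟨M₀, ?_⟩
  intro n₀ M ι F hM hF a b g j k hj hk hor
  have hj' : j < (F a).length := by omega
  have hk' : k < (F b).length := by omega
  have s1 := L.take_step (F a) hj'
  have s2 := L.take_step (F b) hk'
  have e1 : L.W.ds (L.val ((F a).take j)) (L.val ((F a).take (j + 1))) =
      L.W.len (L.w ((F a)[j]).1 ((F a)[j]).2) := by
    rw [s1, L.W.ds_mul_right]
  have e2 : L.W.ds (g * L.val ((F b).take k)) (g * L.val ((F b).take (k + 1))) =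
      L.W.len (L.w ((F b)[k]).1 ((F b)[k]).2) := by
    rw [L.W.ds_mul_left, s2, L.W.ds_mul_right]
  have hcmp : L.W.len (L.w ((F a)[j]).1 ((F a)[j]).2) ≤ L.W.len (L.w ((F b)[k]).1 ((F b)[k]).2) + 2 * K ∧
      L.W.len (L.w ((F b)[k]).1 ((F b)[k]).2) ≤ L.W.len (L.w ((F a)[j]).1 ((F a)[j]).2) + 2 * K := by
    rw [← e1, ← e2]
    generalize L.val ((F a).take j) = p at hor ⊢
    generalize L.val ((F a).take (j + 1)) = p' at hor ⊢
    generalize g * L.val ((F b).take k) = z at hor ⊢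
    generalize g * L.val ((F b).take (k + 1)) = z' at hor ⊢
    have c0 := L.W.ds_comm z z'
    have c1 := L.W.ds_comm z p
    have c2 := L.W.ds_comm z' p'
    have c3 := L.W.ds_comm z p'
    have c4 := L.W.ds_comm z' p
    rcases hor with ⟨h1, h2⟩ | ⟨h1, h2⟩
    · have t1 := L.W.ds_tri p z p'
      have t2 := L.W.ds_tri z z' p'
      have t3 := L.W.ds_tri z p z'
      have t4 := L.W.ds_tri p p' z'
      constructor <;> omega
    · have t1 := L.W.ds_tri p z' p'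
      have t2 := L.W.ds_tri z' z p'
      have t3 := L.W.ds_tri z p' z'
      have t4 := L.W.ds_tri p' p z'
      have c5 := L.W.ds_comm p p'
      constructor <;> omega
  have w1 := L.len_w ((F a)[j]).1 ((F a)[j]).2
  have w2 := L.len_w ((F b)[k]).1 ((F b)[k]).2
  apply hF.inj a b j k hj' hk'
  rcases hF.gap a b _ (List.getElem_mem hj') _ (List.getElem_mem hk') with h1 | h1 | h1
  · exact h1
  · exfalso
    have h2 := L.W.len_sub (i := ((F a)[j]).2) (j := ((F b)[k]).2) (by omega)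
    have h3 := hM₀ (((F b)[k]).2 - ((F a)[j]).2) (by omega)
    omega
  · exfalso
    have h2 := L.W.len_sub (i := ((F b)[k]).2) (j := ((F a)[j]).2) (by omega)
    have h3 := hM₀ (((F a)[j]).2 - ((F b)[k]).2) (by omega)
    omega

theorem commute (c : ℤ) : ∃ n₀ M₁ : ℕ, 1 ≤ M₁ ∧ ∀ (i : Fin L.q) (m : ℕ) (b : Γ), n₀ ≤ m →
    M₁ ∣ m → L.W.len b ≤ c → L.W.len ((L.w i m)⁻¹ * b * L.w i m) ≤ c →
    (L.w i m)⁻¹ * b * L.w i m = b ∧ (L.x i)⁻¹ * b * L.x i ∈ Ei L.W.h := by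
  obtain ⟨D, M₁, hM₁, hw⟩ := L.W.wpdM (c + 2 * L.C)
  refine ⟨D, M₁, hM₁, ?_⟩
  intro i m b hm hdiv h1 h2
  have hCi := L.hC i
  have hC0 := L.hC0
  set b' := (L.x i)⁻¹ * b * L.x i with hb'
  have k1 : L.W.len b' ≤ c + 2 * L.C := by
    have t1 := L.W.len_mul ((L.x i)⁻¹ * b) (L.x i)
    have t2 := L.W.len_mul (L.x i)⁻¹ b
    rw [L.W.len_inv] at t2
    rw [← hb'] at t1
    omega
  have k2 : L.W.len ((L.W.h ^ m)⁻¹ * b' * L.W.h ^ (m : ℤ)) ≤ c + 2 * L.C := by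
    have e1 : (L.W.h ^ m)⁻¹ * b' * L.W.h ^ (m : ℤ) =
        (L.x i)⁻¹ * ((L.w i m)⁻¹ * b * L.w i m) * L.x i := by
      rw [hb', zpow_natCast]
      unfold w
      group
    rw [e1]
    have t1 := L.W.len_mul ((L.x i)⁻¹ * ((L.w i m)⁻¹ * b * L.w i m)) (L.x i)
    have t2 := L.W.len_mul (L.x i)⁻¹ ((L.w i m)⁻¹ * b * L.w i m)
    rw [L.W.len_inv] at t2
    omega
  have k3 := hw b' m m hm k1 k2
  have hsg : sg (m : ℤ) = 1 := if_pos (Int.natCast_nonneg m)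
  rw [hsg, one_mul, zpow_natCast] at k3
  have hcomm : L.W.h ^ M₁ * b' = b' * L.W.h ^ M₁ := by
    have e1 : b' * (b'⁻¹ * L.W.h ^ M₁ * b') = L.W.h ^ M₁ * b' := by group
    rw [← e1, k3]
  obtain ⟨t, rfl⟩ := hdiv
  have hcm : L.W.h ^ (M₁ * t) * b' = b' * L.W.h ^ (M₁ * t) := by
    rw [pow_mul]
    exact ((show Commute (L.W.h ^ M₁) b' from hcomm).pow_left t).eq
  refine ⟨?_, M₁, hM₁, Or.inl k3⟩
  have e2 : b = L.x i * b' * (L.x i)⁻¹ := by rw [hb']; group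
  have e3 : b * L.w i (M₁ * t) = L.w i (M₁ * t) * b := by
    have e4 : b * L.w i (M₁ * t) = L.x i * (b' * L.W.h ^ (M₁ * t)) * (L.x i)⁻¹ := by
      conv_lhs => rw [e2]
      unfold w
      group
    have e5 : L.w i (M₁ * t) * b = L.x i * (L.W.h ^ (M₁ * t) * b') * (L.x i)⁻¹ := by
      conv_lhs => rw [e2]
      unfold w
      group
    rw [e4, e5, hcm]
  rw [mul_assoc, e3, inv_mul_cancel_left]

end LD

end Pool.Agent.H79.HG
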