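import Pool.Agent.H79.HG.Line

/-!
# Module INVL [H79 HG]: a length function invariant under a finite normal subgroup

PROOF (II.6). `Ks = hK.toFinset` (nonempty, contains `1`), `len' g = Ks.inf' _ (fun k => len (k * g))`.
`Cm = Ks.sup' _ len`. `len g - Cm ≤ len' g ≤ len g` (`k = 1`; `len g ≤ len k⁻¹ + len (k g)`).
`len' (k g) = len' g` for `k ∈ K` (the values are the same, `k' ↦ k' k` is a bijection of `K`).
`len' g⁻¹ = len' g`: `len (k g⁻¹) = len (g k⁻¹) = len ((g k⁻¹ g⁻¹) g)` and `g k⁻¹ g⁻¹ ∈ K`.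
`len' (g g') ≤ len' g + len' g'`: if the minima are at `k, k'`: `(k g) (k' g') = (k (g k' g⁻¹)) (g g')`.
`len' 1 = 0`: `0 ≤ len' 1 ≤ len 1`. The product `p'` differs from `p` by at most `2 Cm`, so
`hyp` with `d' = d + 4 Cm`; `qline` with `Q' = Q + 2 Cm` (`len' (h^i) + len' (h^j) ≤ len (h^i) + len (h^j)
≤ len (h^(i+j)) + Q ≤ len' (h^(i+j)) + Cm + Q`); `grow B`: `n₀` for `B + Cm`; `wpd ε`: `N` for `ε + Cm`,
the set is contained in the old one.
-/

set_option autoImplicit false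

open scoped Classical

namespace Pool.Agent.H79.HG

namespace HW

variable {Γ : Type*} [Group Γ] (W : HW Γ)

theorem inv_len (K : Subgroup Γ) [K.Normal] (hK : (K : Set Γ).Finite) :
    ∃ W' : HW Γ, W'.h = W.h ∧ ∀ k ∈ K, ∀ x, W'.len (k * x) = W'.len x := by
  have hmem : ∀ k, k ∈ hK.toFinset ↔ k ∈ K := by
    intro k
    rw [Set.Finite.mem_toFinset]
    exact Iff.rfl
  have hne : hK.toFinset.Nonempty := ⟨1, (hmem 1).2 K.one_mem⟩
  obtain ⟨L, hLle, hLex⟩ : ∃ L : Γ → ℤ, (∀ g k, k ∈ K → L g ≤ W.len (k * g)) ∧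
      ∀ g, ∃ k ∈ K, L g = W.len (k * g) := by
    refine ⟨fun g => hK.toFinset.inf' hne (fun k => W.len (k * g)), ?_, ?_⟩
    · intro g k hk
      exact Finset.inf'_le _ ((hmem k).2 hk)
    · intro g
      obtain ⟨k, hk, e⟩ := Finset.exists_mem_eq_inf' hne (fun k => W.len (k * g))
      exact ⟨k, (hmem k).1 hk, e⟩
  obtain ⟨Cm, hCm⟩ : ∃ Cm : ℤ, ∀ k ∈ K, W.len k ≤ Cm :=
    ⟨hK.toFinset.sup' hne W.len, fun k hk => Finset.le_sup' W.len ((hmem k).2 hk)⟩
  have hC0 : 0 ≤ Cm := by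
    have := hCm 1 K.one_mem
    rwa [W.len_one] at this
  have hup : ∀ g, L g ≤ W.len g := by
    intro g
    have := hLle g 1 K.one_mem
    rwa [one_mul] at this
  have hlo : ∀ g, W.len g ≤ L g + Cm := by
    intro g
    obtain ⟨k, hk, e⟩ := hLex g
    have h1 := W.len_mul k⁻¹ (k * g)
    rw [inv_mul_cancel_left, W.len_inv, ← e] at h1
    have h2 := hCm k hk
    omega
  have h0 : ∀ g, 0 ≤ L g := by
    intro g
    obtain ⟨k, hk, e⟩ := hLex g
    rw [e]
    exact W.len_nonneg _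
  have hinvar : ∀ k ∈ K, ∀ x, L (k * x) = L x := by
    intro k hk x
    apply le_antisymm
    · obtain ⟨k', hk', e⟩ := hLex x
      have h1 := hLle (k * x) (k' * k⁻¹) (K.mul_mem hk' (K.inv_mem hk))
      have e1 : k' * k⁻¹ * (k * x) = k' * x := by group
      rw [e1] at h1
      rw [e]
      exact h1
    · obtain ⟨k', hk', e⟩ := hLex (k * x)
      have h1 := hLle x (k' * k) (K.mul_mem hk' hk)
      rw [mul_assoc] at h1
      rw [e]
      exact h1
  have hinv1 : ∀ x, L x⁻¹ ≤ L x := by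
    intro x
    obtain ⟨k, hk, e⟩ := hLex x
    have hk2 : x⁻¹ * k⁻¹ * x ∈ K := by
      have := (inferInstance : K.Normal).conj_mem k⁻¹ (K.inv_mem hk) x⁻¹
      rwa [inv_inv] at this
    have h1 := hLle x⁻¹ _ hk2
    have e1 : x⁻¹ * k⁻¹ * x * x⁻¹ = (k * x)⁻¹ := by group
    rw [e1, W.len_inv] at h1
    rw [e]
    exact h1
  have hmul : ∀ x y, L (x * y) ≤ L x + L y := by
    intro x y
    obtain ⟨k, hk, e⟩ := hLex x
    obtain ⟨k', hk', e'⟩ := hLex y
    have hk2 : k * (x * k' * x⁻¹) ∈ K :=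
      K.mul_mem hk ((inferInstance : K.Normal).conj_mem k' hk' x)
    have h1 := hLle (x * y) _ hk2
    have e1 : k * (x * k' * x⁻¹) * (x * y) = (k * x) * (k' * y) := by group
    rw [e1] at h1
    have h2 := W.len_mul (k * x) (k' * y)
    omega
  refine ⟨{ len := L, d := W.d + 3 * Cm, h := W.h, Q := W.Q + Cm, hd := ?_, hQ0 := ?_,
            len_one := ?_, len_inv := ?_, len_mul := hmul, hyp := ?_, qline := ?_, grow := ?_,
            wpd := ?_ }, rfl, hinvar⟩
  · have := W.hd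
    omega
  · have := W.hQ0
    omega
  · have h1 := hup 1
    rw [W.len_one] at h1
    exact le_antisymm h1 (h0 1)
  · intro x
    apply le_antisymm (hinv1 x)
    have := hinv1 x⁻¹
    rwa [inv_inv] at this
  · intro x y z
    have h1 := W.hyp x y z
    unfold HT.gp at h1 ⊢
    have a1 := hup x
    have a2 := hup y
    have a3 := hup z
    have b1 := hlo x
    have b2 := hlo y
    have b3 := hlo z
    have c1 := hup (x⁻¹ * y)
    have c2 := hup (y⁻¹ * z)
    have c3 := hup (x⁻¹ * z)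
    have d1 := hlo (x⁻¹ * y)
    have d2 := hlo (y⁻¹ * z)
    have d3 := hlo (x⁻¹ * z)
    rcases h1 with h1 | h1
    · left
      omega
    · right
      omega
  · intro i j
    have h1 := W.qline i j
    have h2 := hup (W.h ^ i)
    have h3 := hup (W.h ^ j)
    have h4 := hlo (W.h ^ (i + j))
    omega
  · intro B
    obtain ⟨n₀, hn⟩ := W.grow (B + Cm)
    refine ⟨n₀, fun n hn' => ?_⟩
    have h1 := hn n hn'
    have h2 := hlo (W.h ^ n)
    omega
  · intro ε
    obtain ⟨N, hN⟩ := W.wpd (ε + Cm)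
    refine ⟨N, hN.subset ?_⟩
    intro u hu
    rw [Set.mem_ofPred_eq] at hu ⊢
    obtain ⟨h1, h2⟩ := hu
    have h3 := hlo u
    have h4 := hlo ((W.h ^ N)⁻¹ * u * W.h ^ N)
    constructor <;> omega

end HW

end Pool.Agent.H79.HG
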