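import Pool.Agent.H79.HG.Line

/-!
# Module KCOM [H79 HG]: a power of `h` commutes with a finite normal subgroup

PROOF. The map `φ : k ↦ h k h⁻¹` is a permutation of the finite type `K` (`MulAut.conjNormal h`, an
element of the finite group `MulAut K`, or of `Equiv.Perm K`); it has finite order: `φ ^ M = 1` with
`M = orderOf φ ≥ 1` (`orderOf_pos`, finiteness of `Equiv.Perm K`). `φ ^ M` is conjugation by `h ^ M`
(`map_pow`), so `h^M k h^(-M) = k`. (Alternatively: for every `k ∈ K` the sequence `h^n k h^(-n)`, `n ∈ ℕ`,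
is in the finite set `K`, so `h^n k h^(-n) = k` for some `n ≥ 1` (pigeonhole, cancel), and one takes the
product of these `n` over the finite set `K`.)
-/

set_option autoImplicit false

open scoped Classical

namespace Pool.Agent.H79.HG

theorem exists_commute {Γ : Type*} [Group Γ] (h : Γ) (K : Subgroup Γ) [K.Normal]
    (hK : (K : Set Γ).Finite) : ∃ M : ℕ, 1 ≤ M ∧ ∀ k ∈ K, k * h ^ M = h ^ M * k := by
  have : Finite K := hK.to_subtype
  let φ : Equiv.Perm K := (MulAut.conjNormal h : MulAut K).toEquiv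
  have hφ : ∀ (n : ℕ) (k : K), (((φ ^ n) k : K) : Γ) = h ^ n * k * (h ^ n)⁻¹ := by
    intro n
    induction n with
    | zero =>
      intro k
      simp
    | succ n ih =>
      intro k
      rw [pow_succ', Equiv.Perm.mul_apply]
      have h1 : ((φ ((φ ^ n) k) : K) : Γ) = h * ((φ ^ n) k : K) * h⁻¹ :=
        MulAut.conjNormal_apply h _
      rw [h1, ih k]
      group
  refine ⟨orderOf φ, orderOf_pos φ, fun k hk => ?_⟩
  have h1 := hφ (orderOf φ) ⟨k, hk⟩
  rw [pow_orderOf_eq_one] at h1
  have h2 : k = h ^ orderOf φ * k * (h ^ orderOf φ)⁻¹ := h1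
  calc k * h ^ orderOf φ = (h ^ orderOf φ * k * (h ^ orderOf φ)⁻¹) * h ^ orderOf φ := by
        rw [← h2]
    _ = h ^ orderOf φ * k := by group

end Pool.Agent.H79.HG
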