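import Pool.Agent.H79.HG.Wpd

/-!
# Module OVERLAP [H79 HG]: the axes of `h` and `x h x⁻¹`, `x ∉ Ei h`, diverge

PROOF (II.7). `ε = 3 len h + 3 len x + Q + 2d` (lengths are `≥ 0`), `D` from `fellow_Ei ε`,
`B = 2 D len h + 2 len x + 2 len (h ^ D)` (at least this; take `B = 4 D len h + 2 len x`). Suppose
`p (h^m) (x h^m') > B`. `a = |m|`, `a' = |m'|`, `s = sg m`, `s' = sg m'`. `a ≥ D`: otherwise
`p ≤ 2 len (h^a) ≤ 2 D len h` (`p_le_left`, `len_zpow`, `len_pow_le`). `a' ≥ D`: otherwise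
`p ≤ 2 len (x h^m') ≤ 2 len x + 2 D len h`. Put `y = h^(s D)`, `y' = x h^(s' D)`, `R = len (h^D)`.
`p y (h^m) = len y + len (h^a) - len (h^(a-D)) ≥ 2 R - Q` (`len_sub`; `y⁻¹ h^m = h^(s (a - D))`).
`p y' (x h^m') = len y' + len (x h^m') - len (h^(a'-D)) ≥ (R - len x) + (len (h^a') - len x) -
len (h^(a'-D)) ≥ 2R - 2 len x - Q`. `B ≥ 2R`. `p_hyp` twice: `p y y' ≥ 2R - 2 len x - Q - 2d`. So
`ds y y' = len y + len y' - p y y' ≤ R + (R + len x) - (2R - 2 len x - Q - 2d) ≤ ε`. I.e.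
`len (h^(-s D) x h^(s' D)) ≤ ε`. If `s = 1`: `fellow_Ei` with `g = x`, `m = D`, `m' = s' D`: `x ∈ Ei h`.
If `s = -1`: `g' = h^D x h^(s' D)`, `len g' ≤ ε`, and `(h^D)⁻¹ g' h^(-s' D) = x`, `len x ≤ ε`: `g' ∈ Ei h`,
so `x ∈ Ei h` (`zpow_mem_Ei`). Contradiction.
-/

set_option autoImplicit false

open scoped Classical

namespace Pool.Agent.H79.HG

namespace HW

variable {Γ : Type*} [Group Γ] (W : HW Γ)

private theorem ds_pow {D : ℕ} {m : ℤ} (h : D ≤ m.natAbs) :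
    W.len ((W.h ^ (sg m * (D : ℤ)))⁻¹ * W.h ^ m) = W.len (W.h ^ (m.natAbs - D)) := by
  have e : (W.h ^ (sg m * (D : ℤ)))⁻¹ * W.h ^ m = W.h ^ (sg m * ((m.natAbs - D : ℕ) : ℤ)) := by
    conv_lhs => rw [← zpow_neg, ← zpow_add]
    congr 1
    have h1 := sg_mul_self m
    rw [Nat.cast_sub h, mul_sub, h1]
    ring
  rw [e, W.len_sg (sg_cases m)]

theorem overlap {x : Γ} (hx : x ∉ Ei W.h) :
    ∃ B : ℤ, ∀ m m' : ℤ, W.p (W.h ^ m) (x * W.h ^ m') ≤ B := by
  obtain ⟨D, hD⟩ := W.fellow_Ei (3 * W.len W.h + 3 * W.len x + W.Q + 2 * W.d)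
  refine ⟨4 * D * W.len W.h + 2 * W.len x, fun m m' => ?_⟩
  by_contra hcon
  push Not at hcon
  have hl := W.len_nonneg W.h
  have hX := W.len_nonneg x
  have hd := W.hd
  have hQ := W.hQ0
  have hR := W.len_pow_le D
  have hDl : 0 ≤ (D : ℤ) * W.len W.h := mul_nonneg (Int.natCast_nonneg D) hl
  have hR0 := W.len_nonneg (W.h ^ D)
  have hsmall : ∀ a : ℕ, a < D → W.len (W.h ^ a) ≤ D * W.len W.h := by
    intro a ha
    have h1 := W.len_pow_le a
    have h2 : (a : ℤ) * W.len W.h ≤ D * W.len W.h :=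
      mul_le_mul_of_nonneg_right (by exact_mod_cast ha.le) hl
    linarith
  have ha : D ≤ m.natAbs := by
    by_contra h
    push Not at h
    have h1 := W.p_le_left (W.h ^ m) (x * W.h ^ m')
    have h2 := hsmall _ h
    rw [W.len_zpow] at h1
    nlinarith
  have ha' : D ≤ m'.natAbs := by
    by_contra h
    push Not at h
    have h1 := W.p_le_right (W.h ^ m) (x * W.h ^ m')
    have h2 := hsmall _ h
    have h3 := W.len_mul x (W.h ^ m')
    rw [W.len_zpow] at h3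
    nlinarith
  set y := W.h ^ (sg m * (D : ℤ)) with hy
  set z := W.h ^ (sg m' * (D : ℤ)) with hz
  have hleny : W.len y = W.len (W.h ^ D) := W.len_sg (sg_cases m) D
  have hlenz : W.len z = W.len (W.h ^ D) := W.len_sg (sg_cases m') D
  have e1 : W.ds y (W.h ^ m) = W.len (W.h ^ (m.natAbs - D)) := W.ds_pow ha
  have e2 : W.ds (x * z) (x * W.h ^ m') = W.len (W.h ^ (m'.natAbs - D)) := by
    rw [W.ds_mul_left]
    exact W.ds_pow ha'
  have p1 := W.pe y (W.h ^ m)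
  have p2 := W.pe (x * z) (x * W.h ^ m')
  have p3 := W.pe y (x * z)
  have q1 := W.len_sub ha
  have q2 := W.len_sub ha'
  have r1 : W.len z ≤ W.len x + W.len (x * z) := by
    have h := W.len_mul x⁻¹ (x * z)
    rwa [inv_mul_cancel_left, W.len_inv] at h
  have r2 : W.len (W.h ^ m') ≤ W.len x + W.len (x * W.h ^ m') := by
    have h := W.len_mul x⁻¹ (x * W.h ^ m')
    rwa [inv_mul_cancel_left, W.len_inv] at h
  have r3 := W.len_mul x z
  have z1 := W.len_zpow m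
  have z2 := W.len_zpow m'
  have t1 : 2 * W.len (W.h ^ D) - 2 * W.len x - W.Q ≤ W.p y (W.h ^ m) := by linarith
  have t2 : 2 * W.len (W.h ^ D) - 2 * W.len x - W.Q ≤ W.p (x * z) (x * W.h ^ m') := by linarith
  have t3 : 2 * W.len (W.h ^ D) - 2 * W.len x - W.Q ≤ W.p (W.h ^ m) (x * W.h ^ m') := by nlinarith
  have t4 := W.p_hyp t1 t3
  rw [W.p_comm] at t2
  have t5 : 2 * W.len (W.h ^ D) - 2 * W.len x - W.Q - W.d ≤ W.p y (x * z) + W.d := by
    apply W.p_hyp (y := x * W.h ^ m')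
    · linarith
    · linarith
  have t6 : W.ds y (x * z) ≤ 3 * W.len W.h + 3 * W.len x + W.Q + 2 * W.d := by linarith
  have t7 : W.len (y⁻¹ * (x * z)) ≤ 3 * W.len W.h + 3 * W.len x + W.Q + 2 * W.d := t6
  have hxe : W.len x ≤ 3 * W.len W.h + 3 * W.len x + W.Q + 2 * W.d := by linarith
  rcases sg_cases m with hs | hs
  · apply hx
    refine hD x D (sg m' * (D : ℤ)) (le_refl _) hxe ?_
    rw [hy, hs, one_mul, zpow_natCast, ← mul_assoc] at t7
    exact t7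
  · apply hx
    have hyD : y⁻¹ = W.h ^ D := by
      rw [hy, hs, neg_one_mul, zpow_neg, inv_inv, zpow_natCast]
    have h1 : y⁻¹ * (x * z) ∈ Ei W.h := by
      refine hD (y⁻¹ * (x * z)) D (-(sg m' * (D : ℤ))) (le_refl _) t7 ?_
      have e : (W.h ^ D)⁻¹ * (y⁻¹ * (x * z)) * W.h ^ (-(sg m' * (D : ℤ))) = x := by
        rw [hyD, zpow_neg, ← hz]
        group
      rw [e]
      exact hxe
    have h2 : y ∈ Ei W.h := zpow_mem_Ei W.h _
    have h3 : z ∈ Ei W.h := zpow_mem_Ei W.h _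
    have e : x = y * (y⁻¹ * (x * z)) * z⁻¹ := by group
    rw [e]
    exact (Ei W.h).mul_mem ((Ei W.h).mul_mem h2 h1) ((Ei W.h).inv_mem h3)

end HW

end Pool.Agent.H79.HG
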