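import Pool.Agent.H79.HG.Line

/-!
# Module WORDS [H79 HG]: words in the elements `x i * h ^ m * (x i)⁻¹`

Everything in this file is complete.  A word is a list of pairs `(i, m)`, the block `w i m` is
`x i * h ^ m * (x i)⁻¹`.  `Gd n₀ l`: all exponents are at least `n₀` and consecutive letters are
different.
-/

set_option autoImplicit false

open scoped Classical

namespace Pool.Agent.H79.HG

/-- The separated conjugates, and the finite radical `K`. -/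
structure LD (Γ : Type*) [Group Γ] where
  W : HW Γ
  K : Subgroup Γ
  Kn : K.Normal
  MK : ℕ
  hMK : 1 ≤ MK
  hK1 : ∀ k ∈ K, k * W.h ^ MK = W.h ^ MK * k
  hK2 : ∀ k ∈ K, ∀ g, W.len (k * g) = W.len g
  q : ℕ
  hq : 2 ≤ q
  x : Fin q → Γ
  hK : ∀ g : Γ, (∀ i, (x i)⁻¹ * g * x i ∈ Ei W.h) → g ∈ K
  C : ℤ
  B : ℤ
  hC : ∀ i, W.len (x i) ≤ C
  hC0 : 0 ≤ C
  hB0 : 0 ≤ B
  sep : ∀ i j, i ≠ j → (x i)⁻¹ * x j ∉ Ei W.h
  hB : ∀ i j, i ≠ j → ∀ m m' : ℕ,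
    W.p (x i * W.h ^ m * (x i)⁻¹)⁻¹ (x j * W.h ^ m' * (x j)⁻¹) ≤ B

namespace LD

variable {Γ : Type*} [Group Γ] (L : LD Γ)

/-- The block. -/
def w (i : Fin L.q) (m : ℕ) : Γ := L.x i * L.W.h ^ m * (L.x i)⁻¹

/-- The value of a word. -/
def val (l : List (Fin L.q × ℕ)) : Γ := (l.map (fun a => L.w a.1 a.2)).prod

/-- A good word. -/
def Gd (n₀ : ℕ) (l : List (Fin L.q × ℕ)) : Prop :=
  (∀ a ∈ l, n₀ ≤ a.2) ∧ l.IsChain (fun a b => a.1 ≠ b.1)

/-- The constant for the vertices of words. -/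
def B2 : ℤ := L.B + 2 * L.W.d

/-- The constant for the points on the blocks of words. -/
def B3 : ℤ := L.W.Q + 4 * L.C + 2 * L.B2

theorem B2_nonneg : 0 ≤ L.B2 := by
  have h1 := L.hB0
  have h2 := L.W.hd
  unfold B2
  omega

@[simp] theorem val_nil : L.val [] = 1 := rfl

theorem val_append (u v : List (Fin L.q × ℕ)) : L.val (u ++ v) = L.val u * L.val v := by
  unfold val
  rw [List.map_append, List.prod_append]

theorem val_cons (a : Fin L.q × ℕ) (v : List (Fin L.q × ℕ)) :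
    L.val (a :: v) = L.w a.1 a.2 * L.val v := by
  unfold val
  rw [List.map_cons, List.prod_cons]

theorem val_singleton (a : Fin L.q × ℕ) : L.val [a] = L.w a.1 a.2 := by
  rw [val_cons, val_nil, mul_one]

theorem Gd.mono {L : LD Γ} {n₀ n₁ : ℕ} {l : List (Fin L.q × ℕ)} (h : L.Gd n₁ l)
    (hn : n₀ ≤ n₁) : L.Gd n₀ l :=
  ⟨fun a ha => hn.trans (h.1 a ha), h.2⟩

theorem Gd.left {L : LD Γ} {n₀ : ℕ} {u v : List (Fin L.q × ℕ)} (h : L.Gd n₀ (u ++ v)) :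
    L.Gd n₀ u :=
  ⟨fun a ha => h.1 a (List.mem_append_left _ ha), (List.isChain_append.1 h.2).1⟩

theorem Gd.right {L : LD Γ} {n₀ : ℕ} {u v : List (Fin L.q × ℕ)} (h : L.Gd n₀ (u ++ v)) :
    L.Gd n₀ v :=
  ⟨fun a ha => h.1 a (List.mem_append_right _ ha), (List.isChain_append.1 h.2).2.1⟩

theorem Gd.take {L : LD Γ} {n₀ : ℕ} {l : List (Fin L.q × ℕ)} (h : L.Gd n₀ l) (j : ℕ) :
    L.Gd n₀ (l.take j) := by
  rw [← List.take_append_drop j l] at h
  exact h.left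

theorem Gd.drop {L : LD Γ} {n₀ : ℕ} {l : List (Fin L.q × ℕ)} (h : L.Gd n₀ l) (j : ℕ) :
    L.Gd n₀ (l.drop j) := by
  rw [← List.take_append_drop j l] at h
  exact h.right

/-- The length of a block. -/
theorem len_w (i : Fin L.q) (m : ℕ) : L.W.len (L.w i m) ≤ L.W.len (L.W.h ^ m) + 2 * L.C ∧
    L.W.len (L.W.h ^ m) ≤ L.W.len (L.w i m) + 2 * L.C := by
  have h1 := L.W.len_mul (L.x i * L.W.h ^ m) (L.x i)⁻¹
  have h2 := L.W.len_mul (L.x i) (L.W.h ^ m)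
  have h3 := L.W.len_mul ((L.x i)⁻¹ * L.w i m) (L.x i)
  have h4 := L.W.len_mul (L.x i)⁻¹ (L.w i m)
  have h5 := L.hC i
  have e : (L.x i)⁻¹ * L.w i m * L.x i = L.W.h ^ m := by
    unfold w
    group
  rw [L.W.len_inv] at h1 h4
  rw [e] at h3
  change L.W.len (L.w i m) ≤ _ at h1
  constructor <;> omega

/-- Blocks with large exponents are long. -/
theorem w_large (Λ : ℤ) : ∃ n₀ : ℕ, ∀ i m, n₀ ≤ m → Λ ≤ L.W.len (L.w i m) := by
  obtain ⟨n₀, h⟩ := L.W.grow (Λ + 2 * L.C)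
  refine ⟨n₀, fun i m hm => ?_⟩
  have h1 := h m hm
  have h2 := L.len_w i m
  omega

end LD

end Pool.Agent.H79.HG
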