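import Pool.Agent.H79.HG.Core
import Pool.Agent.H79.HG.InvL
import Pool.Agent.H79.HG.KCom
import Pool.Agent.H79.HG.Overlap
import Pool.Agent.H79.HG.Words

/-!
# Module MKLD [H79 HG]: assembly of the data `LD`

PROOF. `K = (Ei h).normalCore`, finite (`core_finite`) and normal. `W'` from `inv_len`. `MK` from
`exists_commute`. `q`, `x` from `separators` (statements about `Ei h` only, `W'.h = W.h`).
`C = ∑ i, W'.len (x i)` (`≥ 0`, `Finset.single_le_sum`). For `i ≠ j` `W'.overlap (sep i j)` gives `B₀ i j`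
(choose; for `i = j` put `0`), `B = ∑ i, ∑ j, |B₀ i j| + 6 C`. `hB`: `p (x i a⁻¹ (x i)⁻¹) (x j b (x j)⁻¹) ≤
p (x i a⁻¹) (x j b) + 4 C` with `a = h^m`, `b = h^m'` (`p_near` twice with `ds (z (x i)⁻¹) z = len (x i)`,
`p_comm`), and `p (x i a⁻¹) (x j b) ≤ p a⁻¹ ((x i)⁻¹ x j b) + 2 C` (`pe`, `ds_mul_left`,
`len (x i a⁻¹) ≤ C + len a⁻¹`, `len (x j b) ≤ C + len ((x i)⁻¹ x j b)`), `≤ B₀ i j + 2 C`
(`a⁻¹ = h^(-m)`, `zpow`).
-/

set_option autoImplicit false

open scoped Classical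

namespace Pool.Agent.H79.HG

private theorem mk_p {Γ : Type*} [Group Γ] (W : HW Γ) {C B0 : ℤ} {u v a b : Γ}
    (hu : W.len u ≤ C) (hv : W.len v ≤ C) (h : W.p a (u⁻¹ * v * b) ≤ B0) :
    W.p (u * a * u⁻¹) (v * b * v⁻¹) ≤ B0 + 6 * C := by
  have hl : ∀ z w : Γ, W.ds (z * w⁻¹) z = W.len w := by
    intro z w
    unfold HW.ds
    congr 1
    group
  have n1 := W.p_near (u * a * u⁻¹) (u * a) (v * b * v⁻¹)
  have n2 := W.p_near (v * b * v⁻¹) (v * b) (u * a)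
  rw [hl] at n1 n2
  have c1 := W.p_comm (u * a) (v * b * v⁻¹)
  have c2 := W.p_comm (v * b) (u * a)
  have e1 := W.pe (u * a) (v * b)
  have e2 := W.pe a (u⁻¹ * v * b)
  have e3 : v * b = u * (u⁻¹ * v * b) := by group
  have e4 : W.ds (u * a) (v * b) = W.ds a (u⁻¹ * v * b) := by
    rw [e3, W.ds_mul_left]
  have l1 := W.len_mul u a
  have l2 : W.len (v * b) ≤ W.len u + W.len (u⁻¹ * v * b) := by
    have := W.len_mul u (u⁻¹ * v * b)
    rwa [← e3] at this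
  omega

theorem exists_LD' {Γ : Type*} [Group Γ] (W : HW Γ)
    (hv : ¬ (Subgroup.zpowers W.h).FiniteIndex) :
    ∃ L : LD Γ, L.W.h = W.h ∧ (L.K : Set Γ).Finite := by
  have hfin := W.core_finite hv
  obtain ⟨W', hW', hinv⟩ := W.inv_len (Ei W.h).normalCore hfin
  obtain ⟨MK, hMK, hcom⟩ := exists_commute W.h (Ei W.h).normalCore hfin
  obtain ⟨q, x, hq, hsep, hKx⟩ := W.separators hv
  have hCi : ∀ i, W'.len (x i) ≤ ∑ i, W'.len (x i) := fun i =>
    Finset.single_le_sum (f := fun i => W'.len (x i)) (fun j _ => W'.len_nonneg (x j))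
      (Finset.mem_univ i)
  have hC0 : 0 ≤ ∑ i, W'.len (x i) := Finset.sum_nonneg fun i _ => W'.len_nonneg _
  have hsep' : ∀ i j, i ≠ j → (x i)⁻¹ * x j ∉ Ei W'.h := by
    rw [hW']
    exact hsep
  have hB : ∀ i j, ∃ B0 : ℤ, i ≠ j →
      ∀ m m' : ℤ, W'.p (W'.h ^ m) ((x i)⁻¹ * x j * W'.h ^ m') ≤ B0 := by
    intro i j
    by_cases hij : i = j
    · exact ⟨0, fun h => absurd hij h⟩
    · obtain ⟨B0, h0⟩ := W'.overlap (hsep' i j hij)
      exact ⟨B0, fun _ => h0⟩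
  choose B0 hB0 using hB
  have hBij : ∀ i j, B0 i j ≤ ∑ i, ∑ j, |B0 i j| := by
    intro i j
    refine (le_abs_self _).trans ?_
    refine (Finset.single_le_sum (f := fun j => |B0 i j|) (fun j _ => abs_nonneg _)
      (Finset.mem_univ j)).trans ?_
    exact Finset.single_le_sum (f := fun i => ∑ j, |B0 i j|)
      (fun i _ => Finset.sum_nonneg fun j _ => abs_nonneg _) (Finset.mem_univ i)
  have hBn : 0 ≤ ∑ i, ∑ j, |B0 i j| :=
    Finset.sum_nonneg fun i _ => Finset.sum_nonneg fun j _ => abs_nonneg _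
  refine ⟨{
    W := W'
    K := (Ei W.h).normalCore
    Kn := inferInstance
    MK := MK
    hMK := hMK
    hK1 := ?_
    hK2 := hinv
    q := q
    hq := hq
    x := x
    hK := ?_
    C := ∑ i, W'.len (x i)
    B := (∑ i, ∑ j, |B0 i j|) + 6 * ∑ i, W'.len (x i)
    hC := hCi
    hC0 := hC0
    hB0 := by positivity
    sep := hsep'
    hB := ?_ }, hW', hfin⟩
  · rw [hW']
    exact hcom
  · rw [hW']
    exact hKx
  · intro i j hij m m'
    have e : (x i * W'.h ^ m * (x i)⁻¹)⁻¹ = x i * (W'.h ^ m)⁻¹ * (x i)⁻¹ := by group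
    rw [e]
    have h1 := hB0 i j hij (-m) m'
    rw [zpow_neg, zpow_natCast, zpow_natCast] at h1
    have h2 := mk_p W' (hCi i) (hCi j) h1
    have h3 := hBij i j
    omega

theorem exists_LD {Γ : Type*} [Group Γ] (W : HW Γ)
    (hv : ¬ (Subgroup.zpowers W.h).FiniteIndex) : Nonempty (LD Γ) := by
  obtain ⟨L, -, -⟩ := exists_LD' W hv
  exact ⟨L⟩

end Pool.Agent.H79.HG
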