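import Mathlib

/-!
# Module LIFT [H79 HG]: a lift of a power which commutes with the preimage of a finite group

PROOF. Let `N = π.ker`, `u = h ^ M`, `e = Nat.card K` (`≥ 1`, finite). `u` commutes with `N`. For `a : G` with
`π a ∈ K` put `c a = u a u⁻¹ a⁻¹`; `c a ∈ N` (`hKM`), `u a u⁻¹ = c a * a`.
(a) `c a` commutes with `N`: for `m ∈ N` put `m' = a⁻¹ m a ∈ N`, `m = a m' a⁻¹`;
`m = u m u⁻¹ = (u a u⁻¹) m' (u a u⁻¹)⁻¹ = c a * a m' a⁻¹ * (c a)⁻¹ = c a * m * (c a)⁻¹`.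
(b) `c (a m) = c a` for `m ∈ N`, so `c a` only depends on `π a`. (c) `c (a b) = c a * (a (c b) a⁻¹)`.
(d) Let `Z = {z ∈ N : z commutes with N}` (`π.ker ⊓ Subgroup.centralizer π.ker`), a commutative normal
subgroup of `G`; let `f : K → Z`, `f k = c (lift k)` (any lift). `z = ∏ k, f k`. For `a` with `π a = k₀ ∈ K`:
`z = ∏ k, f (k₀ k) = ∏ k, (c a * a (f k) a⁻¹) = (c a)^e * (a z a⁻¹)` (`MulAut.conjNormal a : MulAut Z`,
`map_prod`, `Finset.prod_mul_distrib`, `Fintype.prod_equiv (Equiv.mulLeft k₀)`). The commutative group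
structure on `Z`: e.g. `{ (inferInstance : Group Z) with mul_comm := ... }`; or use
`Finset.noncommProd`.
(e) `g = z⁻¹ * u ^ e`, `M₂ = M * e`: `π g = (π h)^(M e)` (`z ∈ N`). `u^e a u^(-e) = (c a)^e * a` (induction:
`u (c a) u⁻¹ = c a`), and `(c a)^e = z * (a z⁻¹ a⁻¹)` by (d), so `u^e a u^(-e) = z a z⁻¹ a⁻¹ a = z a z⁻¹`, i.e.
`z⁻¹ u^e a = a z⁻¹ u^e`.
-/

set_option autoImplicit false

open scoped Classical

namespace Pool.Agent.H79.HG

theorem exists_lift {G Γ : Type*} [Group G] [Group Γ] (π : G →* Γ) (hπ : Function.Surjective π)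
    (K : Subgroup Γ) [K.Normal] (hK : (K : Set Γ).Finite) (h : G)
    (hc : ∀ n ∈ π.ker, n * h = h * n) (M : ℕ) (hM : 1 ≤ M)
    (hKM : ∀ k ∈ K, k * (π h) ^ M = (π h) ^ M * k) :
    ∃ (M₂ : ℕ) (g : G), 1 ≤ M₂ ∧ π g = (π h) ^ M₂ ∧ ∀ a, π a ∈ K → a * g = g * a := by
  have : Finite K := hK.to_subtype
  obtain ⟨u, hu⟩ : ∃ u : G, u = h ^ M := ⟨_, rfl⟩
  have hcu : ∀ n ∈ π.ker, n * u = u * n := by
    intro n hn
    have h1 : Commute n h := hc n hn
    rw [hu]
    exact (h1.pow_right M).eq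
  -- the cocycle
  obtain ⟨c, hcd⟩ : ∃ c : G → G, c = fun a => u * a * u⁻¹ * a⁻¹ := ⟨_, rfl⟩
  have hca : ∀ a, u * a * u⁻¹ = c a * a := by
    intro a
    rw [hcd]
    group
  have hcN : ∀ a, π a ∈ K → c a ∈ π.ker := by
    intro a ha
    rw [MonoidHom.mem_ker, hcd]
    simp only [map_mul, map_inv]
    have h1 := hKM _ ha
    rw [hu, map_pow, ← h1]
    group
  have hcc : ∀ a, π a ∈ K → ∀ m ∈ π.ker, c a * m = m * c a := by
    intro a ha m hm
    have hm' : a⁻¹ * m * a ∈ π.ker := by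
      have := (MonoidHom.normal_ker π).conj_mem m hm a⁻¹
      rwa [inv_inv] at this
    have h1 := hcu _ hm'
    have h2 := hcu _ hm
    have h3 : u * m * u⁻¹ = m := by
      rw [← h2]
      group
    have h4 : u * m * u⁻¹ = (u * a * u⁻¹) * (u * (a⁻¹ * m * a) * u⁻¹) * (u * a * u⁻¹)⁻¹ := by group
    have h5 : u * (a⁻¹ * m * a) * u⁻¹ = a⁻¹ * m * a := by
      rw [← h1]
      group
    rw [h5, h3, hca a] at h4
    have h6 : c a * m * (c a)⁻¹ = m := by
      calc c a * m * (c a)⁻¹ = c a * a * (a⁻¹ * m * a) * (c a * a)⁻¹ := by group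
        _ = m := h4.symm
    calc c a * m = (c a * m * (c a)⁻¹) * c a := by group
      _ = m * c a := by rw [h6]
  have hcm : ∀ a, ∀ m ∈ π.ker, c (a * m) = c a := by
    intro a m hm
    rw [hcd]
    have h1 := hcu _ hm
    have h2 : m * u⁻¹ * m⁻¹ = u⁻¹ := by
      have h3 : u⁻¹ * m = m * u⁻¹ := by
        calc u⁻¹ * m = u⁻¹ * (m * u) * u⁻¹ := by group
          _ = u⁻¹ * (u * m) * u⁻¹ := by rw [h1]
          _ = m * u⁻¹ := by group
      rw [← h3]
      group
    show u * (a * m) * u⁻¹ * (a * m)⁻¹ = u * a * u⁻¹ * a⁻¹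
    calc u * (a * m) * u⁻¹ * (a * m)⁻¹ = u * a * (m * u⁻¹ * m⁻¹) * a⁻¹ := by group
      _ = _ := by rw [h2]
  have hcab : ∀ a b, c (a * b) = c a * (a * c b * a⁻¹) := by
    intro a b
    rw [hcd]
    group
  -- the commutative group
  let Z : Subgroup G := π.ker ⊓ Subgroup.centralizer (π.ker : Set G)
  have hZm : ∀ x, x ∈ Z ↔ x ∈ π.ker ∧ ∀ m ∈ π.ker, m * x = x * m := by
    intro x
    rw [Subgroup.mem_inf, Subgroup.mem_centralizer_iff]
    rfl
  let _ : CommGroup Z :=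
    { (inferInstance : Group Z) with
      mul_comm := fun x y => Subtype.ext (((hZm y).1 y.2).2 x.1 ((hZm x).1 x.2).1) }
  have hZn : ∀ (a x : G), x ∈ Z → a * x * a⁻¹ ∈ Z := by
    intro a x hx
    rw [hZm] at hx ⊢
    refine ⟨(MonoidHom.normal_ker π).conj_mem x hx.1 a, fun m hm => ?_⟩
    have hm' : a⁻¹ * m * a ∈ π.ker := by
      have := (MonoidHom.normal_ker π).conj_mem m hm a⁻¹
      rwa [inv_inv] at this
    have h1 := hx.2 _ hm'
    calc m * (a * x * a⁻¹) = a * ((a⁻¹ * m * a) * x) * a⁻¹ := by group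
      _ = a * (x * (a⁻¹ * m * a)) * a⁻¹ := by rw [h1]
      _ = a * x * a⁻¹ * m := by group
  have hcZ : ∀ a, π a ∈ K → c a ∈ Z := fun a ha =>
    (hZm _).2 ⟨hcN a ha, fun m hm => (hcc a ha m hm).symm⟩
  let _ : Fintype K := Fintype.ofFinite K
  have hlf : ∀ γ : Γ, π (Function.surjInv hπ γ) = γ := Function.surjInv_eq hπ
  let f : K → Z := fun k => ⟨c (Function.surjInv hπ (k : Γ)), hcZ _ (by rw [hlf]; exact k.2)⟩
  obtain ⟨z, hz⟩ : ∃ z : Z, z = ∏ k : K, f k := ⟨_, rfl⟩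
  have hmain : ∀ a, π a ∈ K → (z : G) = (c a) ^ Fintype.card K * (a * z * a⁻¹) := by
    intro a ha
    let φ : Z →* Z :=
      { toFun := fun x => ⟨a * x.1 * a⁻¹, hZn a _ x.2⟩
        map_one' := Subtype.ext (by simp)
        map_mul' := fun x y => Subtype.ext (by
          show a * (x.1 * y.1) * a⁻¹ = (a * x.1 * a⁻¹) * (a * y.1 * a⁻¹)
          group) }
    have h1 : z = ∏ k : K, f (⟨π a, ha⟩ * k) := by
      rw [hz]
      exact (Fintype.prod_equiv (Equiv.mulLeft (⟨π a, ha⟩ : K)) _ _ fun k => rfl).symm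
    have h2 : ∀ k : K, f (⟨π a, ha⟩ * k) = ⟨c a, hcZ a ha⟩ * φ (f k) := by
      intro k
      apply Subtype.ext
      show c (Function.surjInv hπ ((⟨π a, ha⟩ * k : K) : Γ)) =
        c a * (a * c (Function.surjInv hπ (k : Γ)) * a⁻¹)
      rw [← hcab]
      have h3 : (a * Function.surjInv hπ (k : Γ))⁻¹ *
          Function.surjInv hπ ((⟨π a, ha⟩ * k : K) : Γ) ∈ π.ker := by
        rw [MonoidHom.mem_ker, map_mul, map_inv, map_mul, hlf, hlf]
        show (π a * (k : Γ))⁻¹ * (π a * (k : Γ)) = 1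
        group
      have h4 := hcm (a * Function.surjInv hπ (k : Γ)) _ h3
      rw [← h4]
      congr 1
      group
    have h5 : z = (⟨c a, hcZ a ha⟩ : Z) ^ Fintype.card K * φ z := by
      conv_lhs => rw [h1]
      rw [Finset.prod_congr rfl fun k _ => h2 k, Finset.prod_mul_distrib, Finset.prod_const,
        Finset.card_univ, ← map_prod, ← hz]
    have h6 := congrArg (Subtype.val) h5
    exact h6
  have hpow : ∀ a, π a ∈ K → ∀ n : ℕ, u ^ n * a = (c a) ^ n * a * u ^ n := by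
    intro a ha n
    induction n with
    | zero => simp
    | succ n ih =>
      have h1 : Commute (c a) u := hcu _ (hcN a ha)
      have h2 : u * (c a) ^ n = (c a) ^ n * u := ((h1.pow_left n).eq).symm
      have h3 : u * a = c a * a * u := by
        rw [← hca]
        group
      calc u ^ (n + 1) * a = u * (u ^ n * a) := by rw [pow_succ']; group
        _ = u * ((c a) ^ n * a * u ^ n) := by rw [ih]
        _ = (u * (c a) ^ n) * a * u ^ n := by group
        _ = (c a) ^ n * (u * a) * u ^ n := by rw [h2]; group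
        _ = (c a) ^ n * (c a * a * u) * u ^ n := by rw [h3]
        _ = (c a) ^ (n + 1) * a * u ^ (n + 1) := by rw [pow_succ (c a), pow_succ' u]; group
  have hzN : (z : G) ∈ π.ker := ((hZm _).1 z.2).1
  refine ⟨M * Fintype.card K, (z : G)⁻¹ * u ^ Fintype.card K, ?_, ?_, ?_⟩
  · exact Nat.mul_pos hM Fintype.card_pos
  · rw [map_mul, map_inv, MonoidHom.mem_ker.1 hzN, inv_one, one_mul, map_pow, hu, map_pow, pow_mul]
  · intro a ha
    have h1 := hmain a ha
    have h2 := hpow a ha (Fintype.card K)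
    have h3 : (c a) ^ Fintype.card K = z * (a * z * a⁻¹)⁻¹ := by
      rw [eq_mul_inv_iff_mul_eq]
      exact h1.symm
    rw [h3] at h2
    calc a * ((z : G)⁻¹ * u ^ Fintype.card K) =
        (z : G)⁻¹ * (z * (a * z * a⁻¹)⁻¹ * a * u ^ Fintype.card K) := by group
      _ = (z : G)⁻¹ * (u ^ Fintype.card K * a) := by rw [← h2]
      _ = (z : G)⁻¹ * u ^ Fintype.card K * a := by group

end Pool.Agent.H79.HG
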