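import Pool.Agent.H79.HG.ExTh
import Pool.Agent.H79.HG.Lift
import Pool.Agent.H79.HT.Tile

/-!
# Module PROD [H79 HG]: the tile theorem for extensions

PROOF. `F ⊆ G` finite. `E = (hF.toFinset.image (·⁻¹)) ∪ {1}`, `n = 10 |E|²` (`≥ 1`),
`R = 2 Σ_{e ∈ E} len (π e)`. `g, M₂` from `exists_lift`. `exists_Th R n M₂` gives `κ, Lm, Th`. Every
`t ∈ Th` has a lift in the normal closure of `g`, which commutes with `π⁻¹ K`. The data
`D : TD G`: `len z = W.len (π z)`, `N = K.comap π`.
-/

set_option autoImplicit false

open scoped Classical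

namespace Pool.Agent.H79.HG

theorem gp_comp {G Γ : Type*} [Group G] [Group Γ] (len : Γ → ℤ) (π : G →* Γ) (a b : G) :
    HT.gp (fun z => len (π z)) a b = HT.gp len (π a) (π b) := by
  simp only [HT.gp, map_mul, map_inv]

theorem hasP_ext {G Γ : Type*} [Group G] [Group Γ] (L : LD Γ) (hK : (L.K : Set Γ).Finite)
    (π : G →* Γ) (hπ : Function.Surjective π) (h : G) (hh : π h = L.W.h)
    (hc : ∀ n ∈ π.ker, n * h = h * n) : FP.HasP G := by
  intro F hF
  haveI := L.Kn
  let E : Finset G := insert 1 (hF.toFinset.image (fun x => x⁻¹))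
  have hE1 : 1 ≤ E.card := Finset.card_pos.2 ⟨1, Finset.mem_insert_self _ _⟩
  obtain ⟨M₂, g, hM₂, hg, hcomm⟩ := exists_lift π hπ L.K hK h hc L.MK L.hMK (by
    rw [hh]
    exact L.hK1)
  obtain ⟨κ, Lm, Th, hR, hκ, hd, hL, hcard, hlen, hmem, hs1, hs2⟩ :=
    L.exists_Th (2 * ∑ e ∈ E, L.W.len (π e)) (10 * E.card ^ 2)
      (by have := Nat.pow_le_pow_left hE1 2; omega) M₂ hM₂
  have hlift : ∀ t : Γ, ∃ u : G, t ∈ Th → π u = t ∧ ∀ a, π a ∈ L.K → a * u = u * a := by
    intro t
    by_cases ht : t ∈ Th
    · have h1 := hmem t ht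
      rw [← hh, ← hg, ← Set.image_singleton, ← Subgroup.map_normalClosure _ _ hπ] at h1
      obtain ⟨u, hu, rfl⟩ := h1
      refine ⟨u, fun _ => ⟨rfl, fun a ha => ?_⟩⟩
      have h2 : Subgroup.normalClosure {g} ≤ Subgroup.centralizer ((L.K.comap π : Subgroup G) : Set G) := by
        refine Subgroup.normalClosure_le_normal ?_
        rw [Set.singleton_subset_iff]
        rw [SetLike.mem_coe, Subgroup.mem_centralizer_iff]
        intro b hb
        exact hcomm b hb
      exact Subgroup.mem_centralizer_iff.1 (h2 hu) a ha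
    · exact ⟨1, fun h => absurd h ht⟩
  choose u hu using hlift
  have hinj : ∀ s ∈ Th, ∀ t ∈ Th, u s = u t → s = t := by
    intro s hs t ht hst
    rw [← (hu s hs).1, hst, (hu t ht).1]
  let D : HT.TD G :=
    { len := fun z => L.W.len (π z)
      κ := κ
      L := Lm
      N := L.K.comap π
      E := E
      Th := Th.image u
      hκ := hκ
      hL := hL
      len_one := by
        rw [map_one]
        exact L.W.len_one
      len_inv := fun x => by
        rw [map_inv]
        exact L.W.len_inv _
      len_mul := fun x y => by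
        rw [map_mul]
        exact L.W.len_mul _ _
      hyp := by
        intro x y z
        have h1 := L.W.hyp (π x) (π y) (π z)
        rw [gp_comp, gp_comp, gp_comp]
        rcases h1 with h1 | h1
        · left
          linarith
        · right
          linarith
      lenN := by
        intro n hn x
        rw [map_mul]
        exact L.hK2 _ hn _
      comm := by
        intro n hn t ht
        obtain ⟨s, hs, rfl⟩ := Finset.mem_image.1 ht
        exact (hu s hs).2 n hn
      oneE := Finset.mem_insert_self _ _
      lenE := by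
        intro e he
        have h1 : L.W.len (π e) ≤ ∑ e ∈ E, L.W.len (π e) :=
          Finset.single_le_sum (f := fun e => L.W.len (π e)) (fun i _ => L.W.len_nonneg _) he
        linarith
      lenT := by
        intro t ht
        obtain ⟨s, hs, rfl⟩ := Finset.mem_image.1 ht
        rw [(hu s hs).1]
        exact hlen s hs
      sc1 := by
        intro a t ht s hs hne
        obtain ⟨t', ht', rfl⟩ := Finset.mem_image.1 ht
        obtain ⟨s', hs', rfl⟩ := Finset.mem_image.1 hs
        have h1 := hs1 (π a) t' ht' s' hs' (fun ha he => hne ha (by rw [he]))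
        rw [gp_comp, gp_comp, map_mul, (hu t' ht').1, (hu s' hs').1]
        exact h1
      sc2 := by
        intro a t ht s hs hne
        obtain ⟨t', ht', rfl⟩ := Finset.mem_image.1 ht
        obtain ⟨s', hs', rfl⟩ := Finset.mem_image.1 hs
        have h1 := hs2 (π a) t' ht' s' hs' (fun ha he => hne (by
          rw [Subgroup.mem_comap, map_mul, (hu s' hs').1]
          exact ha) (by rw [he]))
        rw [gp_comp, gp_comp, map_inv, map_mul, (hu t' ht').1, (hu s' hs').1]
        exact h1
      card := by
        rw [Finset.card_image_of_injOn (fun s hs t ht => hinj s hs t ht)]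
        exact hcard }
  exact HT.tile_of_TD F D (fun f hf => Finset.mem_insert_of_mem
    (Finset.mem_image_of_mem _ (hF.mem_toFinset.2 hf)))

end Pool.Agent.H79.HG
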