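import Pool.Agent.H79.HG.Act
import Pool.Agent.H79.HG.MkLD
import Pool.Agent.H79.HG.Prod

/-!
# Module FIN [H79 HG]: the final theorem (complete)
-/

set_option autoImplicit false

open scoped Classical

namespace Pool.Agent.H79.HG

theorem main {G Γ X : Type*} [Group G] [Group Γ] [PseudoMetricSpace X] [MulAction Γ X]
    [IsIsometricSMul Γ X] (π : G →* Γ) (hπ : Function.Surjective π) (h : G)
    (hc : ∀ n ∈ π.ker, n * h = h * n) (δ : ℝ)
    (hX : ∀ x y z w : X, dist x z + dist y w ≤ max (dist x y + dist z w) (dist x w + dist y z) + δ)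
    (x₀ : X) (c : ℝ) (hc0 : 0 < c) (hlox : ∀ n : ℕ, c * n ≤ dist x₀ ((π h) ^ n • x₀))
    (hwpd : ∀ ε : ℝ, ∃ N : ℕ,
      {g : Γ | dist x₀ (g • x₀) ≤ ε ∧
        dist ((π h) ^ N • x₀) (g • (π h) ^ N • x₀) ≤ ε}.Finite)
    (hv : ¬ (Subgroup.zpowers (π h)).FiniteIndex) : FP.HasP G := by
  obtain ⟨W, hW⟩ := exists_HW δ hX (π h) x₀ c hc0 hlox hwpd
  rw [← hW] at hv
  obtain ⟨L, hL, hK⟩ := exists_LD' W hv
  exact hasP_ext L hK π hπ h (by rw [hL, hW]) hc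

end Pool.Agent.H79.HG
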