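import Pool.Agent.H79.HG.Cosets

/-!
# Module INTER [H79 HG]: elements outside `Ei h`

PROOFS (II.5). `exists_not_Ei`: otherwise `Γ = ⋃_{b ∈ B} ⟨h⟩ b` (`cosets`), so the quotient is finite
and `⟨h⟩` has finite index (`Subgroup.finiteIndex_of_finite_quotient` after showing that the map
`b⁻¹ ↦ b⁻¹ ⟨h⟩` from `B` onto `Γ ⧸ zpowers h` is surjective: `g⁻¹ = h^j b`, so `g = b⁻¹ h^(-j)`).
`no_power`: let `u = x⁻¹ h^i x ∈ Ei h`, `i ≠ 0`. All powers `u^r`, `r : ℕ`, are in `Ei h`, so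
`u^r = h^(j r) b_r`, `b_r ∈ B` finite: `b_r = b_{r'}` for some `r' < r` (`Finite.exists_ne_map_eq_of_infinite`
or pigeonhole), so `u^(r - r') = h^l`, `l = j r - j r'` (`u^r = h^(j r) h^(-(j r')) u^(r')`). Put
`a = i (r - r')`, `a ≠ 0`: `x⁻¹ h^a x = h^l`. For all `k : ℕ`: `x⁻¹ h^(a k) x = h^(l k)`, so
`|len (h^(l k)) - len (h^(a k))| ≤ 2 len x`. If `|l| < |a|`: `len (h^(|a| k)) ≥ len (h^(|l| k)) +
len (h^((|a| - |l|) k)) - Q` (`len_sub`) and `grow` give a contradiction for large `k`; the same if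
`|a| < |l|`. So `l = a` or `l = -a`; with `n = |a|` (`natAbs`) `x⁻¹ h^n x = h^(± n)`, i.e. `x ∈ Ei h`,
contradiction.
`inter_finite`: if infinite, then by `cosets` infinitely many `g` in the set have the same `b`
(`g = h^(j g) b`); take two different ones `g, g'`: `g g'⁻¹ = h^(j - j')`, `j ≠ j'`, and
`x⁻¹ (g g'⁻¹) x ∈ Ei h`, against `no_power`. (So: for each `b ∈ B` at most one `g`; the map
`g ↦ b` is injective on the set, `Set.Finite.of_finite_image` or `Set.Finite.subset`.)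
-/

set_option autoImplicit false

open scoped Classical

namespace Pool.Agent.H79.HG

namespace HW

variable {Γ : Type*} [Group Γ] (W : HW Γ)

theorem exists_not_Ei (hv : ¬ (Subgroup.zpowers W.h).FiniteIndex) : ∃ x : Γ, x ∉ Ei W.h := by
  by_contra hc
  push Not at hc
  obtain ⟨B, hB⟩ := W.cosets
  apply hv
  let f : B → Γ ⧸ Subgroup.zpowers W.h := fun b => QuotientGroup.mk ((b : Γ)⁻¹)
  have hf : Function.Surjective f := by
    intro q
    obtain ⟨g, rfl⟩ := QuotientGroup.mk_surjective q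
    obtain ⟨j, b, hb, e⟩ := hB g⁻¹ (hc _)
    refine ⟨⟨b, hb⟩, ?_⟩
    show QuotientGroup.mk (b⁻¹) = QuotientGroup.mk g
    rw [QuotientGroup.eq]
    have e2 : g = b⁻¹ * W.h ^ (-j) := by
      have : g = (g⁻¹)⁻¹ := (inv_inv g).symm
      rw [this, e, mul_inv_rev, zpow_neg]
    rw [e2]
    refine Subgroup.mem_zpowers_iff.2 ⟨-j, ?_⟩
    group
  have : Finite (Γ ⧸ Subgroup.zpowers W.h) := Finite.of_surjective f hf
  exact Subgroup.finiteIndex_of_finite_quotient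

private theorem le_of_len {A L : ℕ} {C : ℤ}
    (H : ∀ k : ℕ, W.len (W.h ^ (A * k)) ≤ W.len (W.h ^ (L * k)) + C) : A ≤ L := by
  by_contra hlt
  push Not at hlt
  obtain ⟨n₀, h0⟩ := W.grow (C + W.Q + 1)
  have h1 := H n₀
  have h2 : L * n₀ ≤ A * n₀ := Nat.mul_le_mul_right _ hlt.le
  have h3 := W.len_sub h2
  have h4 := h0 (A * n₀ - L * n₀) (by
    rw [← Nat.sub_mul]
    exact Nat.le_mul_of_pos_left _ (by omega))
  omega

private theorem conj_zpow' (x g : Γ) (k : ℕ) : x⁻¹ * g ^ k * x = (x⁻¹ * g * x) ^ k := by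
  have := conj_pow (a := x⁻¹) (b := g) (i := k)
  rw [inv_inv] at this
  exact this.symm

private theorem len_conj_le (x g : Γ) : W.len (x⁻¹ * g * x) ≤ W.len g + 2 * W.len x := by
  have h1 := W.len_mul (x⁻¹ * g) x
  have h2 := W.len_mul x⁻¹ g
  have h3 := W.len_inv x
  omega

private theorem len_le_conj (x g : Γ) : W.len g ≤ W.len (x⁻¹ * g * x) + 2 * W.len x := by
  have h1 := W.len_conj_le x⁻¹ (x⁻¹ * g * x)
  have e : (x⁻¹)⁻¹ * (x⁻¹ * g * x) * x⁻¹ = g := by group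
  rw [e, W.len_inv] at h1
  exact h1

private theorem key {x : Γ} {a l : ℤ} (h : x⁻¹ * W.h ^ a * x = W.h ^ l) : l = a ∨ l = -a := by
  have hk : ∀ k : ℕ, x⁻¹ * W.h ^ (a * k) * x = W.h ^ (l * k) := by
    intro k
    rw [zpow_mul, zpow_mul, zpow_natCast, zpow_natCast, conj_zpow', h]
  have ha : ∀ k : ℕ, W.len (W.h ^ (a * k)) = W.len (W.h ^ (a.natAbs * k)) := by
    intro k
    rw [W.len_zpow, Int.natAbs_mul, Int.natAbs_natCast]
  have hl : ∀ k : ℕ, W.len (W.h ^ (l * k)) = W.len (W.h ^ (l.natAbs * k)) := by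
    intro k
    rw [W.len_zpow, Int.natAbs_mul, Int.natAbs_natCast]
  have h1 : a.natAbs ≤ l.natAbs := W.le_of_len (C := 2 * W.len x) (by
    intro k
    rw [← ha, ← hl, ← hk]
    exact W.len_le_conj x _)
  have h2 : l.natAbs ≤ a.natAbs := W.le_of_len (C := 2 * W.len x) (by
    intro k
    rw [← ha, ← hl, ← hk]
    exact W.len_conj_le x _)
  exact Int.natAbs_eq_natAbs_iff.1 (le_antisymm h2 h1)

private theorem mem_of_conj {x : Γ} {a l : ℤ} (ha : a ≠ 0) (h : x⁻¹ * W.h ^ a * x = W.h ^ l) :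
    x ∈ Ei W.h := by
  have h1 := W.key h
  refine ⟨a.natAbs, Int.natAbs_pos.2 ha, ?_⟩
  have hinv : x⁻¹ * (W.h ^ a)⁻¹ * x = (W.h ^ l)⁻¹ := by
    rw [← h]
    group
  rcases Int.natAbs_eq a with h2 | h2
  · have h3 : W.h ^ a.natAbs = W.h ^ a := by
      conv_rhs => rw [h2]
      rw [zpow_natCast]
    rw [h3, h]
    rcases h1 with rfl | rfl
    · exact Or.inl rfl
    · right
      rw [zpow_neg]
  · have h3 : W.h ^ a.natAbs = (W.h ^ a)⁻¹ := by
      conv_rhs => rw [h2]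
      rw [zpow_neg, inv_inv, zpow_natCast]
    rw [h3, hinv]
    rcases h1 with rfl | rfl
    · exact Or.inl rfl
    · right
      rw [zpow_neg]

theorem no_power {x : Γ} (hx : x ∉ Ei W.h) {i : ℤ} (hi : i ≠ 0) :
    x⁻¹ * W.h ^ i * x ∉ Ei W.h := by
  intro hu
  obtain ⟨B, hB⟩ := W.cosets
  have hr : ∀ r : ℕ, ∃ b : B, ∃ j : ℤ, (x⁻¹ * W.h ^ i * x) ^ r = W.h ^ j * (b : Γ) := by
    intro r
    obtain ⟨j, b, hb, e⟩ := hB _ ((Ei W.h).pow_mem hu r)
    exact ⟨⟨b, hb⟩, j, e⟩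
  choose f j hf using hr
  obtain ⟨r, r', hne, heq⟩ := Finite.exists_ne_map_eq_of_infinite f
  have e1 : ∀ r : ℕ, (x⁻¹ * W.h ^ i * x) ^ r = x⁻¹ * W.h ^ (i * r) * x := by
    intro r
    rw [zpow_mul, zpow_natCast, conj_zpow']
  have e2 : (x⁻¹ * W.h ^ (i * r) * x) * (x⁻¹ * W.h ^ (i * r') * x)⁻¹ =
      W.h ^ (j r) * (W.h ^ (j r'))⁻¹ := by
    rw [← e1, ← e1, hf, hf, heq]
    group
  have e3 : x⁻¹ * W.h ^ (i * r - i * r') * x = W.h ^ (j r - j r') := by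
    rw [zpow_sub, zpow_sub, ← e2]
    group
  refine hx (W.mem_of_conj ?_ e3)
  rw [← mul_sub]
  refine mul_ne_zero hi (sub_ne_zero.2 ?_)
  exact_mod_cast hne

theorem inter_finite {x : Γ} (hx : x ∉ Ei W.h) :
    {g : Γ | g ∈ Ei W.h ∧ x⁻¹ * g * x ∈ Ei W.h}.Finite := by
  obtain ⟨B, hB⟩ := W.cosets
  choose! j b hb using hB
  refine Set.Finite.of_finite_image (f := b) ?_ ?_
  · refine (B.finite_toSet).subset ?_
    rintro _ ⟨g, hg, rfl⟩
    exact (hb g hg.1).1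
  · intro g hg g' hg' e
    have e1 := (hb g hg.1).2
    have e2 := (hb g' hg'.1).2
    have e3 : g * g'⁻¹ = W.h ^ (j g - j g') := by
      have e4 : g * g'⁻¹ = (W.h ^ (j g) * b g) * (W.h ^ (j g') * b g')⁻¹ := by
        rw [← e1, ← e2]
      rw [e4, e, zpow_sub, mul_inv_rev]
      group
    by_cases h0 : j g - j g' = 0
    · rw [h0, zpow_zero] at e3
      exact mul_inv_eq_one.1 e3
    · exfalso
      refine W.no_power hx h0 ?_
      rw [← e3]
      have : x⁻¹ * (g * g'⁻¹) * x = (x⁻¹ * g * x) * (x⁻¹ * g' * x)⁻¹ := by group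
      rw [this]
      exact (Ei W.h).mul_mem hg.2 ((Ei W.h).inv_mem hg'.2)

end HW

end Pool.Agent.H79.HG
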