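import Pool.Agent.H79.HG.Defs

/-!
# Module LINE [H79 HG]: the quasi-line of `h` (complete)
-/

set_option autoImplicit false

open scoped Classical

namespace Pool.Agent.H79.HG

namespace HW

variable {Γ : Type*} [Group Γ] (W : HW Γ)

theorem len_zpow (j : ℤ) : W.len (W.h ^ j) = W.len (W.h ^ j.natAbs) := by
  rcases Int.natAbs_eq j with h | h
  · conv_lhs => rw [h]
    rw [zpow_natCast]
  · conv_lhs => rw [h]
    rw [zpow_neg, W.len_inv, zpow_natCast]

theorem len_pow_le (n : ℕ) : W.len (W.h ^ n) ≤ n * W.len W.h := by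
  induction n with
  | zero => simp [W.len_one]
  | succ n ih =>
    rw [pow_succ]
    have h1 := W.len_mul (W.h ^ n) W.h
    push_cast
    nlinarith

theorem pow_ne_one {n : ℕ} (hn : 1 ≤ n) : W.h ^ n ≠ 1 := by
  intro h
  obtain ⟨n₀, h0⟩ := W.grow 1
  have h1 := h0 (n * n₀) (Nat.le_mul_of_pos_left _ hn)
  rw [pow_mul, h, one_pow, W.len_one] at h1
  omega

/-- `len (h ^ (j - i)) ≤ len (h ^ j) - len (h ^ i) + Q`. -/
theorem len_sub {i j : ℕ} (hij : i ≤ j) :
    W.len (W.h ^ i) + W.len (W.h ^ (j - i)) ≤ W.len (W.h ^ j) + W.Q := by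
  have h := W.qline i (j - i)
  rwa [Nat.add_sub_cancel' hij] at h

/-- The length of `h ^ i` is at most the length of `h ^ j` plus `Q` for `i ≤ j`. -/
theorem len_mono {i j : ℕ} (hij : i ≤ j) : W.len (W.h ^ i) ≤ W.len (W.h ^ j) + W.Q := by
  have h1 := W.len_sub hij
  have h2 := W.len_nonneg (W.h ^ (j - i))
  omega

theorem sg_mul_self (m : ℤ) : sg m * m.natAbs = m := by
  unfold sg
  split_ifs with h
  · rw [one_mul]
    omega
  · omega

theorem sg_cases (m : ℤ) : sg m = 1 ∨ sg m = -1 := by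
  unfold sg
  split_ifs
  · exact Or.inl rfl
  · exact Or.inr rfl

/-- `h ^ (s a)` for `s = ± 1`. -/
theorem len_sg {s : ℤ} (hs : s = 1 ∨ s = -1) (a : ℕ) :
    W.len (W.h ^ (s * a)) = W.len (W.h ^ a) := by
  rcases hs with rfl | rfl
  · rw [one_mul, zpow_natCast]
  · rw [neg_one_mul, zpow_neg, W.len_inv, zpow_natCast]

end HW

end Pool.Agent.H79.HG
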