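import Pool.Agent.H79.HG.Defs

/-!
# Module LOCGLOB [H79 HG]: local quasi-geodesics are global quasi-geodesics

PROOF (II.8). `locglob`: induction on `l`. `l = []`: `prod = 1`, `p a₀⁻¹ 1 = 0 ≤ B + d` (`p_comm`,
`p_one_left`). `l = a :: l'`: by induction (i) for `l'` with `a₀ := a` (the chain condition gives the
hypothesis for the head of `l'`): `p a⁻¹ l'.prod ≤ B + d`. Put `V = a * l'.prod`.
`pe a⁻¹ l'.prod`: `ds a⁻¹ l'.prod = len (a l'.prod) = len V = len a + len l'.prod - p a⁻¹ l'.prod`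
(`inv_inv`, `len_inv`); `pe V a`: `ds V a = len (V⁻¹ a) = len l'.prod` (`V⁻¹ a = l'.prod⁻¹ (a⁻¹ a)`... up
to conjugation-free identity `V⁻¹ * a = (l'.prod)⁻¹ * a⁻¹ * a = (l'.prod)⁻¹`). So
`p V a = len V + len a - len l'.prod = 2 len a - p a⁻¹ l'.prod ≥ 2 len a - B - d`. (ii) is done.
(i): if `p a₀⁻¹ V ≥ B + d + 1`: also `p V a ≥ 2 len a - B - d ≥ B + d + 1` (`len a > B + d`), so
`B + d + 1 ≤ p a₀⁻¹ a + d ≤ B + d` by `p_hyp`.
`junction`. If one list is empty `p = 0`. Let `l₂ = b :: l₂'`. Mirror image of (i): the list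
`(l₁.map (·⁻¹)).reverse` has the product `l₁.prod⁻¹` (`List.prod_inv_reverse`) and is a chain for the
same relation (`isChain_reverse`, `isChain_map`: `p a b⁻¹ = p b⁻¹ a` and `(a⁻¹)⁻¹ = a`); (i) with
`a₀ = b⁻¹`: `p b l₁.prod⁻¹ ≤ B + d` (the head of the reversed list is the inverse of the last element `a`
of `l₁` and `p b a⁻¹ = p a⁻¹ b ≤ B`). (ii) for `l₂`: `p l₂.prod b ≥ 2 len b - B - d > B + 2d`
(`len b > B + 2d`). If `p l₁.prod⁻¹ l₂.prod ≥ B + 2d + 1` then `B + 2d + 1 ≤ p l₁.prod⁻¹ b + d`.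
Contradiction.
-/

set_option autoImplicit false

open scoped Classical

namespace Pool.Agent.H79.HG

namespace HW

variable {Γ : Type*} [Group Γ] (W : HW Γ)

theorem locglob {B : ℤ} (hB : 0 ≤ B) (l : List Γ) (hc : l.IsChain (fun a b => W.p a⁻¹ b ≤ B))
    (hl : ∀ a ∈ l, B + W.d < W.len a) :
    (∀ a₀ : Γ, (∀ a ∈ l.head?, W.p a₀⁻¹ a ≤ B) → W.p a₀⁻¹ l.prod ≤ B + W.d) ∧
      ∀ a l', l = a :: l' → 2 * W.len a - B - W.d ≤ W.p l.prod a := by
  induction l with
  | nil =>
    refine ⟨fun a₀ _ => ?_, fun a l' h => by simp at h⟩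
    rw [List.prod_nil, W.p_comm, W.p_one_left]
    have := W.hd
    omega
  | cons a l ih =>
    rw [List.isChain_cons] at hc
    have h1 := (ih hc.2 (fun b hb => hl b (List.mem_cons_of_mem _ hb))).1 a hc.1
    have hla := hl a (by simp)
    have hV : (a :: l).prod = a * l.prod := List.prod_cons
    have e1 : W.len (a * l.prod) = W.len a + W.len l.prod - W.p a⁻¹ l.prod := by
      have := W.pe a⁻¹ l.prod
      rw [W.len_inv] at this
      unfold ds at this
      rw [inv_inv] at this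
      exact this
    have e2 : W.p (a * l.prod) a = W.len (a * l.prod) + W.len a - W.len l.prod := by
      have h2 := W.pe (a * l.prod) a
      have h3 : W.ds (a * l.prod) a = W.len l.prod := by
        unfold ds
        rw [← W.len_inv l.prod]
        congr 1
        group
      omega
    have e3 : 2 * W.len a - B - W.d ≤ W.p (a * l.prod) a := by omega
    refine ⟨fun a₀ h0 => ?_, fun b l' h => ?_⟩
    · rw [hV]
      by_contra hcon
      have h4 : B + W.d + 1 ≤ W.p a₀⁻¹ (a * l.prod) := by omega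
      have h5 : B + W.d + 1 ≤ W.p (a * l.prod) a := by omega
      have h6 := W.p_hyp h4 h5
      have h7 := h0 a (by simp)
      omega
    · obtain ⟨rfl, rfl⟩ := List.cons.inj h
      rw [hV]
      exact e3

theorem junction {B : ℤ} (hB : 0 ≤ B) (l₁ l₂ : List Γ)
    (hc : (l₁ ++ l₂).IsChain (fun a b => W.p a⁻¹ b ≤ B))
    (hl : ∀ a ∈ l₁ ++ l₂, B + 2 * W.d < W.len a) :
    W.p (l₁.prod)⁻¹ l₂.prod ≤ B + 2 * W.d := by
  have hd := W.hd
  rw [List.isChain_append] at hc
  obtain ⟨c1, c2, c3⟩ := hc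
  cases l₂ with
  | nil =>
    rw [List.prod_nil, W.p_comm, W.p_one_left]
    omega
  | cons b l₂ =>
    -- the reversed list
    have hr : ((l₁.map fun x => x⁻¹).reverse).IsChain (fun a b => W.p a⁻¹ b ≤ B) := by
      rw [List.isChain_reverse, List.isChain_map]
      refine c1.imp ?_
      intro x y h
      show W.p (y⁻¹)⁻¹ x⁻¹ ≤ B
      rw [inv_inv, W.p_comm]
      exact h
    have h1 := (W.locglob hB _ hr (by
      intro x hx
      rw [List.mem_reverse, List.mem_map] at hx
      obtain ⟨y, hy, rfl⟩ := hx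
      have := hl y (by simp [hy])
      rw [W.len_inv]
      omega)).1 b⁻¹ (by
      intro x hx
      rw [List.head?_reverse, List.getLast?_map] at hx
      obtain ⟨y, hy, rfl⟩ := Option.mem_map.1 hx
      rw [inv_inv, W.p_comm]
      exact c3 y hy b (by simp))
    rw [← List.prod_inv_reverse, inv_inv] at h1
    have h2 := (W.locglob hB (b :: l₂) c2 (fun x hx => by
      have := hl x (List.mem_append_right _ hx)
      omega)).2 b l₂ rfl
    have hb := hl b (by simp)
    by_contra hcon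
    have h4 : B + 2 * W.d + 1 ≤ W.p l₁.prod⁻¹ (b :: l₂).prod := by omega
    have h5 : B + 2 * W.d + 1 ≤ W.p (b :: l₂).prod b := by omega
    have h6 := W.p_hyp h4 h5
    rw [W.p_comm] at h6
    omega

end HW

end Pool.Agent.H79.HG
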