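import Pool.Agent.H79.HG.Vert

/-!
# Module LOCATE [H79 HG]: a point between the ends of a word is near a block

PROOF (II.10). `n₀` from `block_pt`, `B3`; let `c ≥ 0` (if `c < 0` use `max c 0`), `c' = max c B3`,
`C₁ = len h + C + c + c' + d` (`C = L.C`). Translate: `y' = g⁻¹ y`, `Bt c 1 y' (val l)`, `δ = ds 1 y'`,
`δ ≤ len (val l) + c`. Let `k` be the least number in `[1, l.length]` with `len (val (l.take k)) ≥ δ`, if
there is one; otherwise `k = l.length`. `u = l.take (k-1)`, `(i, m) = l[k-1]`, `v = l.drop k`;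
`l = u ++ (i, m) :: v`. `len (val u) ≤ δ` (`k = 1`: `len 1 = 0`; else minimality). For `0 ≤ r ≤ m` put
`φ r = len (val u * x i * h^r)`; `φ 0 ≤ len (val u) + C ≤ δ + C`, `|φ (r+1) - φ r| ≤ len h`;
`φ m ≥ len (val (l.take k)) - C` (`val u * x i * h^m = val (l.take k) * x i`), which is `≥ δ - C` in the
first case and `≥ len (val l) - C ≥ δ - c - C` in the second. So there is `r ≤ m` with
`|φ r - δ| ≤ len h + C + c`: if `φ m ≤ δ + C + len h` take `r = m`; otherwise take the largest `r` with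
`φ r ≤ δ + C` (`φ (r+1) > δ + C`, so `φ r > δ + C - len h`). `near` with `x = 1`, `z = val l`, the points
`y'` (`Bt c'`) and `val u * x i * h^r` (`block_pt`, `Bt c'`), `e = len h + C + c`:
`ds y' (val u * x i * h^r) ≤ e + c' + d`. Translate back (`ds_mul_left`).
-/

set_option autoImplicit false

open scoped Classical

namespace Pool.Agent.H79.HG

namespace LD

variable {Γ : Type*} [Group Γ] (L : LD Γ)

theorem locate (c : ℤ) : ∃ (C₁ : ℤ) (n₀ : ℕ), ∀ (l : List (Fin L.q × ℕ)) (y g : Γ),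
    L.Gd n₀ l → l ≠ [] → L.W.Bt c g y (g * L.val l) →
    ∃ (u v : List (Fin L.q × ℕ)) (i : Fin L.q) (m r : ℕ), l = u ++ (i, m) :: v ∧ r ≤ m ∧
      L.W.ds y (g * L.val u * L.x i * L.W.h ^ r) ≤ C₁ := by
  obtain ⟨n₀, hb⟩ := L.block_pt
  refine ⟨(L.W.len L.W.h + L.C + max c 0) + max (max c 0) L.B3 + L.W.d, n₀, ?_⟩
  intro l y g hl hne hBt
  have hC0 := L.hC0
  have hc0 : 0 ≤ max c 0 := le_max_right _ _
  have hh0 := L.W.len_nonneg L.W.h
  have hBt' : L.W.Bt (max c 0) 1 (g⁻¹ * y) (L.val l) := by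
    have h1 := hBt.mul g⁻¹
    rw [inv_mul_cancel, inv_mul_cancel_left] at h1
    exact h1.mono (le_max_left _ _)
  have hlast : L.W.len (g⁻¹ * y) ≤ L.W.len (L.val l) + max c 0 := by
    have h1 := hBt'
    unfold HW.Bt at h1
    rw [L.W.ds_one, L.W.ds_one] at h1
    have h2 := L.W.ds_nonneg (g⁻¹ * y) (L.val l)
    omega
  have hend : ∀ (u : List (Fin L.q × ℕ)) (i : Fin L.q) (m : ℕ),
      L.W.len (L.val (u ++ [(i, m)])) ≤ L.W.len (L.val u * L.x i * L.W.h ^ m) + L.C := by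
    intro u i m
    have e : L.val (u ++ [(i, m)]) = L.val u * L.x i * L.W.h ^ m * (L.x i)⁻¹ := by
      rw [L.val_append, L.val_singleton]
      unfold w
      simp only [mul_assoc]
    rw [e]
    have h1 := L.W.len_mul (L.val u * L.x i * L.W.h ^ m) (L.x i)⁻¹
    rw [L.W.len_inv] at h1
    have h2 := L.hC i
    omega
  have hfind : ∀ (v₁ u₁ : List (Fin L.q × ℕ)), l = u₁ ++ v₁ → v₁ ≠ [] →
      L.W.len (L.val u₁) ≤ L.W.len (g⁻¹ * y) →
      ∃ (u v : List (Fin L.q × ℕ)) (i : Fin L.q) (m : ℕ), l = u ++ (i, m) :: v ∧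
        L.W.len (L.val u) ≤ L.W.len (g⁻¹ * y) ∧
        L.W.len (g⁻¹ * y) - max c 0 - L.C ≤ L.W.len (L.val u * L.x i * L.W.h ^ m) := by
    intro v₁
    induction v₁ with
    | nil =>
      intro u₁ _ h2
      exact absurd rfl h2
    | cons a v ih =>
      intro u₁ h1 _ h3
      obtain ⟨i, m⟩ := a
      rcases eq_or_ne v [] with hv | hv
      · subst hv
        refine ⟨u₁, [], i, m, h1, h3, ?_⟩
        have h4 := hend u₁ i m
        rw [← h1] at h4
        omega
      · by_cases h4 : L.W.len (L.val (u₁ ++ [(i, m)])) ≤ L.W.len (g⁻¹ * y)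
        · exact ih (u₁ ++ [(i, m)]) (by rw [h1, List.append_assoc, List.singleton_append]) hv h4
        · refine ⟨u₁, v, i, m, h1, h3, ?_⟩
          have h5 := hend u₁ i m
          omega
  obtain ⟨u, v, i, m, hl1, hu, hm⟩ := hfind l [] rfl hne (by
    rw [L.val_nil, L.W.len_one]
    exact L.W.len_nonneg _)
  have h0 : L.W.len (L.val u * L.x i * L.W.h ^ 0) ≤ L.W.len (g⁻¹ * y) + L.C := by
    rw [pow_zero, mul_one]
    have h1 := L.W.len_mul (L.val u) (L.x i)
    have h2 := L.hC i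
    omega
  have hstep : ∀ r : ℕ, L.W.len (L.val u * L.x i * L.W.h ^ (r + 1)) ≤
      L.W.len (L.val u * L.x i * L.W.h ^ r) + L.W.len L.W.h := by
    intro r
    rw [pow_succ, ← mul_assoc]
    exact L.W.len_mul _ _
  have hiv : ∀ k : ℕ, (∃ r, r ≤ k ∧
      L.W.len (g⁻¹ * y) ≤ L.W.len (L.val u * L.x i * L.W.h ^ r) +
        (L.W.len L.W.h + L.C + max c 0) ∧
      L.W.len (L.val u * L.x i * L.W.h ^ r) ≤ L.W.len (g⁻¹ * y) +
        (L.W.len L.W.h + L.C + max c 0)) ∨
      L.W.len (L.val u * L.x i * L.W.h ^ k) + (L.W.len L.W.h + L.C + max c 0) <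
        L.W.len (g⁻¹ * y) := by
    intro k
    induction k with
    | zero =>
      rcases lt_or_ge (L.W.len (L.val u * L.x i * L.W.h ^ 0) +
        (L.W.len L.W.h + L.C + max c 0)) (L.W.len (g⁻¹ * y)) with h | h
      · exact Or.inr h
      · exact Or.inl ⟨0, le_refl _, h, by omega⟩
    | succ k ih =>
      rcases ih with ⟨r, h1, h2, h3⟩ | h1
      · exact Or.inl ⟨r, by omega, h2, h3⟩
      · have h2 := hstep k
        rcases lt_or_ge (L.W.len (L.val u * L.x i * L.W.h ^ (k + 1)) +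
          (L.W.len L.W.h + L.C + max c 0)) (L.W.len (g⁻¹ * y)) with h | h
        · exact Or.inr h
        · exact Or.inl ⟨k + 1, le_refl _, h, by omega⟩
  rcases hiv m with ⟨r, h1, h2, h3⟩ | h1
  · refine ⟨u, v, i, m, r, hl1, h1, ?_⟩
    have h4 := hb u v i m (by rw [← hl1]; exact hl) r h1
    rw [← hl1] at h4
    have h5 : L.W.ds y (g * L.val u * L.x i * L.W.h ^ r) =
        L.W.ds (g⁻¹ * y) (L.val u * L.x i * L.W.h ^ r) := by
      rw [← L.W.ds_mul_left g (g⁻¹ * y), mul_inv_cancel_left]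
      simp only [mul_assoc]
    rw [h5]
    refine L.W.near (hBt'.mono (le_max_left _ _)) (h4.mono (le_max_right _ _)) ?_ ?_
    · rw [L.W.ds_one, L.W.ds_one]
      exact h2
    · rw [L.W.ds_one, L.W.ds_one]
      exact h3
  · omega

end LD

end Pool.Agent.H79.HG
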