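import Pool.Agent.H79.HG.Vertex

/-!
# Module MATCHV [H79 HG]: interior vertices are matched

PROOFS. `match_vertex` (II.12, start). `C₂, n₀` from `vertex c`. `(i, m) = l[j-1]`, `(i', m') = l[j]`,
`y = val (l.take j)`. `l.take j = l.take (j-1) ++ [l[j-1]]` (`List.take_succ`/`List.take_concat_get'`...),
so `y * (w i m)⁻¹ = val (l.take (j-1))`; `val (l.take (j+1)) = y * w i' m'`. `i ≠ i'` by the chain
condition (`List.isChain_iff_getElem`), `n₀ ≤ m, m'` by `Gd`. `vertex` with the word `l'`: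
`l' = u ++ v`, `k = u.length`, `l'.take k = u` (`List.take_left'`).
`len_val_large`: `n₀` from `w_large (Λ' )` with `Λ' = max (Λ + B + d) (B + d + 1)`; `locglob` for the list
`l.map f`, `f a = w a.1 a.2` (chain as in `vert`): for `l = a :: l'`
`2 len (f a) - B - d ≤ p (val l) (f a) ≤ 2 len (val l)`.
`take_step`: `val (l.take (j+1)) = val (l.take j) * w l[j].1 l[j].2`.
-/

set_option autoImplicit false

open scoped Classical

namespace Pool.Agent.H79.HG

namespace LD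

variable {Γ : Type*} [Group Γ] (L : LD Γ)

theorem take_step (l : List (Fin L.q × ℕ)) {j : ℕ} (hj : j < l.length) :
    L.val (l.take (j + 1)) = L.val (l.take j) * L.w l[j].1 l[j].2 := by
  rw [List.take_succ_eq_append_getElem hj, L.val_append, L.val_singleton]

theorem len_val_large (Λ : ℤ) : ∃ n₀ : ℕ, ∀ l : List (Fin L.q × ℕ), L.Gd n₀ l → l ≠ [] →
    Λ ≤ L.W.len (L.val l) := by
  obtain ⟨n₀, h⟩ := L.w_large (|Λ| + L.B + L.W.d + 1)
  have hB0 := L.hB0
  have hd := L.W.hd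
  refine ⟨n₀, fun l hG hl => ?_⟩
  obtain ⟨a, l', rfl⟩ := List.exists_cons_of_ne_nil hl
  have h1 := (L.W.locglob L.hB0 ((a :: l').map (fun a => L.w a.1 a.2)) (by
    rw [List.isChain_map]
    refine hG.2.imp ?_
    intro a b hab
    exact L.hB a.1 b.1 hab a.2 b.2) (by
    intro x hx
    obtain ⟨b, hb, rfl⟩ := List.mem_map.1 hx
    have h2 := h b.1 b.2 (hG.1 b hb)
    have h3 := abs_nonneg Λ
    show L.B + L.W.d < L.W.len (L.w b.1 b.2)
    omega)).2 (L.w a.1 a.2) (l'.map (fun a => L.w a.1 a.2)) (by rw [List.map_cons])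
  have h2 := h a.1 a.2 (hG.1 a (by simp))
  have h3 : L.W.p (L.val (a :: l')) (L.w a.1 a.2) ≤ 2 * L.W.len (L.val (a :: l')) := L.W.p_le_left _ _
  have h4 : 2 * L.W.len (L.w a.1 a.2) - L.B - L.W.d ≤ L.W.p (L.val (a :: l')) (L.w a.1 a.2) := h1
  have h5 := le_abs_self Λ
  have h6 := abs_nonneg Λ
  omega

theorem match_vertex (c : ℤ) : ∃ (C₂ : ℤ) (n₀ : ℕ), ∀ (l l' : List (Fin L.q × ℕ)) (g : Γ)
    (j : ℕ), L.Gd n₀ l → L.Gd n₀ l' → l' ≠ [] → 1 ≤ j → j + 1 ≤ l.length →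
    (∀ k, j ≤ k + 1 → k ≤ j + 1 → L.W.Bt c g (L.val (l.take k)) (g * L.val l')) →
    ∃ k, k ≤ l'.length ∧ L.W.ds (L.val (l.take j)) (g * L.val (l'.take k)) ≤ C₂ := by
  obtain ⟨C₂, n₀, h⟩ := L.vertex c
  refine ⟨C₂, n₀, ?_⟩
  intro l l' g j hG hG' hl' hj1 hj2 hBt
  have hj : j < l.length := by omega
  obtain ⟨j', rfl⟩ : ∃ j', j = j' + 1 := ⟨j - 1, by omega⟩
  have hj' : j' < l.length := by omega
  have s1 := L.take_step l hj'
  have s2 := L.take_step l hj
  have hne : l[j'].1 ≠ l[j' + 1].1 := (List.isChain_iff_getElem.1 hG.2) j' hj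
  have hV : L.V c g (g * L.val l') l[j'].1 l[j' + 1].1 l[j'].2 l[j' + 1].2 (L.val (l.take (j' + 1))) := by
    refine ⟨?_, ?_, ?_⟩
    · rw [s1, mul_inv_cancel_right]
      exact hBt j' (by omega) (by omega)
    · exact hBt (j' + 1) (by omega) (by omega)
    · rw [← s2]
      exact hBt (j' + 1 + 1) (by omega) (by omega)
  obtain ⟨u, v, huv, hds⟩ := h l' _ _ _ _ _ g hG' hl' hne
    (hG.1 _ (List.getElem_mem hj')) (hG.1 _ (List.getElem_mem hj)) hV
  refine ⟨u.length, ?_, ?_⟩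
  · rw [huv, List.length_append]
    omega
  · rw [huv, List.take_left]
    exact hds

end LD

end Pool.Agent.H79.HG
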