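import Pool.Agent.H79.HG.Line

/-!
# Module NEARL [H79 HG]: the elements of `Ei h` are near the quasi-line

PROOF (II.4, first half). `c = Q + 2d`, `ε₀ = |len h| + 2c + d`. Let `g⁻¹ h^n g = h^(s n)`, `s = ±1`,
`n ≥ 1`. Choose `k` with `2 len (h^(n k)) - 2 len g > Q + 2d + 1` (`grow`, `n k ≥ k`), `t = n k`. Then
`g⁻¹ h^t g = h^(s t)`, so `g h^(s t) = h^t g` and `g h^(-s t) = h^(-t) g`. Put `x = h^(-t)`, `z = h^t`,
`x' = h^(-t) g`, `z' = h^t g`. `ds x x' = ds z z' = len g`. `ds g x' = ds g z' = len (h^t)`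
(`ds_mul_right`), `ds x' z' = len (h^(2t)) ≥ 2 len (h^t) - Q` (`qline`, `(x')⁻¹ z' = g⁻¹ h^(2t) g =
h^(2 s t)`). Write `P(a, b) = ds g a + ds g b - ds a b` (base point `g`; it is `p (g⁻¹ a) (g⁻¹ b)`,
so `p_hyp` applies: if `m ≤ P(a, b)`, `m ≤ P(b, e)` then `m ≤ P(a, e) + d`). `P(x', z') ≤ Q`.
`P(x', x) ≥ 2 len (h^t) - 2 len g > Q + 2d + 1`, the same for `P(z, z')`. So `P(x, z') ≤ Q + d`
(otherwise `Q + d + 1 ≤ P(x', x), P(x, z')`, `P(x', z') + d ≥ Q + d + 1`) and `P(x, z) ≤ Q + 2d`. So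
`Bt c x g z`. For `0 ≤ i ≤ 2t` let `a i = ds x (h^(-t) h^i) = len (h^i)`, `a 0 = 0`,
`a (2t) = ds x z ≥ ds x g - c`, `a (i+1) ≤ a i + len h`. Choose the least `i ≤ 2t` with
`ds x g - c ≤ a i`; then `a i ≤ ds x g + len h` (if `i = 0`: `a 0 = 0`). With `y' = h^(i - t)`: `Bt Q x y' z`
(`qline i (2t - i)`), so by `near` (`c ≥ Q`, `e = len h + c`)
`ds g y' ≤ len h + c + c + d`, and `ds g y' = ds y' g = len (h^(-(i-t)) g)`. `j = i - t`.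
-/

set_option autoImplicit false

open scoped Classical

namespace Pool.Agent.H79.HG

namespace HW

variable {Γ : Type*} [Group Γ] (W : HW Γ)

private theorem P_le (g a b : Γ) : W.p (g⁻¹ * a) (g⁻¹ * b) = W.ds g a + W.ds g b - W.ds a b := by
  have h1 := W.pe (g⁻¹ * a) (g⁻¹ * b)
  rw [W.ds_mul_left] at h1
  show W.p (g⁻¹ * a) (g⁻¹ * b) = W.len (g⁻¹ * a) + W.len (g⁻¹ * b) - W.ds a b
  omega

/-- If `g` conjugates `h ^ t` to `h ^ (± t)` and `h ^ t` is long, `g` is between `h ^ (-t)` and `h ^ t`. -/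
private theorem bt_of_conj {g : Γ} {t : ℕ} {s : ℤ} (hs : s = 1 ∨ s = -1)
    (hg : g⁻¹ * W.h ^ t * g = W.h ^ (s * t)) (ht : W.Q + 2 * W.d + 1 < 2 * W.len (W.h ^ t) - 2 * W.len g) :
    W.Bt (W.Q + 2 * W.d) (W.h ^ t)⁻¹ g (W.h ^ t) := by
  have e1 : g⁻¹ * (W.h ^ t)⁻¹ * g = (W.h ^ (s * t))⁻¹ := by
    rw [← hg]
    group
  have hls : W.len (W.h ^ (s * t)) = W.len (W.h ^ t) := W.len_sg hs t
  -- distances
  have d1 : W.ds g ((W.h ^ t)⁻¹ * g) = W.len (W.h ^ t) := by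
    show W.len (g⁻¹ * ((W.h ^ t)⁻¹ * g)) = _
    rw [← mul_assoc, e1, W.len_inv, hls]
  have d2 : W.ds g (W.h ^ t * g) = W.len (W.h ^ t) := by
    show W.len (g⁻¹ * (W.h ^ t * g)) = _
    rw [← mul_assoc, hg, hls]
  have d3 : W.ds ((W.h ^ t)⁻¹ * g) (W.h ^ t * g) = W.len (W.h ^ (t + t)) := by
    show W.len (((W.h ^ t)⁻¹ * g)⁻¹ * (W.h ^ t * g)) = _
    have : ((W.h ^ t)⁻¹ * g)⁻¹ * (W.h ^ t * g) = (g⁻¹ * W.h ^ t * g) * (g⁻¹ * W.h ^ t * g) := by group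
    rw [this, hg, ← zpow_add, ← mul_add]
    have h := W.len_sg hs (t + t)
    push_cast at h
    exact h
  have d4 : W.ds (W.h ^ t)⁻¹ ((W.h ^ t)⁻¹ * g) = W.len g := W.ds_mul_right _ _
  have d5 : W.ds (W.h ^ t) (W.h ^ t * g) = W.len g := W.ds_mul_right _ _
  have q1 := W.qline t t
  -- products
  have p1 := W.P_le g ((W.h ^ t)⁻¹ * g) (W.h ^ t * g)
  have p2 := W.P_le g ((W.h ^ t)⁻¹ * g) (W.h ^ t)⁻¹
  have p3 := W.P_le g (W.h ^ t)⁻¹ (W.h ^ t * g)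
  have p4 := W.P_le g (W.h ^ t) (W.h ^ t * g)
  have p5 := W.P_le g (W.h ^ t)⁻¹ (W.h ^ t)
  have c1 := W.ds_comm ((W.h ^ t)⁻¹ * g) (W.h ^ t)⁻¹
  have t1 := W.ds_tri g (W.h ^ t)⁻¹ ((W.h ^ t)⁻¹ * g)
  have t2 := W.ds_tri g (W.h ^ t) (W.h ^ t * g)
  have s1 : W.p (g⁻¹ * (W.h ^ t)⁻¹) (g⁻¹ * (W.h ^ t * g)) ≤ W.Q + W.d := by
    by_contra hc
    push Not at hc
    have := W.p_hyp (m := W.Q + W.d + 1) (x := g⁻¹ * ((W.h ^ t)⁻¹ * g)) (y := g⁻¹ * (W.h ^ t)⁻¹)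
      (z := g⁻¹ * (W.h ^ t * g)) (by have := W.hd; omega) (by omega)
    omega
  have s2 : W.p (g⁻¹ * (W.h ^ t)⁻¹) (g⁻¹ * W.h ^ t) ≤ W.Q + 2 * W.d := by
    by_contra hc
    push Not at hc
    have := W.p_hyp (m := W.Q + 2 * W.d + 1) (x := g⁻¹ * (W.h ^ t)⁻¹) (y := g⁻¹ * W.h ^ t)
      (z := g⁻¹ * (W.h ^ t * g)) (by omega) (by omega)
    omega
  unfold Bt
  have c2 := W.ds_comm (W.h ^ t)⁻¹ g
  omega

theorem near_line : ∃ ε₀ : ℤ, ∀ g ∈ Ei W.h, ∃ j : ℤ, W.len (W.h ^ (-j) * g) ≤ ε₀ := by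
  refine ⟨W.len W.h + 2 * (W.Q + 2 * W.d) + W.d, ?_⟩
  rintro g ⟨n, hn, hgn⟩
  obtain ⟨s, hs, hgs⟩ : ∃ s : ℤ, (s = 1 ∨ s = -1) ∧ g⁻¹ * W.h ^ n * g = W.h ^ (s * n) := by
    rcases hgn with h | h
    · exact ⟨1, Or.inl rfl, by rw [h, one_mul, zpow_natCast]⟩
    · exact ⟨-1, Or.inr rfl, by rw [h, neg_one_mul, zpow_neg, zpow_natCast]⟩
  obtain ⟨k, hk⟩ := W.grow (W.Q + 2 * W.d + 2 + 2 * W.len g + W.len g)
  set t := n * k with ht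
  have hkt : k ≤ t := Nat.le_mul_of_pos_left _ hn
  have hgt : g⁻¹ * W.h ^ t * g = W.h ^ (s * t) := by
    have e : g⁻¹ * W.h ^ t * g = (g⁻¹ * W.h ^ n * g) ^ k := by
      rw [ht, pow_mul]
      have := conj_pow (a := g⁻¹) (b := W.h ^ n) (i := k)
      rw [inv_inv] at this
      exact this.symm
    rw [e, hgs, ← zpow_natCast, ← zpow_mul, ht]
    congr 1
    push_cast
    ring
  have hlt := hk t hkt
  have hl0 := W.len_nonneg g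
  have hd0 := W.hd
  have hQ0 := W.hQ0
  have hb := W.bt_of_conj hs hgt (by omega)
  -- the least `i` with `ds x g - c ≤ len (h ^ i)`
  have hex : ∃ i : ℕ, W.ds (W.h ^ t)⁻¹ g - (W.Q + 2 * W.d) ≤ W.len (W.h ^ i) := by
    refine ⟨t + t, ?_⟩
    have h1 : W.ds (W.h ^ t)⁻¹ (W.h ^ t) = W.len (W.h ^ (t + t)) := by
      show W.len (((W.h ^ t)⁻¹)⁻¹ * W.h ^ t) = _
      rw [inv_inv, pow_add]
    have h2 := W.ds_nonneg g (W.h ^ t)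
    unfold Bt at hb
    omega
  have hle : Nat.find hex ≤ t + t := by
    refine Nat.find_min' hex ?_
    have h1 : W.ds (W.h ^ t)⁻¹ (W.h ^ t) = W.len (W.h ^ (t + t)) := by
      show W.len (((W.h ^ t)⁻¹)⁻¹ * W.h ^ t) = _
      rw [inv_inv, pow_add]
    have h2 := W.ds_nonneg g (W.h ^ t)
    unfold Bt at hb
    omega
  set i := Nat.find hex with hi
  have hi1 : W.ds (W.h ^ t)⁻¹ g - (W.Q + 2 * W.d) ≤ W.len (W.h ^ i) := Nat.find_spec hex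
  have hi2 : W.len (W.h ^ i) ≤ W.ds (W.h ^ t)⁻¹ g + W.len W.h := by
    rcases Nat.eq_zero_or_pos i with h0 | h0
    · rw [h0, pow_zero, W.len_one]
      have h1 := W.ds_nonneg (W.h ^ t)⁻¹ g
      have h2 := W.len_nonneg W.h
      omega
    · have h1 := Nat.find_min hex (m := i - 1) (by omega)
      push Not at h1
      have h2 := W.len_mul (W.h ^ (i - 1)) W.h
      rw [← pow_succ, Nat.sub_add_cancel h0] at h2
      omega
  -- the point `y = h ^ (i - t)`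
  have hy : W.Bt (W.Q + 2 * W.d) (W.h ^ t)⁻¹ ((W.h ^ t)⁻¹ * W.h ^ i) (W.h ^ t) := by
    have h1 : W.ds (W.h ^ t)⁻¹ ((W.h ^ t)⁻¹ * W.h ^ i) = W.len (W.h ^ i) := W.ds_mul_right _ _
    have h2 : W.ds ((W.h ^ t)⁻¹ * W.h ^ i) (W.h ^ t) = W.len (W.h ^ (t + t - i)) := by
      show W.len (((W.h ^ t)⁻¹ * W.h ^ i)⁻¹ * W.h ^ t) = _
      congr 1
      have : W.h ^ (t + t) = W.h ^ i * W.h ^ (t + t - i) := by
        rw [← pow_add, Nat.add_sub_cancel' hle]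
      rw [mul_inv_rev, inv_inv, mul_assoc, ← pow_add, this, inv_mul_cancel_left]
    have h3 : W.ds (W.h ^ t)⁻¹ (W.h ^ t) = W.len (W.h ^ (t + t)) := by
      show W.len (((W.h ^ t)⁻¹)⁻¹ * W.h ^ t) = _
      rw [inv_inv, pow_add]
    have h4 := W.len_sub hle
    unfold Bt
    omega
  have hnear := W.near (e := W.len W.h + (W.Q + 2 * W.d)) hb hy (by
      have h1 : W.ds (W.h ^ t)⁻¹ ((W.h ^ t)⁻¹ * W.h ^ i) = W.len (W.h ^ i) := W.ds_mul_right _ _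
      have h2 := W.len_nonneg W.h
      omega) (by
      have h1 : W.ds (W.h ^ t)⁻¹ ((W.h ^ t)⁻¹ * W.h ^ i) = W.len (W.h ^ i) := W.ds_mul_right _ _
      omega)
  refine ⟨(i : ℤ) - t, ?_⟩
  have e : W.ds g ((W.h ^ t)⁻¹ * W.h ^ i) = W.len (W.h ^ (-((i : ℤ) - t)) * g) := by
    rw [W.ds_comm]
    show W.len (((W.h ^ t)⁻¹ * W.h ^ i)⁻¹ * g) = _
    congr 2
    rw [mul_inv_rev, inv_inv, neg_sub, zpow_sub, zpow_natCast, zpow_natCast]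
    exact ((Commute.refl W.h).pow_pow i t).inv_left.eq
  rw [← e]
  omega

end HW

end Pool.Agent.H79.HG
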