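import Pool.Agent.H79.HG.Adjac
import Pool.Agent.H79.HG.Fam

/-!
# Module OVMAIN [H79 HG]: the overlap lemma

PROOF (II.12). `c = B2 + 2d`. `C₂, n₁` from `match_vertex c`, `n₂` from `adjacent C₂`, `M₀` from
`same_block C₂`, `n₃, M₁` from `commute C₂`; `n₀ = max`. Let `s j = val ((F a).take j)`,
`V k = g * val ((F b).take k)`. For `j₀ + 1 ≤ j ≤ j₀ + q + 2` `match_vertex` gives `k j ≤ (F b).length` with
`ds (s j) (V (k j)) ≤ C₂` (choose). For `j₀ + 1 ≤ j ≤ j₀ + q + 1`: `k (j+1) = k j + 1` or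
`k j = k (j+1) + 1` (`adjacent`), and `same_block` (with the smaller one) gives `a = b` and
`j = min (k j) (k (j+1))`. Subst `a = b`. For `j₀ + 1 ≤ j ≤ j₀ + q` also `j + 1 = min (k (j+1)) (k (j+2))`, so
`k (j+1) ≥ j + 1`, `k j = j`, `k (j+1) = j + 1`. So `k j = j` for `j₀ + 1 ≤ j ≤ j₀ + q + 1`, i.e.
`b j := (s j)⁻¹ g (s j)` has `len (b j) = ds (s j) (g s j) ≤ C₂`. For `j₀ + 1 ≤ j ≤ j₀ + q`, `x = (F a)[j]`:
`s (j+1) = s j * w x.1 x.2` (`take_step`), so `b (j+1) = (w x)⁻¹ (b j) (w x)`; `commute`: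
`b (j+1) = b j`, `(x x.1)⁻¹ (b j) (x x.1) ∈ Ei h`. So all `b j` are equal to `β = b (j₀+1)`, and by
`cover` (with `j = j₀ + 1`) `(x i)⁻¹ β (x i) ∈ Ei h` for all `i`: `β ∈ K` (`hK`), `g = s β s⁻¹ ∈ K`
(`Kn.conj_mem`).
-/

set_option autoImplicit false

open scoped Classical

namespace Pool.Agent.H79.HG

namespace LD

variable {Γ : Type*} [Group Γ] (L : LD Γ)

theorem overlap_main : ∃ n₀ M₀ M₁ : ℕ, 1 ≤ M₁ ∧ ∀ (n M : ℕ) (ι : Type)
    (F : ι → List (Fin L.q × ℕ)), n₀ ≤ n → M₀ ≤ M → M₁ ∣ M → L.Fam n M F →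
    ∀ (a b : ι) (g : Γ) (j₀ : ℕ), F b ≠ [] → j₀ + (L.q + 3) ≤ (F a).length →
    (∀ j, j₀ ≤ j → j ≤ j₀ + (L.q + 3) →
      L.W.Bt (L.B2 + 2 * L.W.d) g (L.val ((F a).take j)) (g * L.val (F b))) →
    a = b ∧ g ∈ L.K := by
  obtain ⟨C₂, n₁, hmv⟩ := L.match_vertex (L.B2 + 2 * L.W.d)
  obtain ⟨n₂, hadj⟩ := L.adjacent C₂
  obtain ⟨M₀, hsb⟩ := L.same_block C₂
  obtain ⟨n₃, M₁, hM₁, hcom⟩ := L.commute C₂
  refine ⟨max n₁ (max n₂ n₃), M₀, M₁, hM₁, ?_⟩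
  intro n M ι F hn hM hdiv hF a b g j₀ hFb hlen hBt
  have hn1 : n₁ ≤ n := by omega
  have hn2 : n₂ ≤ n := by omega
  have hn3 : n₃ ≤ n := by omega
  have hex : ∀ j, ∃ k, j₀ + 1 ≤ j → j ≤ j₀ + L.q + 2 → k ≤ (F b).length ∧
      L.W.ds (L.val ((F a).take j)) (g * L.val ((F b).take k)) ≤ C₂ := by
    intro j
    by_cases hj : j₀ + 1 ≤ j ∧ j ≤ j₀ + L.q + 2
    · obtain ⟨k, hk1, hk2⟩ := hmv (F a) (F b) g j ((hF.gd a).mono hn1) ((hF.gd b).mono hn1) hFb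
        (by omega) (by omega) (fun k h1 h2 => hBt k (by omega) (by omega))
      exact ⟨k, fun _ _ => ⟨hk1, hk2⟩⟩
    · exact ⟨0, fun h1 h2 => absurd ⟨h1, h2⟩ hj⟩
  choose k hk using hex
  have hdich : ∀ j, j₀ + 1 ≤ j → j ≤ j₀ + L.q + 1 →
      a = b ∧ ((k j = j ∧ k (j + 1) = j + 1) ∨ (k (j + 1) = j ∧ k j = j + 1)) := by
    intro j h1 h2
    obtain ⟨a1, a2⟩ := hk j h1 (by omega)
    obtain ⟨b1, b2⟩ := hk (j + 1) (by omega) (by omega)
    rcases hadj (F a) (F b) g j (k j) (k (j + 1)) ((hF.gd a).mono hn2) ((hF.gd b).mono hn2)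
      (by omega) a1 b1 a2 b2 with h3 | h3
    · have h4 := hsb n M ι F hM hF a b g j (k j) (by omega) (by omega)
        (Or.inl ⟨a2, by rw [← h3]; exact b2⟩)
      exact ⟨h4.1, Or.inl ⟨h4.2.symm, by omega⟩⟩
    · have h4 := hsb n M ι F hM hF a b g j (k (j + 1)) (by omega) (by omega)
        (Or.inr ⟨by rw [← h3]; exact a2, b2⟩)
      exact ⟨h4.1, Or.inr ⟨h4.2.symm, by omega⟩⟩
  have hab : a = b := (hdich (j₀ + 1) le_rfl (by omega)).1
  subst hab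
  refine ⟨rfl, ?_⟩
  have hkj : ∀ j, j₀ + 1 ≤ j → j ≤ j₀ + L.q + 1 → k j = j := by
    have h0 : ∀ j, j₀ + 1 ≤ j → j ≤ j₀ + L.q → k j = j ∧ k (j + 1) = j + 1 := by
      intro j h1 h2
      rcases (hdich j h1 (by omega)).2 with h3 | h3
      · exact h3
      · rcases (hdich (j + 1) (by omega) (by omega)).2 with h4 | h4 <;> omega
    intro j h1 h2
    rcases Nat.lt_or_ge j (j₀ + L.q + 1) with h3 | h3
    · exact (h0 j h1 (by omega)).1
    · have hq := L.hq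
      have h4 := (h0 (j - 1) (by omega) (by omega)).2
      have h5 : j - 1 + 1 = j := by omega
      rw [h5] at h4
      exact h4
  let β : ℕ → Γ := fun j => (L.val ((F a).take j))⁻¹ * (g * L.val ((F a).take j))
  have hβlen : ∀ j, j₀ + 1 ≤ j → j ≤ j₀ + L.q + 1 → L.W.len (β j) ≤ C₂ := by
    intro j h1 h2
    have h3 := (hk j h1 (by omega)).2
    rw [hkj j h1 h2] at h3
    exact h3
  have hstep : ∀ j (hj : j < (F a).length), j₀ + 1 ≤ j → j ≤ j₀ + L.q →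
      β (j + 1) = β j ∧ (L.x ((F a)[j]).1)⁻¹ * β j * L.x ((F a)[j]).1 ∈ Ei L.W.h := by
    intro j hj h1 h2
    have h3 := L.take_step (F a) hj
    have h4 : β (j + 1) = (L.w ((F a)[j]).1 ((F a)[j]).2)⁻¹ * β j * L.w ((F a)[j]).1 ((F a)[j]).2 := by
      show (L.val ((F a).take (j + 1)))⁻¹ * (g * L.val ((F a).take (j + 1))) = _
      rw [h3]
      show _ = _ * ((L.val ((F a).take j))⁻¹ * (g * L.val ((F a).take j))) * _
      group
    have hmem : (F a)[j] ∈ F a := List.getElem_mem hj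
    have h5 := hcom ((F a)[j]).1 ((F a)[j]).2 (β j) (hn3.trans ((hF.gd a).1 _ hmem))
      (hdiv.trans (hF.div a _ hmem)) (hβlen j h1 (by omega))
      (by rw [← h4]; exact hβlen (j + 1) (by omega) (by omega))
    rw [← h4] at h5
    exact h5
  have hconst : ∀ i, i ≤ L.q → β (j₀ + 1 + i) = β (j₀ + 1) := by
    intro i
    induction i with
    | zero => intro _; rfl
    | succ i ih =>
      intro hi
      have h1 := (hstep (j₀ + 1 + i) (by omega) (by omega) (by omega)).1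
      rw [← Nat.add_assoc, h1]
      exact ih (by omega)
  have hβK : β (j₀ + 1) ∈ L.K := by
    refine L.hK _ (fun i => ?_)
    obtain ⟨k', hk', h1, h2, h3⟩ := hF.cover a (j₀ + 1) (by omega) i
    have h4 := (hstep k' hk' h1 (by omega)).2
    obtain ⟨t, rfl⟩ : ∃ t, k' = j₀ + 1 + t := ⟨k' - (j₀ + 1), by omega⟩
    rw [h3, hconst t (by omega)] at h4
    exact h4
  have h5 := L.Kn.conj_mem _ hβK (L.val ((F a).take (j₀ + 1)))
  have h6 : L.val ((F a).take (j₀ + 1)) * β (j₀ + 1) * (L.val ((F a).take (j₀ + 1)))⁻¹ = g := by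
    show _ * ((L.val ((F a).take (j₀ + 1)))⁻¹ * (g * L.val ((F a).take (j₀ + 1)))) * _ = g
    group
  rw [h6] at h5
  exact h5

end LD

end Pool.Agent.H79.HG
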