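import Pool.Agent.H79.HG.Defs

/-!
# Module QLINE [H79 HG]: powers of a loxodromic element form a quasi-line

Self-contained (only `gp` from HT/Defs). PROOF (II.1). `a n = len (h^n)`, `p x y = gp len x y`.
(1) There is `n ≥ 1` with `a (2n) > a n + 3d`: otherwise `a (2^r) ≤ a 1 + 3 d r` for all `r`
(induction), but `a (2^r) ≥ c 2^r - c'`, a contradiction for large `r` (e.g. `r` with
`c 2^r > c' + a 1 + 3 d r`; exponential against linear).
(2) `g = h^n`, `ℓ = len g`, `q = p g⁻¹ g = 2ℓ - a (2n) < ℓ - 3d` (`gp len g⁻¹ g = len g⁻¹ + len g -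
len (g g)`), `q ≥ 0`. For `k ≥ 1`: `p (g^k) g ≥ 2ℓ - q - d` and `p g⁻¹ (g^k) ≤ q + d`, by induction: for
`k + 1`: `len (g^(k+1)) = len g + len (g^k) - p g⁻¹ (g^k)`, `p (g^(k+1)) g = len (g^(k+1)) + ℓ - len (g^k)
= 2ℓ - p g⁻¹ (g^k) ≥ 2ℓ - q - d`; if `p g⁻¹ (g^(k+1)) ≥ q + d + 1` then (`2ℓ - q - d ≥ q + d + 1`)
`q + d + 1 ≤ p g⁻¹ g + d = q + d` by `hyp`. The same for `g⁻¹` instead of `g`
(`p g g⁻¹ = q`): `p g (g⁻¹)^j ≤ q + d`.
(3) `p (g⁻¹)^j (g^k) ≤ q + 2d` for `j, k ≥ 1`: otherwise `q + 2d + 1 ≤ p (g⁻¹)^j (g^k)`,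
`q + 2d + 1 ≤ 2ℓ - q - d ≤ p (g^k) g` (`2q + 3d < 2ℓ`), so `q + 2d + 1 ≤ p (g⁻¹)^j g + d ≤ q + 2d`. So
`a (n j) + a (n k) - a (n (j + k)) ≤ q + 2d` (also if `j = 0` or `k = 0`).
(4) General `i, j`: `i = n i' + r`, `j = n j' + r'`, `r, r' < n`; `a i ≤ a (n i') + a r`,
`a (n (i' + j')) ≤ a (i + j) + a (r + r')` (`h^(n(i'+j')) = h^(i+j) h^(-(r+r'))`), all `a r ≤ n len h` for
`r < 2n` is bounded by `2 n len h`: `Q = q + 2d + 8 n len h`.
-/

set_option autoImplicit false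

open scoped Classical

namespace Pool.Agent.H79.HG

open HT (gp)

section aux

variable {Γ : Type*} [Group Γ] {len : Γ → ℤ} {d : ℤ}

private theorem gp_comm' (len_inv : ∀ x, len x⁻¹ = len x) (x y : Γ) : gp len x y = gp len y x := by
  unfold gp
  have : len (x⁻¹ * y) = len (y⁻¹ * x) := by
    rw [← len_inv (x⁻¹ * y)]
    congr 1
    group
  rw [this]
  ring

private theorem stepA (hd : 0 ≤ d) (len_one : len 1 = 0) (len_inv : ∀ x, len x⁻¹ = len x)
    (hyp : ∀ x y z, gp len x y ≤ gp len x z + d ∨ gp len y z ≤ gp len x z + d) (g : Γ)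
    (hq0 : 0 ≤ gp len g⁻¹ g) (hq : 2 * gp len g⁻¹ g + 3 * d < 2 * len g) (k : ℕ) :
    gp len g⁻¹ (g ^ (k + 1)) ≤ gp len g⁻¹ g + d ∧
      2 * len g - gp len g⁻¹ g - d ≤ gp len (g ^ (k + 1)) g := by
  induction k with
  | zero =>
    constructor
    · rw [zero_add, pow_one]
      omega
    · have h1 : gp len (g ^ (0 + 1)) g = 2 * len g := by
        unfold gp
        rw [zero_add, pow_one, inv_mul_cancel, len_one]
        ring
      omega
  | succ k ih =>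
    obtain ⟨ih1, ih2⟩ := ih
    have e1 : gp len (g ^ (k + 1 + 1)) g = 2 * len g - gp len g⁻¹ (g ^ (k + 1)) := by
      unfold gp
      have a1 : (g ^ (k + 1 + 1))⁻¹ * g = (g ^ (k + 1))⁻¹ := by
        rw [pow_succ' g (k + 1)]
        have : (g * g ^ (k + 1))⁻¹ * g = (g ^ (k + 1))⁻¹ := by group
        exact this
      have a2 : (g⁻¹)⁻¹ * g ^ (k + 1) = g ^ (k + 1 + 1) := by
        rw [inv_inv, pow_succ' g (k + 1)]
      rw [a1, a2, len_inv, len_inv]
      ring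
    have e2 : 2 * len g - gp len g⁻¹ g - d ≤ gp len (g ^ (k + 1 + 1)) g := by omega
    refine ⟨?_, e2⟩
    rcases hyp g⁻¹ (g ^ (k + 1 + 1)) g with h | h
    · exact h
    · omega

private theorem stepB (hd : 0 ≤ d) (len_one : len 1 = 0) (len_inv : ∀ x, len x⁻¹ = len x)
    (hyp : ∀ x y z, gp len x y ≤ gp len x z + d ∨ gp len y z ≤ gp len x z + d) (g : Γ)
    (hq0 : 0 ≤ gp len g⁻¹ g) (hq : 2 * gp len g⁻¹ g + 3 * d < 2 * len g) (j k : ℕ) :
    len (g ^ j) + len (g ^ k) ≤ len (g ^ (j + k)) + (gp len g⁻¹ g + 2 * d) := by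
  rcases Nat.eq_zero_or_pos j with hj | hj
  · subst hj
    simp only [zero_add, pow_zero, len_one]
    omega
  rcases Nat.eq_zero_or_pos k with hk | hk
  · subst hk
    simp only [add_zero, pow_zero, len_one]
    omega
  obtain ⟨j, rfl⟩ : ∃ j', j = j' + 1 := ⟨j - 1, by omega⟩
  obtain ⟨k, rfl⟩ : ∃ k', k = k' + 1 := ⟨k - 1, by omega⟩
  have e0 : gp len (g⁻¹)⁻¹ g⁻¹ = gp len g⁻¹ g := by
    rw [inv_inv]
    exact gp_comm' len_inv _ _
  have h1 := (stepA hd len_one len_inv hyp g⁻¹ (by rw [e0]; exact hq0)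
    (by rw [e0, len_inv]; exact hq) j).1
  rw [e0, inv_inv, gp_comm' len_inv] at h1
  have h2 := (stepA hd len_one len_inv hyp g hq0 hq k).2
  have h3 : gp len (g⁻¹ ^ (j + 1)) (g ^ (k + 1)) ≤ gp len g⁻¹ g + 2 * d := by
    rcases hyp (g⁻¹ ^ (j + 1)) (g ^ (k + 1)) g with h | h
    · omega
    · omega
  have h4 : gp len (g⁻¹ ^ (j + 1)) (g ^ (k + 1)) =
      len (g ^ (j + 1)) + len (g ^ (k + 1)) - len (g ^ (j + 1 + (k + 1))) := by
    unfold gp
    rw [inv_pow, inv_inv, len_inv, ← pow_add]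
  omega

end aux

theorem exists_qline {Γ : Type*} [Group Γ] (len : Γ → ℤ) (d : ℤ) (hd : 0 ≤ d)
    (len_one : len 1 = 0) (len_inv : ∀ x, len x⁻¹ = len x)
    (len_mul : ∀ x y, len (x * y) ≤ len x + len y)
    (hyp : ∀ x y z, gp len x y ≤ gp len x z + d ∨ gp len y z ≤ gp len x z + d) (h : Γ)
    (c c' : ℝ) (hc : 0 < c) (hlin : ∀ n : ℕ, c * n - c' ≤ len (h ^ n)) :
    ∃ Q : ℤ, 0 ≤ Q ∧ ∀ i j : ℕ, len (h ^ i) + len (h ^ j) ≤ len (h ^ (i + j)) + Q := by
  have hnn : ∀ x : Γ, 0 ≤ len x := by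
    intro x
    have h1 := len_mul x x⁻¹
    rw [mul_inv_cancel, len_one, len_inv] at h1
    omega
  have hpow : ∀ r : ℕ, len (h ^ r) ≤ r * len h := by
    intro r
    induction r with
    | zero => simp [len_one]
    | succ r ih =>
      rw [pow_succ]
      have h1 := len_mul (h ^ r) h
      push_cast
      nlinarith
  -- (1)
  obtain ⟨n, hn1, hn2⟩ : ∃ n : ℕ, 1 ≤ n ∧ len (h ^ n) + 3 * d < len (h ^ (2 * n)) := by
    by_contra hcon
    push Not at hcon
    have hind : ∀ r : ℕ, len (h ^ (2 ^ r)) ≤ len h + 3 * d * r := by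
      intro r
      induction r with
      | zero => simp
      | succ r ih =>
        have h1 := hcon (2 ^ r) (Nat.one_le_two_pow)
        rw [pow_succ, mul_comm (2 ^ r) 2]
        push_cast
        nlinarith
    obtain ⟨s, hs⟩ := exists_nat_gt ((6 * (d : ℝ) + |c' + len h| + 1) / c)
    have h1 := hind (2 * s)
    have h2 := hlin (2 ^ (2 * s))
    have h3 : ((s : ℝ) + 1) ^ 2 ≤ (2 : ℝ) ^ (2 * s) := by
      have h4 : (s : ℝ) + 1 ≤ (2 : ℝ) ^ s := by
        have h5 : s + 1 ≤ 2 ^ s := Nat.lt_two_pow_self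
        exact_mod_cast h5
      rw [mul_comm 2 s, pow_mul]
      exact pow_le_pow_left₀ (by positivity) h4 2
    have h6 : (len (h ^ (2 ^ (2 * s))) : ℝ) ≤ len h + 3 * d * (2 * s) := by
      exact_mod_cast h1
    have h7 : 6 * (d : ℝ) + |c' + len h| + 1 < c * s := by
      rw [div_lt_iff₀ hc] at hs
      linarith
    have h8 : (0 : ℝ) ≤ d := by exact_mod_cast hd
    have h9 := le_abs_self (c' + (len h : ℝ))
    have h10 : c * ((s : ℝ) + 1) ^ 2 ≤ c * (2 : ℝ) ^ (2 * s) := mul_le_mul_of_nonneg_left h3 hc.le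
    have h11 : (0 : ℝ) ≤ s := Nat.cast_nonneg s
    have h12 : (0 : ℝ) ≤ |c' + len h| := abs_nonneg _
    push_cast at h2
    have h13 : (s + 1) * (6 * (d : ℝ) + |c' + len h| + 1) ≤ (s + 1) * (c * s) :=
      mul_le_mul_of_nonneg_left h7.le (by linarith)
    nlinarith [mul_nonneg h11 h12, mul_nonneg h11 h8, mul_nonneg hc.le h11]
  -- (2), (3)
  have hq : gp len (h ^ n)⁻¹ (h ^ n) = 2 * len (h ^ n) - len (h ^ (2 * n)) := by
    unfold gp
    rw [inv_inv, len_inv, ← pow_add, two_mul n]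
    ring
  have hq0 : 0 ≤ gp len (h ^ n)⁻¹ (h ^ n) := by
    rw [hq, two_mul n, pow_add]
    have := len_mul (h ^ n) (h ^ n)
    omega
  have hB := stepB hd len_one len_inv hyp (h ^ n) hq0 (by rw [hq]; omega)
  refine ⟨gp len (h ^ n)⁻¹ (h ^ n) + 2 * d + 4 * n * len h, by
    have := hnn h
    positivity, ?_⟩
  intro i j
  have hi := Nat.div_add_mod i n
  have hj := Nat.div_add_mod j n
  have hri : i % n < n := Nat.mod_lt _ hn1
  have hrj : j % n < n := Nat.mod_lt _ hn1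
  have h1 : len (h ^ i) ≤ len ((h ^ n) ^ (i / n)) + len (h ^ (i % n)) := by
    conv_lhs => rw [← hi, pow_add, pow_mul]
    exact len_mul _ _
  have h2 : len (h ^ j) ≤ len ((h ^ n) ^ (j / n)) + len (h ^ (j % n)) := by
    conv_lhs => rw [← hj, pow_add, pow_mul]
    exact len_mul _ _
  have h3 := hB (i / n) (j / n)
  have h4 : len ((h ^ n) ^ (i / n + j / n)) ≤ len (h ^ (i + j)) + len (h ^ (i % n + j % n)) := by
    have e : (h ^ n) ^ (i / n + j / n) = h ^ (i + j) * (h ^ (i % n + j % n))⁻¹ := by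
      rw [eq_mul_inv_iff_mul_eq, ← pow_mul, ← pow_add]
      congr 1
      rw [mul_add]
      omega
    rw [e]
    have := len_mul (h ^ (i + j)) (h ^ (i % n + j % n))⁻¹
    rw [len_inv] at this
    exact this
  have h5 := hpow (i % n)
  have h6 := hpow (j % n)
  have h7 := hpow (i % n + j % n)
  have h8 := hnn h
  have h9 : ((i % n : ℕ) : ℤ) * len h ≤ n * len h :=
    mul_le_mul_of_nonneg_right (by exact_mod_cast hri.le) h8
  have h10 : ((j % n : ℕ) : ℤ) * len h ≤ n * len h :=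
    mul_le_mul_of_nonneg_right (by exact_mod_cast hrj.le) h8
  rw [Nat.cast_add, add_mul] at h7
  linarith

end Pool.Agent.H79.HG
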