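import Pool.Agent.H79.HG.Words
import Pool.Agent.H79.HG.LocGlob

/-!
# Module VERT [H79 HG]: the vertices and the points on the blocks of a good word

PROOFS (II.8). `vert`: `n₀` from `w_large (B2 + 1)`. `W.junction` with the lists
`(u.map f), (v.map f)`, `f a = w a.1 a.2` (`List.map_append`, `isChain_map`: the relation
`p (f a)⁻¹ (f b) ≤ B` follows from `a.1 ≠ b.1` by `hB`; `List.IsChain.imp`).
`vert_between`: `ds (val u) (val (u ++ v)) = len (val v)` (`val_append`, `ds_mul_right`),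
`ds (val (u ++ v)) (val (u ++ v ++ t)) = len (val t)`, `ds (val u) (val (u ++ v ++ t)) =
len (val v * val t)`, and `pe (val v)⁻¹ (val t)`: `len (val v * val t) = len (val v) + len (val t) -
p (val v)⁻¹ (val t)` (`inv_inv`, `len_inv`), `vert` for `v ++ t`.
`block_between`: `y = val u * x i * h^r`. `ds (val u) y = len (x i * h^r) ≤ C + len (h^r)`,
`ds y (val u * w i m) = len (h^(m-r) * (x i)⁻¹) ≤ len (h^(m-r)) + C`, `ds (val u) (val u * w i m) =
len (w i m) ≥ len (h^m) - 2C` (`len_w`), `len_sub`: the sum is `≤ len (w i m) + Q + 4C`.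
`block_pt`: `Bt (Q + 4C) (val u) y (val (u ++ [(i,m)]))`, `Bt B2 1 (val u) (val (u ++ [(i,m)]))`,
`Bt B2 1 (val (u ++ [(i,m)])) (val l)` (`vert_between` with `[] , u, [(i,m)]` and with
`[], u ++ [(i,m)], v`); nesting only uses the triangle inequality:
`ds 1 y + ds y V' ≤ ds 1 V + ds V y + ds y V' ≤ ds 1 V + ds V V' + Q + 4C ≤ ds 1 V' + B2 + Q + 4C`, and
`ds y z ≤ ds y V' + ds V' z` for `z = val l`.
-/

set_option autoImplicit false

open scoped Classical

namespace Pool.Agent.H79.HG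

namespace LD

variable {Γ : Type*} [Group Γ] (L : LD Γ)

theorem vert : ∃ n₀ : ℕ, ∀ u v : List (Fin L.q × ℕ), L.Gd n₀ (u ++ v) →
    L.W.p (L.val u)⁻¹ (L.val v) ≤ L.B2 := by
  obtain ⟨n₀, h⟩ := L.w_large (L.B2 + 1)
  refine ⟨n₀, fun u v hG => ?_⟩
  have h1 := L.W.junction L.hB0 (u.map (fun a => L.w a.1 a.2)) (v.map (fun a => L.w a.1 a.2)) (by
    rw [← List.map_append, List.isChain_map]
    refine hG.2.imp ?_
    intro a b hab
    exact L.hB a.1 b.1 hab a.2 b.2) (by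
    intro a ha
    rw [← List.map_append] at ha
    obtain ⟨b, hb, rfl⟩ := List.mem_map.1 ha
    have h2 := h b.1 b.2 (hG.1 b hb)
    unfold B2 at h2
    show L.B + 2 * L.W.d < L.W.len (L.w b.1 b.2)
    omega)
  exact h1

theorem vert_between : ∃ n₀ : ℕ, ∀ u v t : List (Fin L.q × ℕ), L.Gd n₀ (u ++ v ++ t) →
    L.W.Bt L.B2 (L.val u) (L.val (u ++ v)) (L.val (u ++ v ++ t)) := by
  obtain ⟨n₀, h⟩ := L.vert
  refine ⟨n₀, fun u v t hG => ?_⟩
  have hG' : L.Gd n₀ (v ++ t) := by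
    rw [List.append_assoc] at hG
    exact hG.right
  have h1 := h v t hG'
  have h2 := L.W.pe (L.val v)⁻¹ (L.val t)
  unfold HW.ds at h2
  rw [inv_inv, L.W.len_inv] at h2
  unfold HW.Bt
  rw [L.val_append (u ++ v) t, L.val_append u v, L.W.ds_mul_right, L.W.ds_mul_right, mul_assoc,
    L.W.ds_mul_right]
  omega

theorem block_between (y₀ : Γ) (i : Fin L.q) {m r : ℕ} (hr : r ≤ m) :
    L.W.Bt (L.W.Q + 4 * L.C) y₀ (y₀ * L.x i * L.W.h ^ r) (y₀ * L.w i m) := by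
  unfold HW.Bt
  have h1 := L.W.len_mul (L.x i) (L.W.h ^ r)
  have h2 := L.W.len_mul (L.W.h ^ (m - r)) (L.x i)⁻¹
  rw [L.W.len_inv] at h2
  have h3 := L.hC i
  have h4 := L.W.len_sub hr
  have h5 := (L.len_w i m).2
  have e1 : y₀ * L.w i m = y₀ * L.x i * L.W.h ^ r * (L.W.h ^ (m - r) * (L.x i)⁻¹) := by
    have e2 : L.W.h ^ m = L.W.h ^ r * L.W.h ^ (m - r) := by
      rw [← pow_add]
      congr 1
      omega
    unfold w
    rw [e2]
    group
  have e3 : L.W.ds (y₀ * L.x i * L.W.h ^ r) (y₀ * L.w i m) = L.W.len (L.W.h ^ (m - r) * (L.x i)⁻¹) := by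
    rw [e1, L.W.ds_mul_right]
  rw [e3, L.W.ds_mul_right, mul_assoc, L.W.ds_mul_right]
  omega

theorem block_pt : ∃ n₀ : ℕ, ∀ (u v : List (Fin L.q × ℕ)) (i : Fin L.q) (m : ℕ),
    L.Gd n₀ (u ++ (i, m) :: v) → ∀ r, r ≤ m →
    L.W.Bt L.B3 1 (L.val u * L.x i * L.W.h ^ r) (L.val (u ++ (i, m) :: v)) := by
  obtain ⟨n₀, h⟩ := L.vert_between
  refine ⟨n₀, fun u v i m hG r hr => ?_⟩
  have e1 : u ++ (i, m) :: v = u ++ [(i, m)] ++ v := by simp
  have hG2 : L.Gd n₀ (u ++ [(i, m)] ++ v) := by rw [← e1]; exact hG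
  have k1 := L.block_between (L.val u) i hr
  have k2 := h [] u [(i, m)] (by rw [List.nil_append]; exact hG2.left)
  have k3 := h [] (u ++ [(i, m)]) v (by rw [List.nil_append]; exact hG2)
  rw [List.nil_append, val_nil] at k2 k3
  have e2 : L.val (u ++ [(i, m)]) = L.val u * L.w i m := by
    rw [L.val_append, L.val_singleton]
  rw [e2] at k2 k3
  rw [e1]
  unfold HW.Bt at k1 k2 k3 ⊢
  have t1 := L.W.ds_tri 1 (L.val u) (L.val u * L.x i * L.W.h ^ r)
  have t2 := L.W.ds_tri (L.val u * L.x i * L.W.h ^ r) (L.val u * L.w i m) (L.val (u ++ [(i, m)] ++ v))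
  unfold B3
  omega

end LD

end Pool.Agent.H79.HG
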