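import Pool.Agent.H79.HG.Defs

/-!
# Module ZONE [H79 HG]: points on `[1, s]` between the projections of `a` and `b`

PROOF (II.9). `v` is a point with `p v s ≥ 2 len v - B₂`. Let `c₀ = B₂ + 2d + 1`.
(1) `p a v ≥ p a s - d`: `p_hyp` for `a, s, v` with `m = p a s` (`p s v ≥ 2 len v - B₂ > p a s`).
(2) `pe` for the pairs: `ds a v = len a + len v - p a v`, `ds v s = len v + len s - p v s`,
`ds a s = len a + len s - p a s`. `P(v; a, s) := ds a v + ds v s - ds a s = 2 len v - p v s - p a v + p a s
≤ B₂ + d`. `P(v; b, s) := ds b v + ds v s - ds b s = 2 len v - p v s - p b v + p b s ≥ p b s - p b v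
≥ p b s - 2 len v > c₀` (`p v s ≤ 2 len v`, `p b v ≤ 2 len v`).
(3) The four point inequality with base point `v` (`four a v ... `): `four` for `a, v, b, s` (`x = a`,
`y = v`, `z = b`, `w = s`): `ds a b + ds v s ≤ ds a v + ds b s + d` or `≤ ds a s + ds v b + d`... we want an
upper bound for `P(v; a, b) = ds a v + ds v b - ds a b`: apply `p_hyp` to `v⁻¹ a, v⁻¹ b, v⁻¹ s`, or `four`
with `x = a, y = b, z = s, w = v`: `ds a s + ds b v ≤ ds a b + ds s v + d` or
`≤ ds a v + ds b s + d`. The second says `P(v; b, s) ≤ P(v; a, s) + d` (add `ds v s` to both sides), false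
because `c₀ > B₂ + 2d`. The first says `P(v; a, b) ≤ P(v; a, s) + d ≤ B₂ + 2d`, which is the claim.
-/

set_option autoImplicit false

open scoped Classical

namespace Pool.Agent.H79.HG

namespace HW

variable {Γ : Type*} [Group Γ] (W : HW Γ)

theorem zone {B₂ : ℤ} {v s a b : Γ} (hv : 2 * W.len v - B₂ ≤ W.p v s)
    (ha : W.p a s + (B₂ + 2 * W.d + 1) < 2 * W.len v)
    (hb : 2 * W.len v < W.p b s - (B₂ + 2 * W.d + 1)) : W.Bt (B₂ + 2 * W.d) a v b := by
  have hd := W.hd
  have h1 : W.p a s ≤ W.p a v + W.d := by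
    refine W.p_hyp le_rfl ?_
    have hsv := W.p_comm s v
    omega
  have h2 := W.p_le_right b v
  have h3 := W.pe a v
  have h4 := W.pe v s
  have h5 := W.pe a s
  have h6 := W.pe b v
  have h7 := W.pe b s
  have h8 := W.ds_comm v b
  have h9 := W.ds_comm v s
  have h10 := W.p_le_left v s
  unfold Bt
  rcases W.four a b s v with h | h <;> omega

end HW

/-- A sequence with small steps has many consecutive values in a long interval. -/
theorem seq_window {a : ℕ → ℤ} {k : ℕ} {Λ lo hi : ℤ} (r : ℕ) (h0 : a 0 = 0)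
    (hs : ∀ j, j < k → a j ≤ a (j + 1) ∧ a (j + 1) ≤ a j + Λ) (hΛ : 0 ≤ Λ) (hlo : 0 ≤ lo)
    (hhi : hi ≤ a k) (hw : Λ * (r + 2) < hi - lo) :
    ∃ j₀, 1 ≤ j₀ ∧ j₀ + r < k ∧ ∀ j, j₀ ≤ j → j ≤ j₀ + r → lo < a j ∧ a j < hi := by
  have hmono : ∀ i j, i ≤ j → j ≤ k → a i ≤ a j := by
    intro i j hij
    induction j, hij using Nat.le_induction with
    | base => intro _; exact le_rfl
    | succ j _ ih =>
      intro hjk
      exact (ih (by omega)).trans (hs j (by omega)).1
  have hr0 : 0 ≤ Λ * (r + 2) := mul_nonneg hΛ (by positivity)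
  have hex : ∃ j, lo < a j := ⟨k, by omega⟩
  have hk1 : Nat.find hex ≤ k := Nat.find_min' hex (by omega)
  have hj0 := Nat.find_spec hex
  set j₀ := Nat.find hex with hj₀
  have hj1 : 1 ≤ j₀ := by
    by_contra hcon
    have : j₀ = 0 := by omega
    rw [this, h0] at hj0
    omega
  have hprev : a (j₀ - 1) ≤ lo := by
    by_contra hcon
    have := Nat.find_min' hex (m := j₀ - 1) (by omega)
    omega
  -- growth
  have hgr : ∀ i : ℕ, j₀ + i ≤ k → a (j₀ + i) ≤ lo + (i + 1) * Λ := by
    intro i
    induction i with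
    | zero =>
      intro hi
      have h := (hs (j₀ - 1) (by omega)).2
      rw [Nat.sub_add_cancel hj1] at h
      push_cast
      rw [Nat.add_zero]
      linarith
    | succ i ih =>
      intro hi
      have h1 := ih (by omega)
      have h2 := (hs (j₀ + i) (by omega)).2
      rw [← Nat.add_assoc]
      push_cast
      linarith
  have hlt : ∀ i : ℕ, i ≤ r → j₀ + i ≤ k → a (j₀ + i) < hi := by
    intro i hi1 hi2
    have h1 := hgr i hi2
    have h2 : ((i : ℤ) + 1) * Λ ≤ Λ * (r + 2) := by
      have : (i : ℤ) + 1 ≤ r + 2 := by exact_mod_cast (by omega)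
      nlinarith
    omega
  have hlast : ∀ i : ℕ, i ≤ r → j₀ + i < k := by
    intro i
    induction i with
    | zero =>
      intro hi1
      have h1 := hlt 0 hi1 (by omega)
      by_contra hcon
      have : j₀ + 0 = k := by omega
      rw [this] at h1
      omega
    | succ i ih =>
      intro hi1
      have h1 := ih (by omega)
      have h2 := hlt (i + 1) hi1 (by omega)
      by_contra hcon
      have : j₀ + (i + 1) = k := by omega
      rw [this] at h2
      omega
  refine ⟨j₀, hj1, hlast r le_rfl, fun j hj hj' => ⟨?_, ?_⟩⟩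
  · have := hmono j₀ j hj (by have := hlast r le_rfl; omega)
    omega
  · obtain ⟨i, rfl⟩ : ∃ i, j = j₀ + i := ⟨j - j₀, by omega⟩
    exact hlt i (by omega) (by have := hlast i (by omega); omega)

end Pool.Agent.H79.HG
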