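import Pool.Agent.H79.HG.MatchV
import Pool.Agent.H79.HG.Zone

/-!
# Module WINDOW [H79 HG]: from a difference of Gromov products to consecutive vertices

PROOFS (II.9). `n₀` = max of `vert`, `vert_between` and `w_large (B2 + 1)`. `s = val l`,
`k = l.length`, `c₀ = B2 + 2d + 1`.
`window_f`. `a j = 2 len (val (l.take j))`, `a 0 = 0`, `a k = 2 len s`. For `j < k`: `take_step`;
`len (val (l.take (j+1))) = len (val (l.take j)) + len (w l[j]) - p (val (l.take j))⁻¹ (w l[j])`, with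
`0 ≤ p ≤ B2 < len (w l[j]) ≤ Λ` (`vert`, `val_singleton`): `a j ≤ a (j+1) ≤ a j + 2Λ`. `seq_window` with
`r = q + 3`, `lo = p u s + c₀`, `hi = p v s - c₀` (`hi ≤ a k` by `p_le_right`, `lo ≥ 0`): `j₀ ≥ 1`,
`j₀ + (q+3) < k`. For these `j` `zone` (`B₂ = B2`, point `val (l.take j)`): `hv`: `Bt B2 1 (val (l.take j)) s`
(`vert_between`) says `len (val (l.take j)) + ds (val (l.take j)) s ≤ len s + B2`, and `pe`.
`window_b`. `a j = 2 len (val (l.drop (k - j)))`; the points `y j = (val (l.drop (k-j)))⁻¹`: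
`len (val (l.drop (k-j-1))) = len (w l[k-j-1]) + len (val (l.drop (k-j))) - p (w ..)⁻¹ (val (l.drop (k-j)))`
(`val_cons`, `List.drop_eq_getElem_cons`), so again `a j ≤ a (j+1) ≤ a j + 2Λ`, `a 0 = 0`, `a k = 2 len s`.
`seq_window` and `zone` for the point `y j` and `s⁻¹`: `hv`: `p (y j) s⁻¹ = len (y j) + len s -
ds (y j) s⁻¹`, `ds (y j) s⁻¹ = len (val (l.drop (k-j)) s⁻¹) = len (val (l.take (k-j)))`
(`s = val (take) * val (drop)`), and `len s ≥ len (val take) + len (val drop) - B2` (`vert`). So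
`Bt c₁ u (y j) v`; multiply by `s` (`Bt.mul`): `s * y j = val (l.take (k-j))`. The indices
`k - j`, `j₀ ≤ j ≤ j₀ + (q+3)`, are `j₁, ..., j₁ + (q+3)` with `j₁ = k - j₀ - (q+3) ≥ 1`.
-/

set_option autoImplicit false

open scoped Classical

namespace Pool.Agent.H79.HG

namespace LD

variable {Γ : Type*} [Group Γ] (L : LD Γ)

theorem window_f : ∃ n₀ : ℕ, ∀ (l : List (Fin L.q × ℕ)) (Λ κ : ℤ) (u v : Γ), L.Gd n₀ l →
    (∀ x ∈ l, L.W.len (L.w x.1 x.2) ≤ Λ) → 0 ≤ Λ →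
    2 * Λ * (L.q + 5) + 2 * (L.B2 + 2 * L.W.d + 1) ≤ κ →
    L.W.p u (L.val l) + κ < L.W.p v (L.val l) →
    ∃ j₀, j₀ + (L.q + 3) ≤ l.length ∧ ∀ j, j₀ ≤ j → j ≤ j₀ + (L.q + 3) →
      L.W.Bt (L.B2 + 2 * L.W.d) u (L.val (l.take j)) v := by
  obtain ⟨n₁, hvert⟩ := L.vert
  obtain ⟨n₂, hvb⟩ := L.vert_between
  obtain ⟨n₃, hwl⟩ := L.w_large (L.B2 + 1)
  refine ⟨max n₁ (max n₂ n₃), ?_⟩
  intro l Λ κ u v hG hΛ hΛ0 hκ hlt
  have hB2 := L.B2_nonneg
  have hd := L.W.hd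
  have hG1 : L.Gd n₁ l := hG.mono (by omega)
  have hG2 : L.Gd n₂ l := hG.mono (by omega)
  have hG3 : L.Gd n₃ l := hG.mono (by omega)
  have hp0 := L.W.p_nonneg u (L.val l)
  have hpr := L.W.p_le_right v (L.val l)
  obtain ⟨j₀, h1, h2, h3⟩ := seq_window (a := fun j => 2 * L.W.len (L.val (l.take j))) (k := l.length)
    (Λ := 2 * Λ) (lo := L.W.p u (L.val l) + (L.B2 + 2 * L.W.d + 1))
    (hi := L.W.p v (L.val l) - (L.B2 + 2 * L.W.d + 1)) (L.q + 3)
    (by simp [L.W.len_one])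
    (by
      intro j hj
      have e := L.take_step l hj
      have hmem : l[j] ∈ l := List.getElem_mem hj
      have k1 := hvert (l.take j) [l[j]] (by
        rw [← List.take_succ_eq_append_getElem hj]
        exact hG1.take _)
      rw [val_singleton] at k1
      have k2 := L.W.pe (L.val (l.take j))⁻¹ (L.w l[j].1 l[j].2)
      have k3 := L.W.p_nonneg (L.val (l.take j))⁻¹ (L.w l[j].1 l[j].2)
      have k4 := hwl l[j].1 l[j].2 (hG3.1 _ hmem)
      have k5 := hΛ _ hmem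
      unfold HW.ds at k2
      rw [inv_inv, ← e, L.W.len_inv] at k2
      constructor <;> omega)
    (by omega) (by omega) (by simp only [List.take_length]; omega)
    (by push_cast; linarith)
  refine ⟨j₀, by omega, ?_⟩
  intro j hj hj'
  obtain ⟨h4, h5⟩ := h3 j hj hj'
  beta_reduce at h4 h5
  have k1 := hvb [] (l.take j) (l.drop j) (by
    rw [List.nil_append, List.take_append_drop]
    exact hG2)
  rw [List.nil_append, List.take_append_drop, val_nil] at k1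
  unfold HW.Bt at k1
  rw [L.W.ds_one, L.W.ds_one] at k1
  have k2 := L.W.pe (L.val (l.take j)) (L.val l)
  exact L.W.zone (s := L.val l) (by omega) h4 h5

theorem window_b : ∃ n₀ : ℕ, ∀ (l : List (Fin L.q × ℕ)) (Λ κ : ℤ) (u v : Γ), L.Gd n₀ l →
    (∀ x ∈ l, L.W.len (L.w x.1 x.2) ≤ Λ) → 0 ≤ Λ →
    2 * Λ * (L.q + 5) + 2 * (L.B2 + 2 * L.W.d + 1) ≤ κ →
    L.W.p u (L.val l)⁻¹ + κ < L.W.p v (L.val l)⁻¹ →
    ∃ j₀, j₀ + (L.q + 3) ≤ l.length ∧ ∀ j, j₀ ≤ j → j ≤ j₀ + (L.q + 3) →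
      L.W.Bt (L.B2 + 2 * L.W.d) (L.val l * u) (L.val (l.take j)) (L.val l * v) := by
  obtain ⟨n₁, hvert⟩ := L.vert
  obtain ⟨n₃, hwl⟩ := L.w_large (L.B2 + 1)
  refine ⟨max n₁ n₃, ?_⟩
  intro l Λ κ u v hG hΛ hΛ0 hκ hlt
  have hB2 := L.B2_nonneg
  have hd := L.W.hd
  have hG1 : L.Gd n₁ l := hG.mono (by omega)
  have hG3 : L.Gd n₃ l := hG.mono (by omega)
  have hp0 := L.W.p_nonneg u (L.val l)⁻¹
  have hpr := L.W.p_le_right v (L.val l)⁻¹
  rw [L.W.len_inv] at hpr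
  obtain ⟨j₀, h1, h2, h3⟩ := seq_window (a := fun j => 2 * L.W.len (L.val (l.drop (l.length - j))))
    (k := l.length)
    (Λ := 2 * Λ) (lo := L.W.p u (L.val l)⁻¹ + (L.B2 + 2 * L.W.d + 1))
    (hi := L.W.p v (L.val l)⁻¹ - (L.B2 + 2 * L.W.d + 1)) (L.q + 3)
    (by simp [L.W.len_one])
    (by
      intro j hj
      obtain ⟨i, hi, hij⟩ : ∃ i, i < l.length ∧ l.length - (j + 1) = i := ⟨_, by omega, rfl⟩
      have hij' : l.length - j = i + 1 := by omega
      simp only [hij, hij']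
      have e : l.drop i = l[i] :: l.drop (i + 1) := List.drop_eq_getElem_cons hi
      have hmem : l[i] ∈ l := List.getElem_mem hi
      have k1 := hvert [l[i]] (l.drop (i + 1)) (by
        rw [List.singleton_append, ← e]
        exact hG1.drop _)
      rw [val_singleton] at k1
      have k2 := L.W.pe (L.w l[i].1 l[i].2)⁻¹ (L.val (l.drop (i + 1)))
      have k3 := L.W.p_nonneg (L.w l[i].1 l[i].2)⁻¹ (L.val (l.drop (i + 1)))
      have k4 := hwl l[i].1 l[i].2 (hG3.1 _ hmem)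
      have k5 := hΛ _ hmem
      unfold HW.ds at k2
      rw [inv_inv, ← L.val_cons, ← e, L.W.len_inv] at k2
      constructor <;> omega)
    (by omega) (by omega) (by simp only [Nat.sub_self, List.drop_zero]; omega)
    (by push_cast; linarith)
  refine ⟨l.length - j₀ - (L.q + 3), by omega, ?_⟩
  intro j hj hj'
  obtain ⟨h4, h5⟩ := h3 (l.length - j) (by omega) (by omega)
  beta_reduce at h4 h5
  have hjj : l.length - (l.length - j) = j := by omega
  rw [hjj] at h4 h5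
  have k1 := hvert (l.take j) (l.drop j) (by
    rw [List.take_append_drop]
    exact hG1)
  have hs : L.val l = L.val (l.take j) * L.val (l.drop j) := by
    rw [← L.val_append, List.take_append_drop]
  have k2 := L.W.pe (L.val (l.take j))⁻¹ (L.val (l.drop j))
  unfold HW.ds at k2
  rw [inv_inv, ← hs, L.W.len_inv] at k2
  have k3 := L.W.pe (L.val (l.drop j))⁻¹ (L.val l)⁻¹
  have e1 : L.W.ds (L.val (l.drop j))⁻¹ (L.val l)⁻¹ = L.W.len (L.val (l.take j)) := by
    unfold HW.ds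
    rw [hs, ← L.W.len_inv (L.val (l.take j))]
    congr 1
    group
  rw [e1, L.W.len_inv, L.W.len_inv] at k3
  have k4 := L.W.zone (B₂ := L.B2) (v := (L.val (l.drop j))⁻¹) (s := (L.val l)⁻¹) (a := u) (b := v)
    (by rw [L.W.len_inv]; omega) (by rw [L.W.len_inv]; exact h4) (by rw [L.W.len_inv]; exact h5)
  have k5 := k4.mul (L.val l)
  have e2 : L.val l * (L.val (l.drop j))⁻¹ = L.val (l.take j) := by
    rw [hs]
    group
  rw [e2] at k5
  exact k5

end LD

end Pool.Agent.H79.HG
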