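import Pool.Agent.H79.HG.OvMain
import Pool.Agent.H79.HG.Window
import Pool.Agent.H79.HG.Vert

/-!
# Module SC [H79 HG]: small cancellation for a family

PROOF. Constants: maxima of those of `overlap_main`, `window_f`, `window_b`, `vert_between`.
`s = val (F a)`, `t = val (F b)`. First part: suppose `p (g t) s > p g s + κ` or
`p g s > p (g t) s + κ`; `window_f` with `(u, v) = (g, g t)` or `(g t, g)`; in the second case `Bt.symm`.
`overlap_main` gives `a = b` and `g ∈ K`, contradiction. Second part: the same with `window_b` and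
`s * g` instead of `g` (`s * (g * t) = (s * g) * t`). Third part: if `val (F a) = val (F b)`, apply
`overlap_main` with `g = 1`, `j₀ = 0`: `Bt B2 1 (val ((F a).take j)) (val (F a))` by `vert_between` with
`[]`, `(F a).take j`, `(F a).drop j` (`List.take_append_drop`).
-/

set_option autoImplicit false

open scoped Classical

namespace Pool.Agent.H79.HG

namespace LD

variable {Γ : Type*} [Group Γ] (L : LD Γ)

theorem sc_fam : ∃ n₀ M₀ M₁ : ℕ, 1 ≤ M₁ ∧ ∀ (n M : ℕ) (ι : Type)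
    (F : ι → List (Fin L.q × ℕ)), n₀ ≤ n → M₀ ≤ M → M₁ ∣ M → L.Fam n M F →
    (∀ a, L.q + 3 ≤ (F a).length) → ∀ Λ κ : ℤ,
    (∀ a, ∀ x ∈ F a, L.W.len (L.w x.1 x.2) ≤ Λ) → 0 ≤ Λ →
    2 * Λ * (L.q + 5) + 2 * (L.B2 + 2 * L.W.d + 1) ≤ κ →
    (∀ a b g, (g ∈ L.K → a ≠ b) →
      L.W.p (g * L.val (F b)) (L.val (F a)) ≤ L.W.p g (L.val (F a)) + κ ∧
      L.W.p g (L.val (F a)) ≤ L.W.p (g * L.val (F b)) (L.val (F a)) + κ) ∧
    (∀ a b g, (L.val (F a) * g ∈ L.K → a ≠ b) →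
      L.W.p (g * L.val (F b)) (L.val (F a))⁻¹ ≤ L.W.p g (L.val (F a))⁻¹ + κ ∧
      L.W.p g (L.val (F a))⁻¹ ≤ L.W.p (g * L.val (F b)) (L.val (F a))⁻¹ + κ) ∧
    ∀ a b, L.val (F a) = L.val (F b) → a = b := by
  obtain ⟨n₁, M₀, M₁, hM₁, hov⟩ := L.overlap_main
  obtain ⟨n₂, hwf⟩ := L.window_f
  obtain ⟨n₃, hwb⟩ := L.window_b
  obtain ⟨n₄, hvb⟩ := L.vert_between
  refine ⟨max (max n₁ n₂) (max n₃ n₄), M₀, M₁, hM₁, ?_⟩
  intro n M ι F hn hM hdiv hF hlen Λ κ hΛ hΛ0 hκ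
  have hn1 : n₁ ≤ n := by omega
  have hn2 : n₂ ≤ n := by omega
  have hn3 : n₃ ≤ n := by omega
  have hn4 : n₄ ≤ n := by omega
  have hne : ∀ a, F a ≠ [] := by
    intro a h
    have h1 := hlen a
    rw [h, List.length_nil] at h1
    omega
  refine ⟨?_, ?_, ?_⟩
  · intro a b g hg
    constructor
    · by_contra hcon
      rw [not_le] at hcon
      obtain ⟨j₀, k1, k2⟩ := hwf (F a) Λ κ g (g * L.val (F b)) ((hF.gd a).mono hn2) (hΛ a) hΛ0 hκ hcon
      obtain ⟨h1, h2⟩ := hov n M ι F hn1 hM hdiv hF a b g j₀ (hne b) k1 k2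
      exact hg h2 h1
    · by_contra hcon
      rw [not_le] at hcon
      obtain ⟨j₀, k1, k2⟩ := hwf (F a) Λ κ (g * L.val (F b)) g ((hF.gd a).mono hn2) (hΛ a) hΛ0 hκ hcon
      obtain ⟨h1, h2⟩ := hov n M ι F hn1 hM hdiv hF a b g j₀ (hne b) k1
        (fun j h3 h4 => (k2 j h3 h4).symm)
      exact hg h2 h1
  · intro a b g hg
    constructor
    · by_contra hcon
      rw [not_le] at hcon
      obtain ⟨j₀, k1, k2⟩ := hwb (F a) Λ κ g (g * L.val (F b)) ((hF.gd a).mono hn3) (hΛ a) hΛ0 hκ hcon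
      obtain ⟨h1, h2⟩ := hov n M ι F hn1 hM hdiv hF a b (L.val (F a) * g) j₀ (hne b) k1
        (fun j h3 h4 => by rw [mul_assoc]; exact k2 j h3 h4)
      exact hg h2 h1
    · by_contra hcon
      rw [not_le] at hcon
      obtain ⟨j₀, k1, k2⟩ := hwb (F a) Λ κ (g * L.val (F b)) g ((hF.gd a).mono hn3) (hΛ a) hΛ0 hκ hcon
      obtain ⟨h1, h2⟩ := hov n M ι F hn1 hM hdiv hF a b (L.val (F a) * g) j₀ (hne b) k1
        (fun j h3 h4 => by rw [mul_assoc]; exact (k2 j h3 h4).symm)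
      exact hg h2 h1
  · intro a b hab
    have hl := hlen a
    refine (hov n M ι F hn1 hM hdiv hF a b 1 0 (hne b) (by omega) ?_).1
    intro j _ _
    rw [one_mul, ← hab]
    have h1 := hvb [] ((F a).take j) ((F a).drop j) (by
      rw [List.nil_append, List.take_append_drop]
      exact (hF.gd a).mono hn4)
    rw [List.nil_append, List.take_append_drop, val_nil] at h1
    refine h1.mono ?_
    have := L.W.hd
    omega

end LD

end Pool.Agent.H79.HG
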