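import Pool.Agent.H79.HG.Defs

/-!
# Module SIGNS [H79 HG]: four points at the distance `ρ` from `y` between `g` and `g'`

PROOF. `f z = ds g z`. For `z` one of the four points: `|f z - f y| ≤ ds y z` (triangle) and by
`near'` (`y`, `z` between `g` and `g'`) `ds y z ≤ |f z - f y| + c + d`. So
`ρ - 2c - d ≤ |f z - f y| ≤ ρ + c`. If `f a₁ - f y` and `f a₂ - f y` had the same sign then
`|f a₁ - f a₂| ≤ 3c + d` and by `near'` `ds a₁ a₂ ≤ 4c + 2d < 2ρ - c`, a contradiction. So they have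
opposite signs, and so have `b₁`, `b₂`. If `a₁` and `b₁` have the same sign, `|f a₁ - f b₁| ≤ 3c + d`,
`ds a₁ b₁ ≤ 4c + 2d` and the same for `a₂, b₂`; otherwise `a₁, b₂` and `a₂, b₁`.
(The whole proof is `near'` for the relevant pairs, `ds_tri`, `ds_comm`, case splitting and `omega`.)
-/

set_option autoImplicit false

open scoped Classical

namespace Pool.Agent.H79.HG

namespace HW

variable {Γ : Type*} [Group Γ] (W : HW Γ)

private theorem signs_low {c ρ : ℤ} {g g' y a b : Γ} (ha : W.Bt c g a g') (hb : W.Bt c g b g')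
    (r1 : ρ - c ≤ W.ds y a ∧ W.ds y a ≤ ρ + c) (r2 : ρ - c ≤ W.ds y b ∧ W.ds y b ≤ ρ + c)
    (ya : W.ds y a ≤ W.ds g y - W.ds g a + c + W.d)
    (yb : W.ds y b ≤ W.ds g y - W.ds g b + c + W.d) : W.ds a b ≤ 4 * c + 2 * W.d := by
  have t1 := W.ds_tri g a y
  have t2 := W.ds_tri g b y
  have c1 := W.ds_comm a y
  have c2 := W.ds_comm b y
  rcases W.near' ha hb with h | h <;> omega

private theorem signs_up {c ρ : ℤ} {g g' y a b : Γ} (ha : W.Bt c g a g') (hb : W.Bt c g b g')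
    (r1 : ρ - c ≤ W.ds y a ∧ W.ds y a ≤ ρ + c) (r2 : ρ - c ≤ W.ds y b ∧ W.ds y b ≤ ρ + c)
    (ya : W.ds y a ≤ W.ds g a - W.ds g y + c + W.d)
    (yb : W.ds y b ≤ W.ds g b - W.ds g y + c + W.d) : W.ds a b ≤ 4 * c + 2 * W.d := by
  have t1 := W.ds_tri g y a
  have t2 := W.ds_tri g y b
  rcases W.near' ha hb with h | h <;> omega

theorem signs {c ρ : ℤ} {g g' y a₁ a₂ b₁ b₂ : Γ} (hy : W.Bt c g y g')
    (h1 : W.Bt c g a₁ g') (h2 : W.Bt c g a₂ g') (h3 : W.Bt c g b₁ g') (h4 : W.Bt c g b₂ g')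
    (r1 : ρ - c ≤ W.ds y a₁ ∧ W.ds y a₁ ≤ ρ + c) (r2 : ρ - c ≤ W.ds y a₂ ∧ W.ds y a₂ ≤ ρ + c)
    (r3 : ρ - c ≤ W.ds y b₁ ∧ W.ds y b₁ ≤ ρ + c) (r4 : ρ - c ≤ W.ds y b₂ ∧ W.ds y b₂ ≤ ρ + c)
    (s1 : 2 * ρ - c ≤ W.ds a₁ a₂) (s2 : 2 * ρ - c ≤ W.ds b₁ b₂) (hc : 0 ≤ c)
    (hρ : 5 * c + 2 * W.d < 2 * ρ) (hρ' : 2 * c + W.d < ρ) :
    (W.ds a₁ b₁ ≤ 4 * c + 2 * W.d ∧ W.ds a₂ b₂ ≤ 4 * c + 2 * W.d) ∨
      (W.ds a₁ b₂ ≤ 4 * c + 2 * W.d ∧ W.ds a₂ b₁ ≤ 4 * c + 2 * W.d) := by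
  rcases W.near' hy h1 with a1 | a1 <;> rcases W.near' hy h2 with a2 | a2
  · exfalso
    have := W.signs_low h1 h2 r1 r2 a1 a2
    omega
  · rcases W.near' hy h3 with b1 | b1 <;> rcases W.near' hy h4 with b2 | b2
    · exfalso
      have := W.signs_low h3 h4 r3 r4 b1 b2
      omega
    · left
      exact ⟨W.signs_low h1 h3 r1 r3 a1 b1, W.signs_up h2 h4 r2 r4 a2 b2⟩
    · right
      exact ⟨W.signs_low h1 h4 r1 r4 a1 b2, W.signs_up h2 h3 r2 r3 a2 b1⟩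
    · exfalso
      have := W.signs_up h3 h4 r3 r4 b1 b2
      omega
  · rcases W.near' hy h3 with b1 | b1 <;> rcases W.near' hy h4 with b2 | b2
    · exfalso
      have := W.signs_low h3 h4 r3 r4 b1 b2
      omega
    · right
      exact ⟨W.signs_up h1 h4 r1 r4 a1 b2, W.signs_low h2 h3 r2 r3 a2 b1⟩
    · left
      exact ⟨W.signs_up h1 h3 r1 r3 a1 b1, W.signs_low h2 h4 r2 r4 a2 b2⟩
    · exfalso
      have := W.signs_up h3 h4 r3 r4 b1 b2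
      omega
  · exfalso
    have := W.signs_up h1 h2 r1 r2 a1 a2
    omega

end HW

end Pool.Agent.H79.HG
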