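import Pool.Agent.H79.HG.Locate
import Pool.Agent.H79.HG.Signs
import Pool.Agent.H79.HG.Deep

/-!
# Module VERTEX [H79 HG]: the vertex lemma

`V L c g g' i i' m m' y` says that the vertex `y` between the blocks `w i m` and `w i' m'` and its two
neighbours are `c`-between `g` and `g'`.
PROOF of `not_deep` (II.11). Let `0 ≤ c`. `c₂ = 2 c + Q + 4 C + B3 + d + C₁ + B + 6 C` (an upper bound
for all constants below), `c₃ = 4 c₂ + 2 d`, `D` from `deep (c₃ + C₁)`, `D₁ ≥ D` with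
`len (h^D₁) > 3 c₂ + 2 d + ...` (`grow`) such that `ρ = len (h^D₁)` satisfies `5 c₂ + 2 d < 2 ρ`,
`2 c₂ + d < ρ`. `n₀ = max D₁ (n₀ of block_pt)`. Suppose `D₁ ≤ r ≤ m₀ - D₁` and
`ds y pt ≤ C₁`, `pt = g val u x i₀ h^r`. Put `a₁ = y x i' h^D₁`, `a₂ = y x i (h^D₁)⁻¹`,
`b₁ = pt h^D₁`, `b₂ = pt (h^D₁)⁻¹`, `g' = g val l`.
`Bt`: `a₁` is `(Q+4C)`-between `y` and `y w i' m'` (`block_between`, `D₁ ≤ m'`), so `between`;
`a₂ = (y (w i m)⁻¹) x i h^(m-D₁)` is between `y (w i m)⁻¹` and `y` (`block_between`), so `between`;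
`b₁ = g val u x i₀ h^(r+D₁)`, `b₂ = g val u x i₀ h^(r-D₁)`: `block_pt` and `Bt.mul g`.
`ds y a₁ = len (x i' h^D₁) ∈ ρ ± C`; `ds y a₂ ∈ ρ ± C`; `ds y b₁, ds y b₂ ∈ ρ ± C₁` (`ds pt b₁ = ρ`).
`ds b₁ b₂ = len (h^(2 D₁)) ≥ 2ρ - Q`. `ds a₁ a₂ = len a₁' + len a₂' - p a₁' a₂'` for
`a₁' = x i' h^D₁`, `a₂' = x i h^(-D₁)` and `p a₂' a₁' ≤ p (x i h^(-D₁) (x i)⁻¹) (x i' h^D₁ (x i')⁻¹) + 4C
≤ B + 4C` (`p_near` twice, `hB`; `(x i h^D₁ (x i)⁻¹)⁻¹ = x i h^(-D₁) (x i)⁻¹`), so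
`ds a₁ a₂ ≥ 2ρ - 2C - B - 4C`. `signs`: `ds a₁ b₁, ds a₂ b₂ ≤ c₃` (put `e = 1`) or
`ds a₁ b₂, ds a₂ b₁ ≤ c₃` (`e = -1`). `u' = y⁻¹ pt`: `len u' ≤ C₁`; `deep` with `u'`, `e`: contradiction.
PROOF of `vertex`. `locate c`: `l = u ++ (i₀, m₀) :: v`, `r ≤ m₀`, `ds y (g val u x i₀ h^r) ≤ C₁`.
By `not_deep` `r < D₁` or `m₀ < r + D₁`. If `r < D₁`: `ds y (g val u) ≤ C₁ + len (x i₀ h^r) ≤
C₁ + C + D₁ len h`. If `m₀ < r + D₁`: `g val (u ++ [(i₀, m₀)]) = g val u x i₀ h^r h^(m₀-r) (x i₀)⁻¹`, so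
`ds y (g val (u ++ [(i₀,m₀)])) ≤ C₁ + D₁ len h + C`.
-/

set_option autoImplicit false

open scoped Classical

namespace Pool.Agent.H79.HG

namespace LD

variable {Γ : Type*} [Group Γ] (L : LD Γ)

/-- The vertex `y` and its neighbours are `c`-between `g` and `g'`. -/
def V (c : ℤ) (g g' : Γ) (i i' : Fin L.q) (m m' : ℕ) (y : Γ) : Prop :=
  L.W.Bt c g (y * (L.w i m)⁻¹) g' ∧ L.W.Bt c g y g' ∧ L.W.Bt c g (y * L.w i' m') g'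

theorem not_deep (c C₁ : ℤ) : ∃ D₁ n₀ : ℕ, ∀ (u v : List (Fin L.q × ℕ)) (i₀ : Fin L.q)
    (m₀ r : ℕ) (i i' : Fin L.q) (m m' : ℕ) (y g : Γ), L.Gd n₀ (u ++ (i₀, m₀) :: v) → i ≠ i' →
    n₀ ≤ m → n₀ ≤ m' → L.V c g (g * L.val (u ++ (i₀, m₀) :: v)) i i' m m' y →
    L.W.ds y (g * L.val u * L.x i₀ * L.W.h ^ r) ≤ C₁ → ¬ (D₁ ≤ r ∧ r + D₁ ≤ m₀) := by
  have hC0 := L.hC0
  have hB0 := L.hB0
  have hQ0 := L.W.hQ0
  have hd0 := L.W.hd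
  have hB20 := L.B2_nonneg
  have hB3 : 0 ≤ L.B3 := by unfold B3; omega
  obtain ⟨c', hc', hcc'⟩ : ∃ c' : ℤ, 0 ≤ c' ∧ c ≤ c' := ⟨max c 0, by omega, by omega⟩
  obtain ⟨C₁', hC₁', hCC'⟩ : ∃ c' : ℤ, 0 ≤ c' ∧ C₁ ≤ c' := ⟨max C₁ 0, by omega, by omega⟩
  obtain ⟨c₂, hc₂⟩ : ∃ c₂ : ℤ, c₂ = 2 * c' + L.W.Q + 4 * L.C + L.B3 + L.W.d + C₁' + L.B + 6 * L.C :=
    ⟨_, rfl⟩
  have hc₂0 : 0 ≤ c₂ := by omega
  obtain ⟨D, hD⟩ := L.deep (4 * c₂ + 2 * L.W.d + C₁')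
  obtain ⟨D', hD'⟩ := L.W.grow (5 * c₂ + 2 * L.W.d + 1)
  obtain ⟨n₁, hbp⟩ := L.block_pt
  obtain ⟨D₁, hDD₁, hD'D₁⟩ : ∃ D₁, D ≤ D₁ ∧ D' ≤ D₁ := ⟨max D D', by omega, by omega⟩
  refine ⟨D₁, max D₁ n₁, ?_⟩
  rintro u v i₀ m₀ r i i' m m' y g hG hii hm hm' ⟨v1, v2, v3⟩ hy ⟨hr1, hr2⟩
  have hρ := hD' D₁ hD'D₁
  have hq2 := L.W.qline D₁ D₁
  set ρ := L.W.len (L.W.h ^ D₁) with hρd
  set g' := g * L.val (u ++ (i₀, m₀) :: v) with hg'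
  set pt := g * L.val u * L.x i₀ * L.W.h ^ r with hpt
  have hCi := L.hC i
  have hCi' := L.hC i'
  -- betweenness
  have h1 : L.W.Bt c₂ g (y * L.x i' * L.W.h ^ D₁) g' := by
    have k1 := L.block_between y i' (m := m') (r := D₁) (by omega)
    exact (L.W.between (v2.mono hcc') (v3.mono hcc') k1).mono (by omega)
  have h2 : L.W.Bt c₂ g (y * L.x i * (L.W.h ^ D₁)⁻¹) g' := by
    have k1 := L.block_between (y * (L.w i m)⁻¹) i (m := m) (r := m - D₁) (by omega)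
    have e1 : y * (L.w i m)⁻¹ * L.x i * L.W.h ^ (m - D₁) = y * L.x i * (L.W.h ^ D₁)⁻¹ := by
      have e2 : L.W.h ^ m = L.W.h ^ (m - D₁) * L.W.h ^ D₁ := by
        rw [← pow_add]
        congr 1
        omega
      unfold w
      rw [e2]
      group
    have e2 : y * (L.w i m)⁻¹ * L.w i m = y := by group
    rw [e1, e2] at k1
    exact (L.W.between (v1.mono hcc') (v2.mono hcc') k1).mono (by omega)
  have h3 : L.W.Bt c₂ g (pt * L.W.h ^ D₁) g' := by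
    have k1 := (hbp u v i₀ m₀ (hG.mono (by omega)) (r + D₁) (by omega)).mul g
    have e1 : g * (L.val u * L.x i₀ * L.W.h ^ (r + D₁)) = pt * L.W.h ^ D₁ := by
      rw [hpt, pow_add]
      group
    rw [e1, mul_one] at k1
    exact k1.mono (by omega)
  have h4 : L.W.Bt c₂ g (pt * (L.W.h ^ D₁)⁻¹) g' := by
    have k1 := (hbp u v i₀ m₀ (hG.mono (by omega)) (r - D₁) (by omega)).mul g
    have e1 : g * (L.val u * L.x i₀ * L.W.h ^ (r - D₁)) = pt * (L.W.h ^ D₁)⁻¹ := by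
      have e2 : L.W.h ^ r = L.W.h ^ (r - D₁) * L.W.h ^ D₁ := by
        rw [← pow_add]
        congr 1
        omega
      rw [hpt, e2]
      group
    rw [e1, mul_one] at k1
    exact k1.mono (by omega)
  have hyB : L.W.Bt c₂ g y g' := v2.mono (by omega)
  -- distances from y
  have lmul : ∀ a b : Γ, L.W.len a ≤ L.C → L.W.len (a * b) ≤ L.W.len b + L.C ∧
      L.W.len b ≤ L.W.len (a * b) + L.C := by
    intro a b ha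
    have k1 := L.W.len_mul a b
    have k2 := L.W.len_mul a⁻¹ (a * b)
    rw [inv_mul_cancel_left, L.W.len_inv] at k2
    constructor <;> omega
  have r1 : ρ - c₂ ≤ L.W.ds y (y * L.x i' * L.W.h ^ D₁) ∧ L.W.ds y (y * L.x i' * L.W.h ^ D₁) ≤ ρ + c₂ := by
    rw [mul_assoc, L.W.ds_mul_right]
    have k1 := lmul (L.x i') (L.W.h ^ D₁) hCi'
    constructor <;> omega
  have r2 : ρ - c₂ ≤ L.W.ds y (y * L.x i * (L.W.h ^ D₁)⁻¹) ∧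
      L.W.ds y (y * L.x i * (L.W.h ^ D₁)⁻¹) ≤ ρ + c₂ := by
    rw [mul_assoc, L.W.ds_mul_right]
    have k1 := lmul (L.x i) (L.W.h ^ D₁)⁻¹ hCi
    rw [L.W.len_inv] at k1
    constructor <;> omega
  have near_pt : ∀ a : Γ, L.W.len a = ρ → ρ - c₂ ≤ L.W.ds y (pt * a) ∧ L.W.ds y (pt * a) ≤ ρ + c₂ := by
    intro a ha
    have k1 := L.W.ds_tri y pt (pt * a)
    have k2 := L.W.ds_tri pt y (pt * a)
    have k3 := L.W.ds_mul_right pt a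
    have k4 := L.W.ds_comm pt y
    constructor <;> omega
  have r3 := near_pt (L.W.h ^ D₁) rfl
  have r4 := near_pt (L.W.h ^ D₁)⁻¹ (L.W.len_inv _)
  have s2 : 2 * ρ - c₂ ≤ L.W.ds (pt * L.W.h ^ D₁) (pt * (L.W.h ^ D₁)⁻¹) := by
    rw [L.W.ds_mul_left]
    have e1 : L.W.ds (L.W.h ^ D₁) (L.W.h ^ D₁)⁻¹ = L.W.len (L.W.h ^ (D₁ + D₁)) := by
      unfold HW.ds
      rw [← L.W.len_inv (L.W.h ^ (D₁ + D₁)), pow_add, mul_inv_rev]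
    rw [e1]
    omega
  have s1 : 2 * ρ - c₂ ≤ L.W.ds (y * L.x i' * L.W.h ^ D₁) (y * L.x i * (L.W.h ^ D₁)⁻¹) := by
    rw [mul_assoc y, mul_assoc y, L.W.ds_mul_left]
    have k1 := L.W.pe (L.x i' * L.W.h ^ D₁) (L.x i * (L.W.h ^ D₁)⁻¹)
    have k2 := lmul (L.x i') (L.W.h ^ D₁) hCi'
    have k3 := lmul (L.x i) (L.W.h ^ D₁)⁻¹ hCi
    rw [L.W.len_inv] at k3
    have k4 := L.W.p_near (L.x i' * L.W.h ^ D₁) (L.x i' * L.W.h ^ D₁ * (L.x i')⁻¹) (L.x i * (L.W.h ^ D₁)⁻¹)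
    have k5 := L.W.p_near (L.x i * (L.W.h ^ D₁)⁻¹) (L.x i * (L.W.h ^ D₁)⁻¹ * (L.x i)⁻¹)
      (L.x i' * L.W.h ^ D₁ * (L.x i')⁻¹)
    rw [L.W.ds_mul_right, L.W.len_inv] at k4 k5
    have k6 := L.W.p_comm (L.x i' * L.W.h ^ D₁ * (L.x i')⁻¹) (L.x i * (L.W.h ^ D₁)⁻¹)
    have k7 := L.hB i i' hii D₁ D₁
    have e1 : (L.x i * L.W.h ^ D₁ * (L.x i)⁻¹)⁻¹ = L.x i * (L.W.h ^ D₁)⁻¹ * (L.x i)⁻¹ := by group
    rw [e1] at k7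
    omega
  have hu : L.W.len (y⁻¹ * pt) ≤ 4 * c₂ + 2 * L.W.d + C₁' := by
    have : L.W.len (y⁻¹ * pt) = L.W.ds y pt := rfl
    omega
  rcases L.W.signs hyB h1 h2 h3 h4 r1 r2 r3 r4 s1 s2 hc₂0 (by omega) (by omega) with ⟨t1, t2⟩ | ⟨t1, t2⟩
  · refine hD D₁ hDD₁ i i' (y⁻¹ * pt) 1 hii (Or.inl rfl) hu ?_ ?_
    · have e1 : (L.x i' * L.W.h ^ D₁)⁻¹ * (y⁻¹ * pt * L.W.h ^ (1 * (D₁ : ℤ))) =
          (y * L.x i' * L.W.h ^ D₁)⁻¹ * (pt * L.W.h ^ D₁) := by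
        rw [one_mul, zpow_natCast]
        group
      rw [e1]
      have : L.W.len ((y * L.x i' * L.W.h ^ D₁)⁻¹ * (pt * L.W.h ^ D₁)) =
        L.W.ds (y * L.x i' * L.W.h ^ D₁) (pt * L.W.h ^ D₁) := rfl
      omega
    · have e1 : (L.x i * (L.W.h ^ D₁)⁻¹)⁻¹ * (y⁻¹ * pt * L.W.h ^ (-(1 * (D₁ : ℤ)))) =
          (y * L.x i * (L.W.h ^ D₁)⁻¹)⁻¹ * (pt * (L.W.h ^ D₁)⁻¹) := by
        rw [one_mul, zpow_neg, zpow_natCast]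
        group
      rw [e1]
      have : L.W.len ((y * L.x i * (L.W.h ^ D₁)⁻¹)⁻¹ * (pt * (L.W.h ^ D₁)⁻¹)) =
        L.W.ds (y * L.x i * (L.W.h ^ D₁)⁻¹) (pt * (L.W.h ^ D₁)⁻¹) := rfl
      omega
  · refine hD D₁ hDD₁ i i' (y⁻¹ * pt) (-1) hii (Or.inr rfl) hu ?_ ?_
    · have e1 : (L.x i' * L.W.h ^ D₁)⁻¹ * (y⁻¹ * pt * L.W.h ^ (-1 * (D₁ : ℤ))) =
          (y * L.x i' * L.W.h ^ D₁)⁻¹ * (pt * (L.W.h ^ D₁)⁻¹) := by
        rw [neg_one_mul, zpow_neg, zpow_natCast]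
        group
      rw [e1]
      have : L.W.len ((y * L.x i' * L.W.h ^ D₁)⁻¹ * (pt * (L.W.h ^ D₁)⁻¹)) =
        L.W.ds (y * L.x i' * L.W.h ^ D₁) (pt * (L.W.h ^ D₁)⁻¹) := rfl
      omega
    · have e1 : (L.x i * (L.W.h ^ D₁)⁻¹)⁻¹ * (y⁻¹ * pt * L.W.h ^ (-(-1 * (D₁ : ℤ)))) =
          (y * L.x i * (L.W.h ^ D₁)⁻¹)⁻¹ * (pt * L.W.h ^ D₁) := by
        rw [neg_one_mul, neg_neg, zpow_natCast]
        group
      rw [e1]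
      have : L.W.len ((y * L.x i * (L.W.h ^ D₁)⁻¹)⁻¹ * (pt * L.W.h ^ D₁)) =
        L.W.ds (y * L.x i * (L.W.h ^ D₁)⁻¹) (pt * L.W.h ^ D₁) := rfl
      omega

theorem vertex (c : ℤ) : ∃ (C₂ : ℤ) (n₀ : ℕ), ∀ (l : List (Fin L.q × ℕ))
    (i i' : Fin L.q) (m m' : ℕ) (y g : Γ), L.Gd n₀ l → l ≠ [] → i ≠ i' → n₀ ≤ m → n₀ ≤ m' →
    L.V c g (g * L.val l) i i' m m' y →
    ∃ u v : List (Fin L.q × ℕ), l = u ++ v ∧ L.W.ds y (g * L.val u) ≤ C₂ := by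
  obtain ⟨C₁, n₁, hloc⟩ := L.locate c
  obtain ⟨D₁, n₂, hnd⟩ := L.not_deep c C₁
  have hC0 := L.hC0
  refine ⟨C₁ + L.C + D₁ * L.W.len L.W.h, max n₁ n₂, ?_⟩
  intro l i i' m m' y g hG hl hii hm hm' hV
  obtain ⟨u, v, i₀, m₀, r, hlu, hr, hds⟩ := hloc l y g (hG.mono (by omega)) hl hV.2.1
  subst hlu
  have h1 := hnd u v i₀ m₀ r i i' m m' y g (hG.mono (by omega)) hii (by omega) (by omega) hV hds
  have hh0 := L.W.len_nonneg L.W.h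
  have hCi := L.hC i₀
  by_cases h2 : D₁ ≤ r
  · have h3 : m₀ < r + D₁ := by
      by_contra hcon
      exact h1 ⟨h2, by omega⟩
    refine ⟨u ++ [(i₀, m₀)], v, by simp, ?_⟩
    have k1 := L.W.ds_tri y (g * L.val u * L.x i₀ * L.W.h ^ r) (g * L.val (u ++ [(i₀, m₀)]))
    have e1 : g * L.val (u ++ [(i₀, m₀)]) =
        g * L.val u * L.x i₀ * L.W.h ^ r * (L.W.h ^ (m₀ - r) * (L.x i₀)⁻¹) := by
      have e2 : L.W.h ^ m₀ = L.W.h ^ r * L.W.h ^ (m₀ - r) := by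
        rw [← pow_add]
        congr 1
        omega
      rw [L.val_append, L.val_singleton]
      show g * (L.val u * L.w i₀ m₀) = _
      unfold w
      rw [e2]
      group
    have k2 : L.W.ds (g * L.val u * L.x i₀ * L.W.h ^ r) (g * L.val (u ++ [(i₀, m₀)])) =
        L.W.len (L.W.h ^ (m₀ - r) * (L.x i₀)⁻¹) := by
      rw [e1, L.W.ds_mul_right]
    have k3 := L.W.len_mul (L.W.h ^ (m₀ - r)) (L.x i₀)⁻¹
    rw [L.W.len_inv] at k3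
    have k4 := L.W.len_pow_le (m₀ - r)
    have k5 : ((m₀ - r : ℕ) : ℤ) * L.W.len L.W.h ≤ D₁ * L.W.len L.W.h :=
      mul_le_mul_of_nonneg_right (by omega) hh0
    omega
  · refine ⟨u, (i₀, m₀) :: v, rfl, ?_⟩
    have k1 := L.W.ds_tri y (g * L.val u * L.x i₀ * L.W.h ^ r) (g * L.val u)
    have k2 : L.W.ds (g * L.val u * L.x i₀ * L.W.h ^ r) (g * L.val u) =
        L.W.len (L.x i₀ * L.W.h ^ r) := by
      rw [L.W.ds_comm, mul_assoc (g * L.val u), L.W.ds_mul_right]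
    have k3 := L.W.len_mul (L.x i₀) (L.W.h ^ r)
    have k4 := L.W.len_pow_le r
    have k5 : ((r : ℕ) : ℤ) * L.W.len L.W.h ≤ D₁ * L.W.len L.W.h :=
      mul_le_mul_of_nonneg_right (by omega) hh0
    omega

end LD

end Pool.Agent.H79.HG
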